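import Mathlib

set_option autoImplicit false

namespace Pool.Agent.TET

open InnerProductGeometry Real
open scoped RealInnerProductSpace

variable {V : Type*} [NormedAddCommGroup V] [InnerProductSpace ℝ V]

/-- The component of `x` orthogonal to `u`. -/
noncomputable def perp (u x : V) : V := x - (⟪u, x⟫ / ⟪u, u⟫) • u

/-- The dihedral angle at the edge `ab` between the half planes through `c` and through `d`. -/
noncomputable def dih (a b c d : V) : ℝ :=
  angle (perp (b - a) (c - a)) (perp (b - a) (d - a))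

theorem inner_perp_perp (u x y : V) (hu : u ≠ 0) :
    ⟪perp u x, perp u y⟫ * ⟪u, u⟫ = ⟪x, y⟫ * ⟪u, u⟫ - ⟪u, x⟫ * ⟪u, y⟫ := by
  have h : (⟪u, u⟫ : ℝ) ≠ 0 := by
    rw [ne_eq, inner_self_eq_zero]; exact hu
  unfold perp
  rw [inner_sub_left, inner_sub_right, inner_sub_right, inner_smul_left, inner_smul_right,
    inner_smul_right, real_inner_comm u x, inner_smul_left]
  simp only [conj_trivial]
  field_simp
  ring

/-- The squared area `|x|^2 |u|^2 - <u,x>^2`. -/
noncomputable def ar (u x : V) : ℝ := ⟪x, x⟫ * ⟪u, u⟫ - ⟪u, x⟫ * ⟪u, x⟫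

theorem norm_perp (u x : V) (hu : u ≠ 0) : ‖perp u x‖ = √(ar u x) / ‖u‖ := by
  have h : 0 < ‖u‖ := norm_pos_iff.2 hu
  rw [eq_div_iff h.ne', ← Real.sqrt_sq (mul_nonneg (norm_nonneg _) h.le)]
  congr 1
  rw [mul_pow, ← real_inner_self_eq_norm_sq, ← real_inner_self_eq_norm_sq, inner_perp_perp u x x hu]
  rfl

theorem cos_dih (a b c d : V) (hab : b - a ≠ 0) :
    Real.cos (dih a b c d) = (⟪c - a, d - a⟫ * ⟪b - a, b - a⟫ -
      ⟪b - a, c - a⟫ * ⟪b - a, d - a⟫) /
      (√(ar (b - a) (c - a)) * √(ar (b - a) (d - a))) := by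
  have h : 0 < ‖b - a‖ := norm_pos_iff.2 hab
  have h2 : (⟪b - a, b - a⟫ : ℝ) = ‖b - a‖ * ‖b - a‖ := by
    rw [real_inner_self_eq_norm_mul_norm]
  have h1 := inner_perp_perp (b - a) (c - a) (d - a) hab
  unfold dih
  rw [cos_angle, norm_perp _ _ hab, norm_perp _ _ hab, ← h1, h2]
  field_simp

end Pool.Agent.TET
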