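import Pool.Agent.TET.Shape4
import Pool.Agent.TetRel.Defs

set_option autoImplicit false

namespace Pool.Agent.TET

open MeasureTheory Module

theorem contDiff_phi : ContDiff ℝ 1 (fun t : Fin 6 → ℝ => phi t) := by
  rw [contDiff_pi]
  intro e
  have hc : ∀ i : Fin 6, ContDiff ℝ 1 (fun t : Fin 6 → ℝ => Real.cos (t i)) := fun i =>
    Real.contDiff_cos.comp (contDiff_apply ℝ ℝ i)
  have hs : ∀ i : Fin 6, ContDiff ℝ 1 (fun t : Fin 6 → ℝ => Real.sin (t i)) := fun i =>
    Real.contDiff_sin.comp (contDiff_apply ℝ ℝ i)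
  have hx : ∀ a b c d p q : Fin 6, ContDiff ℝ 1 (fun t : Fin 6 → ℝ =>
      xpoly (Real.cos (t a)) (Real.cos (t b)) (Real.cos (t c)) (Real.cos (t d)) (Real.cos (t p))
        (Real.cos (t q))) := by
    intro a b c d p q
    unfold xpoly
    exact ((((hc a).mul (contDiff_const.sub ((hc b).pow 2))).add ((hc c).mul (hc d))).add
      ((hc p).mul (hc q))).add ((hc b).mul (((hc c).mul (hc q)).add ((hc p).mul (hc d))))
  unfold phi
  refine (hs e).mul ?_
  fin_cases e
  · exact hx 0 5 3 4 1 2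
  · exact hx 1 4 3 5 0 2
  · exact hx 2 3 4 5 0 1
  · exact hx 3 2 1 5 0 4
  · exact hx 4 1 2 5 0 3
  · exact hx 5 0 2 4 1 3

theorem contDiff_phi_comp {W : Type*} [NormedAddCommGroup W] [NormedSpace ℝ W]
    {g : W → Fin 6 → ℝ} (hg : ContDiff ℝ 1 g) (e : Fin 6) :
    ContDiff ℝ 1 (fun w => phi (g w) e) := by
  have h1 : ContDiff ℝ 1 (fun t : Fin 6 → ℝ => phi t e) := contDiff_pi.1 contDiff_phi e
  exact h1.comp hg

/-- Lengths in a subspace of dimension at most 3. -/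
theorem dim_span (m : Fin 3 → Fin 6 → ℕ) :
    dimH (Set.range (fun c : Fin 3 → ℝ => fun e : Fin 6 => ∑ i, c i * (m i e : ℝ))) ≤ 3 := by
  have h : ContDiff ℝ 1 (fun c : Fin 3 → ℝ => fun e : Fin 6 => ∑ i, c i * (m i e : ℝ)) := by
    rw [contDiff_pi]
    intro e
    exact ContDiff.sum fun i _ => (contDiff_apply ℝ ℝ i).mul contDiff_const
  have := h.dimH_range_le
  simpa using this

/-- Angles in an affine subspace of dimension 2. -/
theorem dim_angle (m : Fin 4 → Fin 6 → ℕ) (r : Fin 4 → ℝ)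
    (hm : LinearIndependent ℝ (fun i e => (m i e : ℝ))) :
    dimH {l : Fin 6 → ℝ | ∃ (s : ℝ) (t : Fin 6 → ℝ), (∀ i, ∑ e, (m i e : ℝ) * t e = r i) ∧
      l = fun e => s * phi t e} ≤ 3 := by
  classical
  by_cases hne : ∃ t0 : Fin 6 → ℝ, ∀ i, ∑ e, (m i e : ℝ) * t0 e = r i
  swap
  · have : {l : Fin 6 → ℝ | ∃ (s : ℝ) (t : Fin 6 → ℝ), (∀ i, ∑ e, (m i e : ℝ) * t e = r i) ∧
      l = fun e => s * phi t e} = ∅ := by
      ext l
      constructor
      · rintro ⟨s, t, ht, -⟩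
        exact (hne ⟨t, ht⟩).elim
      · exact fun h => h.elim
    rw [this]
    simp
  obtain ⟨t0, ht0⟩ := hne
  let M : Matrix (Fin 4) (Fin 6) ℝ := Matrix.of fun i e => (m i e : ℝ)
  have hrank : M.rank = 4 := by
    have h1 : LinearIndependent ℝ M.row := hm
    simpa using h1.rank_matrix
  have hker : finrank ℝ (LinearMap.ker M.mulVecLin) = 2 := by
    have h1 := M.mulVecLin.finrank_range_add_finrank_ker
    have h2 : finrank ℝ (LinearMap.range M.mulVecLin) = 4 := hrank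
    rw [h2] at h1
    simp at h1
    omega
  let b : Basis (Fin 2) ℝ (LinearMap.ker M.mulVecLin) := finBasisOfFinrankEq ℝ _ hker
  let f : ℝ × (Fin 2 → ℝ) → (Fin 6 → ℝ) := fun p e =>
    p.1 * phi (fun i => t0 i + ∑ j, p.2 j * (b j : Fin 6 → ℝ) i) e
  have hf : ContDiff ℝ 1 f := by
    rw [contDiff_pi]
    intro e
    have h1 : ContDiff ℝ 1 (fun p : ℝ × (Fin 2 → ℝ) =>
        (fun i => t0 i + ∑ j, p.2 j * (b j : Fin 6 → ℝ) i : Fin 6 → ℝ)) := by
      rw [contDiff_pi]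
      intro i
      refine contDiff_const.add (ContDiff.sum fun j _ => ?_)
      exact ((contDiff_apply ℝ ℝ j).comp contDiff_snd).mul contDiff_const
    exact contDiff_fst.mul (contDiff_phi_comp h1 e)
  have hsub : {l : Fin 6 → ℝ | ∃ (s : ℝ) (t : Fin 6 → ℝ), (∀ i, ∑ e, (m i e : ℝ) * t e = r i) ∧
      l = fun e => s * phi t e} ⊆ Set.range f := by
    rintro l ⟨s, t, ht, rfl⟩
    have hmem : t - t0 ∈ LinearMap.ker M.mulVecLin := by
      rw [LinearMap.mem_ker]
      ext i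
      rw [Matrix.mulVecLin_apply, Matrix.mulVec_sub]
      simp only [Pi.sub_apply, Matrix.mulVec, dotProduct, M, Matrix.of_apply, Pi.zero_apply]
      rw [ht i, ht0 i, sub_self]
    refine ⟨(s, fun j => b.repr ⟨t - t0, hmem⟩ j), ?_⟩
    have h1 := congrArg (Subtype.val) (b.sum_repr ⟨t - t0, hmem⟩)
    have h2 : (fun i => t0 i + ∑ j, (b.repr ⟨t - t0, hmem⟩ j) * (b j : Fin 6 → ℝ) i) = t := by
      ext i
      have h3 := congrFun h1 i
      simp only [Submodule.coe_sum, Submodule.coe_smul, Finset.sum_apply, Pi.smul_apply,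
        smul_eq_mul, Pi.sub_apply] at h3
      rw [h3]
      ring
    show (fun e => s * phi (fun i => t0 i + ∑ j, (b.repr ⟨t - t0, hmem⟩ j) *
      (b j : Fin 6 → ℝ) i) e) = fun e => s * phi t e
    rw [h2]
  refine (dimH_mono hsub).trans (hf.dimH_range_le.trans ?_)
  simp

/-- **The dimension bound**, from the cone condition. -/
theorem dim_le_three (T : Set (Fin 6 → ℝ))
    (hT : ∀ l ∈ T, ∃ (s : ℝ) (t : Fin 6 → ℝ), (l = fun e => s * phi t e) ∧
      ∃ (k : ℕ) (n : Fin k → Fin 6 → ℕ) (c : Fin k → ℝ),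
        LinearIndependent ℝ (fun i e => (n i e : ℝ)) ∧
        (∀ i, ∑ e, (n i e : ℝ) * t e = 2 * Real.pi) ∧ ∀ e, l e = ∑ i, c i * (n i e : ℝ)) :
    dimH T ≤ 3 := by
  classical
  let P : Set (Fin 4 → Fin 6 → ℕ) := {m | LinearIndependent ℝ (fun i e => (m i e : ℝ))}
  let A : Set (Fin 6 → ℝ) := ⋃ m : Fin 3 → Fin 6 → ℕ,
    Set.range (fun c : Fin 3 → ℝ => fun e : Fin 6 => ∑ i, c i * (m i e : ℝ))
  let B : Set (Fin 6 → ℝ) := ⋃ m ∈ P, {l : Fin 6 → ℝ | ∃ (s : ℝ) (t : Fin 6 → ℝ),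
    (∀ i, ∑ e, (m i e : ℝ) * t e = 2 * Real.pi) ∧ l = fun e => s * phi t e}
  have hA : dimH A ≤ 3 := by
    rw [dimH_iUnion]
    exact iSup_le dim_span
  have hB : dimH B ≤ 3 := by
    rw [dimH_bUnion P.to_countable]
    exact iSup₂_le fun m hm => dim_angle m (fun _ => 2 * Real.pi) hm
  have hsub : T ⊆ A ∪ B := by
    intro l hl
    obtain ⟨s, t, h1, k, n, c, h2, h3, h4⟩ := hT l hl
    by_cases hk : k ≤ 3
    · left
      refine Set.mem_iUnion.2 ⟨fun i e => if h : i.1 < k then n ⟨i.1, h⟩ e else 0, ?_⟩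
      refine ⟨fun i => if h : i.1 < k then c ⟨i.1, h⟩ else 0, ?_⟩
      ext e
      rw [h4 e]
      symm
      -- sum over `Fin k` as part of the sum over `Fin 3`
      have h5 : ∑ i : Fin k, c i * (n i e : ℝ) = ∑ i ∈ Finset.range k,
          (if h : i < k then c ⟨i, h⟩ * (n ⟨i, h⟩ e : ℝ) else 0) := by
        rw [Finset.sum_range]
        refine Finset.sum_congr rfl fun i _ => ?_
        rw [dif_pos i.2]
      have h6 : ∑ i ∈ Finset.range k,
          (if h : i < k then c ⟨i, h⟩ * (n ⟨i, h⟩ e : ℝ) else 0) = ∑ i ∈ Finset.range 3,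
          (if h : i < k then c ⟨i, h⟩ * (n ⟨i, h⟩ e : ℝ) else 0) := by
        refine Finset.sum_subset (Finset.range_subset_range.2 hk) fun i _ hi => ?_
        rw [dif_neg (by simpa using hi)]
      rw [h5, h6, Finset.sum_range]
      refine Finset.sum_congr rfl fun i _ => ?_
      by_cases hi : i.1 < k
      · simp only [dif_pos hi]
      · simp only [dif_neg hi]; simp
    · right
      have hk4 : 4 ≤ k := by omega
      refine Set.mem_biUnion (x := fun i e => n (Fin.castLE hk4 i) e) ?_ ?_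
      · exact h2.comp (Fin.castLE hk4) (Fin.castLE_injective hk4)
      · exact ⟨s, t, fun i => h3 _, h1⟩
  calc dimH T ≤ dimH (A ∪ B) := dimH_mono hsub
    _ = max (dimH A) (dimH B) := dimH_union _ _
    _ ≤ 3 := max_le hA hB

section
open Pool.Agent.TetRel

theorem len_eq_elen (v : Fin 4 → E3) (e : Fin 6) : len v e = elen v e := rfl

theorem dih_eq_edih (v : Fin 4 → E3) (e : Fin 6) : TetRel.dih v e = edih v e := rfl

/-- **The lengths from the angles**: `len v e = s * phi (dih v) e`. -/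
theorem len_eq (v : Fin 4 → E3) (hv : AffineIndependent ℝ v) :
    ∃ s : ℝ, 0 < s ∧ ∀ e, len v e = s * phi (TetRel.dih v) e := elen_eq v hv

end

end Pool.Agent.TET
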