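import Pool.Agent.TET.Sym3

set_option autoImplicit false

namespace Pool.Agent.TET

open Real

/-- Kronecker for two numbers `2 cos`, general form. `Ls`: relations that vanish, `Ms`:
polynomials that do not vanish (both are kept by conjugation), `G / d` is integral because its
square is the value of `H`. -/
theorem kron2 {N : ℕ} (hN : 0 < N) (r s : ℕ) (x y : ℝ) (hx : x = 2 * Real.cos (2 * π * r / N))
    (hy : y = 2 * Real.cos (2 * π * s / N)) (Ls Ms : Set (MvPolynomial (Fin 2) ℤ))
    (hL : ∀ L ∈ Ls, MvPolynomial.aeval ![x, y] L = 0)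
    (hM : ∀ M ∈ Ms, MvPolynomial.aeval ![x, y] M ≠ 0)
    (d : ℕ) (hd : 0 < d) (G H : MvPolynomial (Fin 2) ℤ)
    (hGH : (MvPolynomial.aeval ![x, y] G) ^ 2 = (d : ℝ) ^ 2 * MvPolynomial.aeval ![x, y] H)
    (hG : ∀ t : Fin 2 → ℝ, (∀ i, -2 ≤ t i ∧ t i ≤ 2) →
      (∀ L ∈ Ls, MvPolynomial.aeval t L = 0) → (∀ M ∈ Ms, MvPolynomial.aeval t M ≠ 0) →
      |MvPolynomial.aeval t G| ≤ d)
    (hne : MvPolynomial.aeval ![x, y] G ≠ 0) :
    |MvPolynomial.aeval ![x, y] G| = d := by
  set ζ : ℂ := Complex.exp (2 * π * Complex.I / N) with hζ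
  have hζN : ζ ^ N = 1 := by
    rw [hζ, ← Complex.exp_nat_mul]
    have hN' : (N : ℂ) ≠ 0 := by exact_mod_cast hN.ne'
    rw [mul_div_cancel₀ _ hN', Complex.exp_two_pi_mul_I]
  have hζi : IsIntegral ℤ ζ := by
    refine IsIntegral.of_pow hN ?_
    rw [hζN]
    exact isIntegral_one
  let K := IntermediateField.adjoin ℚ {ζ}
  let inst : NumberField K := {
    to_charZero := (IntermediateField.adjoin ℚ {ζ}).charZero,
    to_finiteDimensional := IntermediateField.adjoin.finiteDimensional hζi.tower_top }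
  let z : K := ⟨ζ, IntermediateField.mem_adjoin_simple_self ℚ ζ⟩
  have hzN : z ^ N = 1 := by
    apply Subtype.ext
    simp only [z]
    push_cast
    exact hζN
  have hzi : IsIntegral ℤ z := by
    refine IsIntegral.of_pow hN ?_
    rw [hzN]
    exact isIntegral_one
  let w : Fin 2 → K := ![z ^ r + z ^ (r * (N - 1)), z ^ s + z ^ (s * (N - 1))]
  have hwi : ∀ i, IsIntegral ℤ (w i) := by
    intro i
    fin_cases i
    · exact (hzi.pow _).add (hzi.pow _)
    · exact (hzi.pow _).add (hzi.pow _)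
  have hcoe : ∀ i, ((w i : K) : ℂ) = ((![x, y] i : ℝ) : ℂ) := by
    intro i
    fin_cases i
    · show ((z ^ r + z ^ (r * (N - 1)) : K) : ℂ) = ((x : ℝ) : ℂ)
      rw [hx, ← exp_add hN r]
      rfl
    · show ((z ^ s + z ^ (s * (N - 1)) : K) : ℂ) = ((y : ℝ) : ℂ)
      rw [hy, ← exp_add hN s]
      rfl
  -- evaluation goes through ring homomorphisms
  have hev : ∀ (P : MvPolynomial (Fin 2) ℤ) (φ : K →+* ℂ) (t : Fin 2 → ℝ),
      (∀ i, φ (w i) = ((t i : ℝ) : ℂ)) →
      φ (MvPolynomial.aeval w P) = ((MvPolynomial.aeval t P : ℝ) : ℂ) := by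
    intro P φ t ht
    have h1 : φ (MvPolynomial.aeval w P) = MvPolynomial.aeval (fun i => φ (w i)) P := by
      rw [MvPolynomial.aeval_def, MvPolynomial.aeval_def, MvPolynomial.hom_eval₂]
      congr 1
      exact RingHom.ext_int _ _
    have h2 : ((MvPolynomial.aeval t P : ℝ) : ℂ) =
        MvPolynomial.aeval (fun i => ((t i : ℝ) : ℂ)) P := by
      rw [MvPolynomial.aeval_def, MvPolynomial.aeval_def]
      rw [show ((MvPolynomial.eval₂ (algebraMap ℤ ℝ) t P : ℝ) : ℂ) =
        Complex.ofRealHom (MvPolynomial.eval₂ (algebraMap ℤ ℝ) t P) from rfl,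
        MvPolynomial.hom_eval₂]
      congr 1
    rw [h1, h2]
    have h3 : (fun i => φ (w i)) = fun i => ((t i : ℝ) : ℂ) := funext ht
    rw [h3]
  let ι : K →+* ℂ := algebraMap K ℂ
  have hzero : ∀ (P : MvPolynomial (Fin 2) ℤ), MvPolynomial.aeval w P = 0 ↔
      MvPolynomial.aeval ![x, y] P = 0 := by
    intro P
    have := hev P ι ![x, y] hcoe
    constructor
    · intro h
      rw [h, map_zero] at this
      exact_mod_cast this.symm
    · intro h
      rw [h, Complex.ofReal_zero] at this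
      exact (map_eq_zero_iff ι ι.injective).1 this
  have hzero' : ∀ (P : MvPolynomial (Fin 2) ℤ) (φ : K →+* ℂ) (t : Fin 2 → ℝ),
      (∀ i, φ (w i) = ((t i : ℝ) : ℂ)) →
      (MvPolynomial.aeval w P = 0 ↔ MvPolynomial.aeval t P = 0) := by
    intro P φ t ht
    have := hev P φ t ht
    constructor
    · intro h
      rw [h, map_zero] at this
      exact_mod_cast this.symm
    · intro h
      rw [h, Complex.ofReal_zero] at this
      exact (map_eq_zero_iff φ φ.injective).1 this
  have hdK : (d : K) ≠ 0 := by exact_mod_cast hd.ne'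
  have hGHK : (MvPolynomial.aeval w G) ^ 2 = (d : K) ^ 2 * MvPolynomial.aeval w H := by
    have h1 : MvPolynomial.aeval w (G ^ 2 - MvPolynomial.C ((d : ℤ) ^ 2) * H) = 0 := by
      rw [hzero]
      simp only [map_sub, map_pow, map_mul, MvPolynomial.aeval_C]
      rw [hGH]
      simp
    simp only [map_sub, map_pow, map_mul, MvPolynomial.aeval_C] at h1
    rw [sub_eq_zero] at h1
    rw [h1]
    simp
  let γ : K := MvPolynomial.aeval w G / d
  have hγ2 : γ ^ 2 = MvPolynomial.aeval w H := by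
    simp only [γ]
    rw [div_pow, hGHK, mul_div_cancel_left₀ _ (pow_ne_zero 2 hdK)]
  have hγ0 : γ ≠ 0 := by
    refine div_ne_zero ?_ hdK
    intro h
    exact hne ((hzero G).1 h)
  have hγi : IsIntegral ℤ γ := by
    refine IsIntegral.of_pow (n := 2) (by norm_num) ?_
    rw [hγ2]
    have h1 : MvPolynomial.aeval w H ∈ integralClosure ℤ K := by
      have : MvPolynomial.aeval w H = ((MvPolynomial.aeval
          (fun i => (⟨w i, hwi i⟩ : integralClosure ℤ K)) H : integralClosure ℤ K) : K) := by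
        have := MvPolynomial.comp_aeval (R := ℤ)
          (fun i => (⟨w i, hwi i⟩ : integralClosure ℤ K)) (integralClosure ℤ K).val
        have h3 := congrArg (fun f => f H) this
        exact h3.symm
      rw [this]
      exact Subtype.coe_prop _
    exact h1
  have hγφ : ∀ (φ : K →+* ℂ) (t : Fin 2 → ℝ), (∀ i, φ (w i) = ((t i : ℝ) : ℂ)) →
      φ γ = ((MvPolynomial.aeval t G / d : ℝ) : ℂ) := by
    intro φ t ht
    simp only [γ]
    rw [map_div₀, hev G φ t ht, map_natCast]
    push_cast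
    rfl
  have hdR : (0 : ℝ) < d := by exact_mod_cast hd
  obtain ⟨n, hn, hpow⟩ := NumberField.Embeddings.pow_eq_one_of_norm_le_one K ℂ hγ0 hγi (by
    intro φ
    have h1 : ∀ i, ∃ t : ℝ, φ (w i) = (t : ℂ) ∧ -2 ≤ t ∧ t ≤ 2 := by
      intro i
      fin_cases i
      · exact emb_real z hN hzN r φ
      · exact emb_real z hN hzN s φ
    choose t ht using h1
    have ht' := fun i => (ht i).1
    rw [hγφ φ t ht', Complex.norm_real, Real.norm_eq_abs, abs_div, abs_of_pos hdR,
      div_le_one hdR]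
    refine hG t (fun i => (ht i).2) (fun L hLs => ?_) (fun M hMs => ?_)
    · exact (hzero' L φ t ht').1 ((hzero L).2 (hL L hLs))
    · exact fun h => hM M hMs ((hzero M).1 ((hzero' M φ t ht').2 h)))
  have h4 := hγφ ι ![x, y] hcoe
  have h5 : ((MvPolynomial.aeval ![x, y] G / d : ℝ) : ℂ) ^ n = 1 := by
    rw [← h4, ← map_pow, hpow, map_one]
  have h6 : (MvPolynomial.aeval ![x, y] G / d : ℝ) ^ n = 1 := by exact_mod_cast h5
  have h7 : |(MvPolynomial.aeval ![x, y] G / d : ℝ)| ^ n = 1 := by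
    rw [← abs_pow, h6, abs_one]
  have h8 := (pow_eq_one_iff_of_nonneg (abs_nonneg _) hn.ne').1 h7
  rw [abs_div, abs_of_pos hdR, div_eq_one_iff_eq hdR.ne'] at h8
  exact h8

end Pool.Agent.TET
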