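import Pool.Agent.TET.Dim

/-! # Relabelling the vertices of a tetrahedron -/

set_option autoImplicit false

namespace Pool.Agent.TET

open Pool.Agent.TetRel

/-- The number of the edge with ends `i` and `j` (`0` if `i = j`). -/
def en : Fin 4 → Fin 4 → Fin 6 := ![![0, 0, 1, 2], ![0, 0, 3, 4], ![1, 3, 0, 5], ![2, 4, 5, 0]]

/-- The number of the edge with ends `τ (ea e)` and `τ (eb e)`. -/
def em (τ : Equiv.Perm (Fin 4)) (e : Fin 6) : Fin 6 := en (τ (ea e)) (τ (eb e))

theorem em_ends : ∀ (τ : Equiv.Perm (Fin 4)) (e : Fin 6),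
    ((ea (em τ e) = τ (ea e) ∧ eb (em τ e) = τ (eb e)) ∨
      (ea (em τ e) = τ (eb e) ∧ eb (em τ e) = τ (ea e))) ∧
    ((ec (em τ e) = τ (ec e) ∧ ed (em τ e) = τ (ed e)) ∨
      (ec (em τ e) = τ (ed e) ∧ ed (em τ e) = τ (ec e))) := by
  decide +kernel

theorem len_comp (v : Fin 4 → E3) (τ : Equiv.Perm (Fin 4)) (e : Fin 6) :
    len (v ∘ τ) e = len v (em τ e) := by
  unfold len
  simp only [Function.comp_apply]
  rcases (em_ends τ e).1 with ⟨h1, h2⟩ | ⟨h1, h2⟩
  · rw [h1, h2]
  · rw [h1, h2, dist_comm]

theorem perp_neg_left (u w : E3) : TetRel.perp (-u) w = TetRel.perp u w := by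
  unfold TetRel.perp
  rw [inner_neg_left, inner_neg_neg, neg_div, neg_smul_neg]

theorem perp_sub_self (u w : E3) : TetRel.perp u (w - u) = TetRel.perp u w := by
  unfold TetRel.perp
  by_cases hu : u = 0
  · subst hu; simp
  · have h : inner ℝ u u ≠ 0 := inner_self_ne_zero.2 hu
    rw [inner_sub_right, sub_div, div_self h, sub_smul, one_smul]
    abel

/-- the dihedral angle at the edge `p q`, seen from `p` -/
noncomputable def gdih (p q r s : E3) : ℝ :=
  InnerProductGeometry.angle (TetRel.perp (q - p) (r - p)) (TetRel.perp (q - p) (s - p))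

theorem perp_swap (p q r : E3) :
    TetRel.perp (p - q) (r - q) = TetRel.perp (q - p) (r - p) := by
  have h1 : p - q = -(q - p) := by abel
  have h2 : r - q = (r - p) - (q - p) := by abel
  rw [h1, h2, perp_neg_left, perp_sub_self]

theorem gdih_swap (p q r s : E3) : gdih q p r s = gdih p q r s := by
  unfold gdih
  rw [perp_swap p q r, perp_swap p q s]

theorem gdih_swap' (p q r s : E3) : gdih p q s r = gdih p q r s :=
  InnerProductGeometry.angle_comm _ _

theorem dih_eq_gdih (v : Fin 4 → E3) (e : Fin 6) :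
    TetRel.dih v e = gdih (v (ea e)) (v (eb e)) (v (ec e)) (v (ed e)) := rfl

theorem dih_comp (v : Fin 4 → E3) (τ : Equiv.Perm (Fin 4)) (e : Fin 6) :
    TetRel.dih (v ∘ τ) e = TetRel.dih v (em τ e) := by
  rw [dih_eq_gdih, dih_eq_gdih]
  simp only [Function.comp_apply]
  obtain ⟨h, h'⟩ := em_ends τ e
  rcases h with ⟨h1, h2⟩ | ⟨h1, h2⟩ <;> rcases h' with ⟨h3, h4⟩ | ⟨h3, h4⟩ <;>
    rw [h1, h2, h3, h4]
  · rw [gdih_swap']
  · rw [gdih_swap]
  · rw [gdih_swap, gdih_swap']

/-- `em` is a right action: relabelling by `σ * τ` is relabelling by `τ` after `σ`. -/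
theorem em_mul : ∀ (σ τ : Equiv.Perm (Fin 4)) (e : Fin 6), em (σ * τ) e = em σ (em τ e) := by
  decide +kernel

theorem em_one : ∀ e : Fin 6, em 1 e = e := by decide +kernel

/-- Up to a relabelling of the vertices and an exchange of the two colours there are six
colourings of the edges of a tetrahedron with two colours: none, one edge, two adjacent edges,
two opposite edges, a triangle, a path with three edges. -/
theorem col_cases : ∀ χ : Fin 6 → Bool, ∃ τ : Equiv.Perm (Fin 4), ∃ b : Bool,
    let ψ := fun e => xor b (χ (em τ e));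
    ψ = ![false, false, false, false, false, false] ∨
    ψ = ![true, false, false, false, false, false] ∨
    ψ = ![true, true, false, false, false, false] ∨
    ψ = ![false, true, false, false, true, false] ∨
    ψ = ![false, false, false, true, true, true] ∨
    ψ = ![true, false, false, true, false, true] := by
  decide +kernel

end Pool.Agent.TET
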