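import Pool.Agent.TET.Angle

set_option autoImplicit false

namespace Pool.Agent.TET

open InnerProductGeometry Real
open scoped RealInnerProductSpace

/-- The four corners, sorted along the edge number `e`: the edge is `ei e`, `ej e`, the other two
corners are `ek e`, `el e`. -/
def ei : Fin 6 → Fin 4 := ![0, 0, 0, 1, 1, 2]
def ej : Fin 6 → Fin 4 := ![1, 2, 3, 2, 3, 3]
def ek : Fin 6 → Fin 4 := ![2, 1, 1, 0, 0, 0]
def el : Fin 6 → Fin 4 := ![3, 3, 2, 3, 2, 1]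

section
variable {V : Type*} [NormedAddCommGroup V] [InnerProductSpace ℝ V]

/-- The lengths of the six edges. -/
noncomputable def elen (v : Fin 4 → V) (e : Fin 6) : ℝ := dist (v (ei e)) (v (ej e))

/-- The six dihedral angles. -/
noncomputable def edih (v : Fin 4 → V) (e : Fin 6) : ℝ :=
  dih (v (ei e)) (v (ej e)) (v (ek e)) (v (el e))

end

/-- `c`: at the edge, `d`: at the opposite edge, `kj`, `lj`, `ki`, `li` the other four. -/
def xpoly (c d kj lj ki li : ℝ) : ℝ :=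
  c * (1 - d ^ 2) + kj * lj + ki * li + d * (kj * li + ki * lj)

/-- The polynomial part of the lengths as functions of the angles. -/
def xfun (c : Fin 6 → ℝ) : Fin 6 → ℝ :=
  ![xpoly (c 0) (c 5) (c 3) (c 4) (c 1) (c 2),
    xpoly (c 1) (c 4) (c 3) (c 5) (c 0) (c 2),
    xpoly (c 2) (c 3) (c 4) (c 5) (c 0) (c 1),
    xpoly (c 3) (c 2) (c 1) (c 5) (c 0) (c 4),
    xpoly (c 4) (c 1) (c 2) (c 5) (c 0) (c 3),
    xpoly (c 5) (c 0) (c 2) (c 4) (c 1) (c 3)]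

/-- The lengths of the edges up to a factor, from the dihedral angles. -/
noncomputable def phi (t : Fin 6 → ℝ) (e : Fin 6) : ℝ :=
  Real.sin (t e) * xfun (fun i => Real.cos (t i)) e

theorem xid (rkl ril rik rjl rjk rij Ai Aj Ak Al : ℝ) (hi : 0 < Ai) (hj : 0 < Aj) (hk : 0 < Ak)
    (hl : 0 < Al) :
    xpoly (-rkl / (Ak * Al)) (-rij / (Ai * Aj)) (-ril / (Ai * Al)) (-rik / (Ai * Ak))
      (-rjl / (Aj * Al)) (-rjk / (Aj * Ak)) * (Ak * Al * Ai ^ 2 * Aj ^ 2) =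
    -rkl * (Ai ^ 2 * Aj ^ 2 - rij ^ 2) + ril * rik * Aj ^ 2 + rjl * rjk * Ai ^ 2
      - rij * (ril * rjk + rjl * rik) := by
  unfold xpoly
  field_simp
  ring

theorem fin_len {l D Ak Al Ai Aj sn X : ℝ} (hD : 0 < D) (hi : 0 < Ai) (hj : 0 < Aj)
    (hk : 0 < Ak) (hl : 0 < Al) (h1 : l * √D = Ak * Al * sn)
    (h2 : X * (Ak * Al * Ai ^ 2 * Aj ^ 2) = D ^ 2) :
    l = (Ak ^ 2 * Al ^ 2 * Ai ^ 2 * Aj ^ 2) / (D ^ 2 * √D) * (sn * X) := by
  have hs : 0 < √D := Real.sqrt_pos.2 hD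
  have h3 : l = Ak * Al * sn / √D := by
    rw [eq_div_iff hs.ne']; exact h1
  have h4 : X = D ^ 2 / (Ak * Al * Ai ^ 2 * Aj ^ 2) := by
    rw [eq_div_iff (by positivity)]; exact h2
  rw [h3, h4]
  field_simp

theorem sin_len {l D Ak Al r th : ℝ} (hl : 0 ≤ l) (hD : 0 < D) (hAk : 0 < Ak)
    (hAl : 0 < Al) (h : l ^ 2 * D = Ak ^ 2 * Al ^ 2 - r ^ 2)
    (hc : Real.cos th = -r / (Ak * Al)) (hs : 0 ≤ Real.sin th) :
    l * √D = Ak * Al * Real.sin th := by
  have h0 : 0 ≤ √D := Real.sqrt_nonneg _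
  have h1 : (l * √D) ^ 2 = (Ak * Al * Real.sin th) ^ 2 := by
    have h2 : Real.sin th ^ 2 = 1 - Real.cos th ^ 2 := by
      have := Real.sin_sq_add_cos_sq th
      linarith
    rw [mul_pow, Real.sq_sqrt hD.le, h, mul_pow, h2, hc]
    field_simp
  exact (sq_eq_sq₀ (by positivity) (by positivity)).1 h1

end Pool.Agent.TET
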