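import Pool.Agent.TET.Shape

set_option autoImplicit false

namespace Pool.Agent.TET

open InnerProductGeometry Real
open scoped RealInnerProductSpace

/-- Six inner products of the three edge vectors at a corner. -/
structure Six where
  a : ℝ
  b : ℝ
  c : ℝ
  d : ℝ
  e : ℝ
  f : ℝ

namespace Six

/-- `a = <1,1>`, `b = <2,2>`, `c = <3,3>`, `d = <2,3>`, `e = <1,3>`, `f = <1,2>`. -/
def r11 (h : Six) : ℝ := h.b * h.c - h.d ^ 2
def r22 (h : Six) : ℝ := h.a * h.c - h.e ^ 2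
def r33 (h : Six) : ℝ := h.a * h.b - h.f ^ 2
def r12 (h : Six) : ℝ := h.e * h.d - h.f * h.c
def r13 (h : Six) : ℝ := h.f * h.d - h.e * h.b
def r23 (h : Six) : ℝ := h.f * h.e - h.a * h.d
def r01 (h : Six) : ℝ := -(h.r11 + h.r12 + h.r13)
def r02 (h : Six) : ℝ := -(h.r12 + h.r22 + h.r23)
def r03 (h : Six) : ℝ := -(h.r13 + h.r23 + h.r33)
def r00 (h : Six) : ℝ := -(h.r01 + h.r02 + h.r03)
def D (h : Six) : ℝ := h.a * h.b * h.c + 2 * h.d * h.e * h.f - h.a * h.d ^ 2 - h.b * h.e ^ 2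
  - h.c * h.f ^ 2

end Six

/-- One edge: from the data of the edge to the formula. `E` = length, `th` = angle. -/
theorem one_edge {E D th rkl ril rik rjl rjk rij Ai Aj Ak Al cd ckj clj cki cli : ℝ}
    (hE : 0 ≤ E) (hD : 0 < D) (hi : 0 < Ai) (hj : 0 < Aj) (hk : 0 < Ak) (hl : 0 < Al)
    (h1 : E ^ 2 * D = Ak ^ 2 * Al ^ 2 - rkl ^ 2)
    (hc : Real.cos th = -rkl / (Ak * Al)) (hs : 0 ≤ Real.sin th)
    (hcd : cd = -rij / (Ai * Aj)) (hkj : ckj = -ril / (Ai * Al)) (hlj : clj = -rik / (Ai * Ak))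
    (hki : cki = -rjl / (Aj * Al)) (hli : cli = -rjk / (Aj * Ak))
    (hX : -rkl * (Ai ^ 2 * Aj ^ 2 - rij ^ 2) + ril * rik * Aj ^ 2 + rjl * rjk * Ai ^ 2
      - rij * (ril * rjk + rjl * rik) = D ^ 2) :
    E = (Ak ^ 2 * Al ^ 2 * Ai ^ 2 * Aj ^ 2) / (D ^ 2 * √D) *
      (Real.sin th * xpoly (Real.cos th) cd ckj clj cki cli) := by
  have h2 := sin_len hE hD hk hl h1 hc hs
  refine fin_len hD hi hj hk hl h2 ?_
  rw [hc, hcd, hkj, hlj, hki, hli, xid _ _ _ _ _ _ _ _ _ _ hi hj hk hl, hX]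

section
variable {V : Type*} [NormedAddCommGroup V] [InnerProductSpace ℝ V]

/-- The inner products of a tetrahedron. -/
noncomputable def six (v : Fin 4 → V) : Six where
  a := ⟪v 1 - v 0, v 1 - v 0⟫
  b := ⟪v 2 - v 0, v 2 - v 0⟫
  c := ⟪v 3 - v 0, v 3 - v 0⟫
  d := ⟪v 2 - v 0, v 3 - v 0⟫
  e := ⟪v 1 - v 0, v 3 - v 0⟫
  f := ⟪v 1 - v 0, v 2 - v 0⟫

theorem elen_sq (v : Fin 4 → V) (e : Fin 6) :
    elen v e ^ 2 = ⟪v (ej e) - v (ei e), v (ej e) - v (ei e)⟫ := by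
  unfold elen
  rw [dist_comm, dist_eq_norm, real_inner_self_eq_norm_sq]

theorem sin_edih (v : Fin 4 → V) (e : Fin 6) : 0 ≤ Real.sin (edih v e) := by
  unfold edih dih
  exact InnerProductGeometry.sin_angle_nonneg _ _

end

end Pool.Agent.TET
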