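import Pool.Agent.TET.Shape2

set_option autoImplicit false

namespace Pool.Agent.TET

open InnerProductGeometry Real
open scoped RealInnerProductSpace

section
variable {V : Type*} [NormedAddCommGroup V] [InnerProductSpace ℝ V]

/-- The data of the six edges. -/
theorem edges (v : Fin 4 → V) (hne : Function.Injective v) :
    let h := six v
    (elen v 0 ^ 2 * h.D = h.r22 * h.r33 - h.r23 ^ 2 ∧
      Real.cos (edih v 0) = -h.r23 / (√h.r22 * √h.r33)) ∧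
    (elen v 1 ^ 2 * h.D = h.r11 * h.r33 - h.r13 ^ 2 ∧
      Real.cos (edih v 1) = -h.r13 / (√h.r11 * √h.r33)) ∧
    (elen v 2 ^ 2 * h.D = h.r11 * h.r22 - h.r12 ^ 2 ∧
      Real.cos (edih v 2) = -h.r12 / (√h.r11 * √h.r22)) ∧
    (elen v 3 ^ 2 * h.D = h.r00 * h.r33 - h.r03 ^ 2 ∧
      Real.cos (edih v 3) = -h.r03 / (√h.r00 * √h.r33)) ∧
    (elen v 4 ^ 2 * h.D = h.r00 * h.r22 - h.r02 ^ 2 ∧
      Real.cos (edih v 4) = -h.r02 / (√h.r00 * √h.r22)) ∧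
    (elen v 5 ^ 2 * h.D = h.r00 * h.r11 - h.r01 ^ 2 ∧
      Real.cos (edih v 5) = -h.r01 / (√h.r00 * √h.r11)) := by
  intro h
  have e01 : v 1 - v 0 ≠ 0 := sub_ne_zero.2 (hne.ne (by decide))
  have e02 : v 2 - v 0 ≠ 0 := sub_ne_zero.2 (hne.ne (by decide))
  have e03 : v 3 - v 0 ≠ 0 := sub_ne_zero.2 (hne.ne (by decide))
  have e12 : v 2 - v 1 ≠ 0 := sub_ne_zero.2 (hne.ne (by decide))
  have e13 : v 3 - v 1 ≠ 0 := sub_ne_zero.2 (hne.ne (by decide))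
  have e23 : v 3 - v 2 ≠ 0 := sub_ne_zero.2 (hne.ne (by decide))
  have c0 : Real.cos (edih v 0) = _ := cos_dih (v 0) (v 1) (v 2) (v 3) e01
  have c1 : Real.cos (edih v 1) = _ := cos_dih (v 0) (v 2) (v 1) (v 3) e02
  have c2 : Real.cos (edih v 2) = _ := cos_dih (v 0) (v 3) (v 1) (v 2) e03
  have c3 : Real.cos (edih v 3) = _ := cos_dih (v 1) (v 2) (v 0) (v 3) e12
  have c4 : Real.cos (edih v 4) = _ := cos_dih (v 1) (v 3) (v 0) (v 2) e13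
  have c5 : Real.cos (edih v 5) = _ := cos_dih (v 2) (v 3) (v 0) (v 1) e23
  have l0 : elen v 0 ^ 2 = _ := elen_sq v 0
  have l1 : elen v 1 ^ 2 = _ := elen_sq v 1
  have l2 : elen v 2 ^ 2 = _ := elen_sq v 2
  have l3 : elen v 3 ^ 2 = _ := elen_sq v 3
  have l4 : elen v 4 ^ 2 = _ := elen_sq v 4
  have l5 : elen v 5 ^ 2 = _ := elen_sq v 5
  rw [c0, c1, c2, c3, c4, c5, l0, l1, l2, l3, l4, l5]
  clear c0 c1 c2 c3 c4 c5 l0 l1 l2 l3 l4 l5 e01 e02 e03 e12 e13 e23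
  simp only [ei, ej, Matrix.cons_val]
  obtain ⟨a1, ha1⟩ : ∃ a1, v 1 = v 0 + a1 := ⟨v 1 - v 0, by abel⟩
  obtain ⟨a2, ha2⟩ : ∃ a2, v 2 = v 0 + a2 := ⟨v 2 - v 0, by abel⟩
  obtain ⟨a3, ha3⟩ : ∃ a3, v 3 = v 0 + a3 := ⟨v 3 - v 0, by abel⟩
  have hh : h = ⟨⟪a1, a1⟫, ⟪a2, a2⟫, ⟪a3, a3⟫, ⟪a2, a3⟫, ⟪a1, a3⟫, ⟪a1, a2⟫⟩ := by
    show six v = _
    unfold six
    simp only [ha1, ha2, ha3, add_sub_cancel_left]
  have f21 : (⟪a2, a1⟫ : ℝ) = ⟪a1, a2⟫ := real_inner_comm _ _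
  have f31 : (⟪a3, a1⟫ : ℝ) = ⟪a1, a3⟫ := real_inner_comm _ _
  have f32 : (⟪a3, a2⟫ : ℝ) = ⟪a2, a3⟫ := real_inner_comm _ _
  rw [hh]
  simp only [ha1, ha2, ha3, add_sub_cancel_left, add_sub_add_left_eq_sub, sub_add_cancel_left,
    ar, inner_sub_left, inner_sub_right, inner_neg_left, inner_neg_right, f21, f31, f32,
    Six.r11, Six.r22, Six.r33, Six.r12, Six.r13, Six.r23, Six.r01, Six.r02, Six.r03, Six.r00,
    Six.D]
  generalize (⟪a1, a1⟫ : ℝ) = A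
  generalize (⟪a2, a2⟫ : ℝ) = B
  generalize (⟪a3, a3⟫ : ℝ) = C
  generalize (⟪a2, a3⟫ : ℝ) = D
  generalize (⟪a1, a3⟫ : ℝ) = E
  generalize (⟪a1, a2⟫ : ℝ) = F
  refine ⟨⟨?_, ?_⟩, ⟨?_, ?_⟩, ⟨?_, ?_⟩, ⟨?_, ?_⟩, ⟨?_, ?_⟩, ⟨?_, ?_⟩⟩
  · ring
  · rw [mul_comm √_]
    congr 1
    · ring
    · congr 2 <;> ring_nf
  · ring
  · rw [mul_comm √_]
    congr 1
    · ring
    · congr 2 <;> ring_nf
  · ring
  · rw [mul_comm √_]
    congr 1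
    · ring
    · congr 2 <;> ring_nf
  · ring
  · rw [mul_comm √_]
    congr 1
    · ring
    · congr 2 <;> ring_nf
  · ring
  · rw [mul_comm √_]
    congr 1
    · ring
    · congr 2 <;> ring_nf
  · ring
  · rw [mul_comm √_]
    congr 1
    · ring
    · congr 2 <;> ring_nf

end

end Pool.Agent.TET
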