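import Pool.Agent.TET.Shape3

set_option autoImplicit false

namespace Pool.Agent.TET

open InnerProductGeometry Real
open scoped RealInnerProductSpace

section
variable {V : Type*} [NormedAddCommGroup V] [InnerProductSpace ℝ V]

theorem ar_nonneg (u x : V) : 0 ≤ ar u x := by
  unfold ar
  have := real_inner_mul_inner_self_le u x
  nlinarith

theorem D_pos (v : Fin 4 → V) (hv : AffineIndependent ℝ v) : 0 < (six v).D := by
  have h1 : LinearIndependent ℝ (fun i : Fin 3 => v i.succ - v 0) := by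
    rw [affineIndependent_iff_linearIndependent_vsub ℝ v 0] at hv
    let g : Fin 3 → {x : Fin 4 // x ≠ 0} := fun i => ⟨i.succ, Fin.succ_ne_zero i⟩
    have hg : Function.Injective g := by
      intro i j h
      have := congrArg Subtype.val h
      exact Fin.succ_injective _ this
    exact hv.comp g hg
  have h2 := (Matrix.posDef_gram_of_linearIndependent h1).det_pos
  rw [Matrix.det_fin_three] at h2
  simp only [Matrix.gram_apply] at h2
  have e0 : (Fin.succ (0 : Fin 3)) = (1 : Fin 4) := rfl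
  have e1 : (Fin.succ (1 : Fin 3)) = (2 : Fin 4) := rfl
  have e2 : (Fin.succ (2 : Fin 3)) = (3 : Fin 4) := rfl
  rw [e0, e1, e2, real_inner_comm (v 1 - v 0) (v 2 - v 0),
    real_inner_comm (v 1 - v 0) (v 3 - v 0), real_inner_comm (v 2 - v 0) (v 3 - v 0)] at h2
  unfold Six.D six
  dsimp only
  nlinarith [h2]

theorem r_nonneg (v : Fin 4 → V) : 0 ≤ (six v).r00 ∧ 0 ≤ (six v).r11 ∧ 0 ≤ (six v).r22 ∧
    0 ≤ (six v).r33 := by
  refine ⟨?_, ?_, ?_, ?_⟩
  · have h := ar_nonneg (v 2 - v 1) (v 3 - v 1)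
    obtain ⟨a1, ha1⟩ : ∃ a1, v 1 = v 0 + a1 := ⟨v 1 - v 0, by abel⟩
    obtain ⟨a2, ha2⟩ : ∃ a2, v 2 = v 0 + a2 := ⟨v 2 - v 0, by abel⟩
    obtain ⟨a3, ha3⟩ : ∃ a3, v 3 = v 0 + a3 := ⟨v 3 - v 0, by abel⟩
    have f21 : (⟪a2, a1⟫ : ℝ) = ⟪a1, a2⟫ := real_inner_comm _ _
    have f31 : (⟪a3, a1⟫ : ℝ) = ⟪a1, a3⟫ := real_inner_comm _ _
    have f32 : (⟪a3, a2⟫ : ℝ) = ⟪a2, a3⟫ := real_inner_comm _ _
    simp only [six, ha1, ha2, ha3, add_sub_cancel_left, add_sub_add_left_eq_sub,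
      ar, inner_sub_left, inner_sub_right, f21, f31,
      Six.r11, Six.r22, Six.r33, Six.r12, Six.r13, Six.r23, Six.r01, Six.r02, Six.r03,
      Six.r00] at h ⊢
    nlinarith [h]
  · have h := ar_nonneg (v 2 - v 0) (v 3 - v 0)
    simp only [six, ar, Six.r11] at h ⊢
    nlinarith [h]
  · have h := ar_nonneg (v 1 - v 0) (v 3 - v 0)
    simp only [six, ar, Six.r22] at h ⊢
    nlinarith [h]
  · have h := ar_nonneg (v 1 - v 0) (v 2 - v 0)
    simp only [six, ar, Six.r33] at h ⊢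
    nlinarith [h]

theorem pos_of_prod {l D a b c : ℝ} (hl : 0 < l) (hD : 0 < D) (ha : 0 ≤ a) (hb : 0 ≤ b)
    (h : l ^ 2 * D = a * b - c ^ 2) : 0 < a ∧ 0 < b := by
  have h1 : 0 < a * b := by
    have : 0 < l ^ 2 * D := by positivity
    nlinarith [sq_nonneg c]
  constructor
  · rcases ha.lt_or_eq with h2 | h2
    · exact h2
    · rw [← h2] at h1; simp at h1
  · rcases hb.lt_or_eq with h2 | h2
    · exact h2
    · rw [← h2] at h1; simp at h1

/-- **The dihedral angles determine the lengths up to a factor.** -/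
theorem elen_eq (v : Fin 4 → V) (hv : AffineIndependent ℝ v) :
    ∃ s : ℝ, 0 < s ∧ ∀ e, elen v e = s * phi (edih v) e := by
  have hD := D_pos v hv
  obtain ⟨n0, n1, n2, n3⟩ := r_nonneg v
  obtain ⟨⟨p0, q0⟩, ⟨p1, q1⟩, ⟨p2, q2⟩, ⟨p3, q3⟩, ⟨p4, q4⟩, ⟨p5, q5⟩⟩ := edges v hv.injective
  have hl : ∀ e, 0 < elen v e := by
    intro e
    unfold elen
    refine dist_pos.2 (hv.injective.ne ?_)
    fin_cases e <;> decide
  have k1 := pos_of_prod (hl 0) hD n2 n3 p0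
  have k2 := pos_of_prod (hl 5) hD n0 n1 p5
  set h := six v with hh
  have s0 : 0 < √h.r00 := Real.sqrt_pos.2 k2.1
  have s1 : 0 < √h.r11 := Real.sqrt_pos.2 k2.2
  have s2 : 0 < √h.r22 := Real.sqrt_pos.2 k1.1
  have s3 : 0 < √h.r33 := Real.sqrt_pos.2 k1.2
  have t0 : √h.r00 ^ 2 = h.r00 := Real.sq_sqrt n0
  have t1 : √h.r11 ^ 2 = h.r11 := Real.sq_sqrt n1
  have t2 : √h.r22 ^ 2 = h.r22 := Real.sq_sqrt n2
  have t3 : √h.r33 ^ 2 = h.r33 := Real.sq_sqrt n3
  refine ⟨(h.r00 * h.r11 * h.r22 * h.r33) / (h.D ^ 2 * √h.D), ?_, ?_⟩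
  · have : 0 < √h.D := Real.sqrt_pos.2 hD
    have := k1.1; have := k1.2; have := k2.1; have := k2.2
    positivity
  intro e
  have key : ∀ (rkl ril rik rjl rjk rij Ai Aj Ak Al th cd ckj clj cki cli : ℝ)
      (_ : 0 < Ai) (_ : 0 < Aj) (_ : 0 < Ak) (_ : 0 < Al)
      (_ : elen v e ^ 2 * h.D = Ak ^ 2 * Al ^ 2 - rkl ^ 2)
      (_ : Real.cos th = -rkl / (Ak * Al)) (_ : 0 ≤ Real.sin th)
      (_ : cd = -rij / (Ai * Aj)) (_ : ckj = -ril / (Ai * Al)) (_ : clj = -rik / (Ai * Ak))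
      (_ : cki = -rjl / (Aj * Al)) (_ : cli = -rjk / (Aj * Ak))
      (_ : -rkl * (Ai ^ 2 * Aj ^ 2 - rij ^ 2) + ril * rik * Aj ^ 2 + rjl * rjk * Ai ^ 2
        - rij * (ril * rjk + rjl * rik) = h.D ^ 2)
      (_ : Ak ^ 2 * Al ^ 2 * Ai ^ 2 * Aj ^ 2 = h.r00 * h.r11 * h.r22 * h.r33)
      (_ : phi (edih v) e = Real.sin th * xpoly (Real.cos th) cd ckj clj cki cli),
      elen v e = (h.r00 * h.r11 * h.r22 * h.r33) / (h.D ^ 2 * √h.D) * phi (edih v) e := by
    intro rkl ril rik rjl rjk rij Ai Aj Ak Al th cd ckj clj cki cli a1 a2 a3 a4 a5 a6 a7 a8 a9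
      a10 a11 a12 a13 a14 a15
    rw [a15, ← a14]
    exact one_edge (hl e).le hD a1 a2 a3 a4 a5 a6 a7 a8 a9 a10 a11 a12 a13
  have sn := sin_edih v
  fin_cases e
  · -- i j k l = 0 1 2 3
    refine key h.r23 h.r03 h.r02 h.r13 h.r12 h.r01 (√h.r00) (√h.r11) (√h.r22) (√h.r33)
      (edih v 0) (Real.cos (edih v 5)) (Real.cos (edih v 3)) (Real.cos (edih v 4))
      (Real.cos (edih v 1)) (Real.cos (edih v 2)) s0 s1 s2 s3 ?_
      q0 (sn 0) q5
      q3
      q4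
      q1
      q2 ?_ ?_ rfl
    · rw [t2, t3]; exact p0
    · rw [t0, t1]; simp only [Six.r11, Six.r22, Six.r33, Six.r12, Six.r13, Six.r23,
        Six.r01, Six.r02, Six.r03, Six.r00, Six.D]; ring
    · rw [t0, t1, t2, t3]; ring
  · -- i j k l = 0 2 1 3
    refine key h.r13 h.r03 h.r01 h.r23 h.r12 h.r02 (√h.r00) (√h.r22) (√h.r11) (√h.r33)
      (edih v 1) (Real.cos (edih v 4)) (Real.cos (edih v 3)) (Real.cos (edih v 5))
      (Real.cos (edih v 0)) (Real.cos (edih v 2)) s0 s2 s1 s3 ?_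
      q1 (sn 1) q4
      q3
      q5
      q0
      (by rw [q2]; congr 1; exact mul_comm _ _) ?_ ?_ rfl
    · rw [t1, t3]; exact p1
    · rw [t0, t2]; simp only [Six.r11, Six.r22, Six.r33, Six.r12, Six.r13, Six.r23,
        Six.r01, Six.r02, Six.r03, Six.r00, Six.D]; ring
    · rw [t0, t1, t2, t3]; ring
  · -- i j k l = 0 3 1 2
    refine key h.r12 h.r02 h.r01 h.r23 h.r13 h.r03 (√h.r00) (√h.r33) (√h.r11) (√h.r22)
      (edih v 2) (Real.cos (edih v 3)) (Real.cos (edih v 4)) (Real.cos (edih v 5))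
      (Real.cos (edih v 0)) (Real.cos (edih v 1)) s0 s3 s1 s2 ?_
      q2 (sn 2) q3
      q4
      q5
      (by rw [q0]; congr 1; exact mul_comm _ _)
      (by rw [q1]; congr 1; exact mul_comm _ _) ?_ ?_ rfl
    · rw [t1, t2]; exact p2
    · rw [t0, t3]; simp only [Six.r11, Six.r22, Six.r33, Six.r12, Six.r13, Six.r23,
        Six.r01, Six.r02, Six.r03, Six.r00, Six.D]; ring
    · rw [t0, t1, t2, t3]; ring
  · -- i j k l = 1 2 0 3
    refine key h.r03 h.r13 h.r01 h.r23 h.r02 h.r12 (√h.r11) (√h.r22) (√h.r00) (√h.r33)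
      (edih v 3) (Real.cos (edih v 2)) (Real.cos (edih v 1)) (Real.cos (edih v 5))
      (Real.cos (edih v 0)) (Real.cos (edih v 4)) s1 s2 s0 s3 ?_
      q3 (sn 3) q2
      q1
      (by rw [q5]; congr 1; exact mul_comm _ _)
      q0
      (by rw [q4]; congr 1; exact mul_comm _ _) ?_ ?_ rfl
    · rw [t0, t3]; exact p3
    · rw [t1, t2]; simp only [Six.r11, Six.r22, Six.r33, Six.r12, Six.r13, Six.r23,
        Six.r01, Six.r02, Six.r03, Six.D]; ring
    · rw [t0, t1, t2, t3]; ring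
  · -- i j k l = 1 3 0 2
    refine key h.r02 h.r12 h.r01 h.r23 h.r03 h.r13 (√h.r11) (√h.r33) (√h.r00) (√h.r22)
      (edih v 4) (Real.cos (edih v 1)) (Real.cos (edih v 2)) (Real.cos (edih v 5))
      (Real.cos (edih v 0)) (Real.cos (edih v 3)) s1 s3 s0 s2 ?_
      q4 (sn 4) q1
      q2
      (by rw [q5]; congr 1; exact mul_comm _ _)
      (by rw [q0]; congr 1; exact mul_comm _ _)
      (by rw [q3]; congr 1; exact mul_comm _ _) ?_ ?_ rfl
    · rw [t0, t2]; exact p4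
    · rw [t1, t3]; simp only [Six.r11, Six.r22, Six.r33, Six.r12, Six.r13, Six.r23,
        Six.r01, Six.r02, Six.r03, Six.D]; ring
    · rw [t0, t1, t2, t3]; ring
  · -- i j k l = 2 3 0 1
    refine key h.r01 h.r12 h.r02 h.r13 h.r03 h.r23 (√h.r22) (√h.r33) (√h.r00) (√h.r11)
      (edih v 5) (Real.cos (edih v 0)) (Real.cos (edih v 2)) (Real.cos (edih v 4))
      (Real.cos (edih v 1)) (Real.cos (edih v 3)) s2 s3 s0 s1 ?_
      q5 (sn 5) q0
      (by rw [q2]; congr 1; exact mul_comm _ _)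
      (by rw [q4]; congr 1; exact mul_comm _ _)
      (by rw [q1]; congr 1; exact mul_comm _ _)
      (by rw [q3]; congr 1; exact mul_comm _ _) ?_ ?_ rfl
    · rw [t0, t1]; exact p5
    · rw [t2, t3]; simp only [Six.r11, Six.r22, Six.r33, Six.r12, Six.r13, Six.r23,
        Six.r01, Six.r02, Six.r03, Six.D]; ring
    · rw [t0, t1, t2, t3]

end

end Pool.Agent.TET
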