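import Mathlib

set_option autoImplicit false

namespace Pool.Agent.TET

open Real

/-- A sum of a root of unity and its inverse goes to a real number in `[-2, 2]` under every
complex embedding. -/
theorem emb_real {K : Type*} [Field K] (z : K) {N : ℕ} (hN : 0 < N) (hz : z ^ N = 1) (s : ℕ)
    (φ : K →+* ℂ) :
    ∃ t : ℝ, φ (z ^ s + z ^ (s * (N - 1))) = (t : ℂ) ∧ -2 ≤ t ∧ t ≤ 2 := by
  set y := φ z with hy
  have hyN : y ^ N = 1 := by rw [hy, ← map_pow, hz, map_one]
  have hn : ‖y‖ = 1 := Complex.norm_eq_one_of_pow_eq_one hyN hN.ne'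
  have hinv : y ^ (N - 1) = (starRingEnd ℂ) y := by
    have h1 : y * y ^ (N - 1) = 1 := by
      rw [← pow_succ', Nat.sub_add_cancel hN, hyN]
    have h2 : y * (starRingEnd ℂ) y = 1 := by
      rw [Complex.mul_conj, Complex.normSq_eq_norm_sq, hn]
      norm_num
    have hy0 : y ≠ 0 := by
      intro h
      rw [h] at hn
      simp at hn
    exact mul_left_cancel₀ hy0 (h1.trans h2.symm)
  refine ⟨2 * (y ^ s).re, ?_, ?_, ?_⟩
  · rw [map_add, map_pow φ z (s * (N - 1)), map_pow φ z s, mul_comm s, pow_mul, ← hy, hinv,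
      ← map_pow (starRingEnd ℂ), Complex.add_conj]
  · have := Complex.abs_re_le_norm (y ^ s)
    rw [norm_pow, hn, one_pow, abs_le] at this
    linarith [this.1]
  · have := Complex.abs_re_le_norm (y ^ s)
    rw [norm_pow, hn, one_pow, abs_le] at this
    linarith [this.2]

/-- The value in `ℂ` itself. -/
theorem exp_add {N : ℕ} (hN : 0 < N) (s : ℕ) :
    (Complex.exp (2 * π * Complex.I / N)) ^ s +
      (Complex.exp (2 * π * Complex.I / N)) ^ (s * (N - 1)) =
      ((2 * Real.cos (2 * π * s / N) : ℝ) : ℂ) := by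
  have hN' : (N : ℂ) ≠ 0 := by exact_mod_cast hN.ne'
  have h1 : (Complex.exp (2 * π * Complex.I / N)) ^ (s * (N - 1)) =
      Complex.exp (-(2 * π * s / N) * Complex.I) := by
    rw [← Complex.exp_nat_mul]
    have : ((s * (N - 1) : ℕ) : ℂ) * (2 * π * Complex.I / N) =
        -(2 * π * s / N) * Complex.I + (s : ℤ) * (2 * π * Complex.I) := by
      rw [Nat.cast_mul, Nat.cast_sub (by omega)]
      push_cast
      field_simp
      ring
    rw [this, Complex.exp_add, Complex.exp_int_mul_two_pi_mul_I, mul_one]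
  have h2 : (Complex.exp (2 * π * Complex.I / N)) ^ s =
      Complex.exp ((2 * π * s / N) * Complex.I) := by
    rw [← Complex.exp_nat_mul]
    congr 1
    field_simp
  rw [h1, h2]
  push_cast
  rw [Complex.cos]
  ring

/-- Kronecker for two numbers `2 cos`: an integer combination `G` of them whose conjugates have
absolute value at most one is `1` as soon as it is positive. -/
theorem kron {N : ℕ} (hN : 0 < N) (r s : ℕ) (x y : ℝ) (hx : x = 2 * Real.cos (2 * π * r / N))
    (hy : y = 2 * Real.cos (2 * π * s / N)) (G L : MvPolynomial (Fin 2) ℤ)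
    (hL : MvPolynomial.aeval ![x, y] L = 0)
    (hG : ∀ t : Fin 2 → ℝ, (∀ i, -2 ≤ t i ∧ t i ≤ 2) → MvPolynomial.aeval t L = 0 →
      |MvPolynomial.aeval t G| ≤ 1)
    (hpos : 0 < MvPolynomial.aeval ![x, y] G) :
    MvPolynomial.aeval ![x, y] G = 1 := by
  set ζ : ℂ := Complex.exp (2 * π * Complex.I / N) with hζ
  have hζN : ζ ^ N = 1 := by
    rw [hζ, ← Complex.exp_nat_mul]
    have hN' : (N : ℂ) ≠ 0 := by exact_mod_cast hN.ne'
    rw [mul_div_cancel₀ _ hN', Complex.exp_two_pi_mul_I]
  have hζi : IsIntegral ℤ ζ := by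
    refine IsIntegral.of_pow hN ?_
    rw [hζN]
    exact isIntegral_one
  let K := IntermediateField.adjoin ℚ {ζ}
  let inst : NumberField K := {
    to_charZero := (IntermediateField.adjoin ℚ {ζ}).charZero,
    to_finiteDimensional := IntermediateField.adjoin.finiteDimensional hζi.tower_top }
  let z : K := ⟨ζ, IntermediateField.mem_adjoin_simple_self ℚ ζ⟩
  have hzN : z ^ N = 1 := by
    apply Subtype.ext
    simp only [z]
    push_cast
    exact hζN
  have hzi : IsIntegral ℤ z := by
    refine IsIntegral.of_pow hN ?_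
    rw [hzN]
    exact isIntegral_one
  let w : Fin 2 → K := ![z ^ r + z ^ (r * (N - 1)), z ^ s + z ^ (s * (N - 1))]
  have hwi : ∀ i, IsIntegral ℤ (w i) := by
    intro i
    fin_cases i
    · exact (hzi.pow _).add (hzi.pow _)
    · exact (hzi.pow _).add (hzi.pow _)
  have hcoe : ∀ i, ((w i : K) : ℂ) = ((![x, y] i : ℝ) : ℂ) := by
    intro i
    fin_cases i
    · show ((z ^ r + z ^ (r * (N - 1)) : K) : ℂ) = ((x : ℝ) : ℂ)
      rw [hx, ← exp_add hN r]
      rfl
    · show ((z ^ s + z ^ (s * (N - 1)) : K) : ℂ) = ((y : ℝ) : ℂ)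
      rw [hy, ← exp_add hN s]
      rfl
  -- evaluation goes through ring homomorphisms
  have hev : ∀ (P : MvPolynomial (Fin 2) ℤ) (φ : K →+* ℂ) (t : Fin 2 → ℝ),
      (∀ i, φ (w i) = ((t i : ℝ) : ℂ)) →
      φ (MvPolynomial.aeval w P) = ((MvPolynomial.aeval t P : ℝ) : ℂ) := by
    intro P φ t ht
    have h1 : φ (MvPolynomial.aeval w P) = MvPolynomial.aeval (fun i => φ (w i)) P := by
      rw [MvPolynomial.aeval_def, MvPolynomial.aeval_def, MvPolynomial.hom_eval₂]
      congr 1
      exact RingHom.ext_int _ _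
    have h2 : ((MvPolynomial.aeval t P : ℝ) : ℂ) =
        MvPolynomial.aeval (fun i => ((t i : ℝ) : ℂ)) P := by
      rw [MvPolynomial.aeval_def, MvPolynomial.aeval_def]
      rw [show ((MvPolynomial.eval₂ (algebraMap ℤ ℝ) t P : ℝ) : ℂ) =
        Complex.ofRealHom (MvPolynomial.eval₂ (algebraMap ℤ ℝ) t P) from rfl,
        MvPolynomial.hom_eval₂]
      congr 1
    rw [h1, h2]
    have h3 : (fun i => φ (w i)) = fun i => ((t i : ℝ) : ℂ) := funext ht
    rw [h3]
  let ι : K →+* ℂ := algebraMap K ℂ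
  have hLK : MvPolynomial.aeval w L = 0 := by
    have := hev L ι ![x, y] hcoe
    rw [hL, Complex.ofReal_zero] at this
    exact (map_eq_zero_iff ι ι.injective).1 this
  have hG0 : MvPolynomial.aeval w G ≠ 0 := by
    intro h
    have := hev G ι ![x, y] hcoe
    rw [h, map_zero] at this
    have h2 : MvPolynomial.aeval ![x, y] G = 0 := by exact_mod_cast this.symm
    exact hpos.ne' h2
  have hGi : IsIntegral ℤ (MvPolynomial.aeval w G) := by
    have h1 : MvPolynomial.aeval w G ∈ integralClosure ℤ K := by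
      have : MvPolynomial.aeval w G = ((MvPolynomial.aeval
          (fun i => (⟨w i, hwi i⟩ : integralClosure ℤ K)) G : integralClosure ℤ K) : K) := by
        have := MvPolynomial.comp_aeval (R := ℤ)
          (fun i => (⟨w i, hwi i⟩ : integralClosure ℤ K)) (integralClosure ℤ K).val
        have h3 := congrArg (fun f => f G) this
        exact h3.symm
      rw [this]
      exact Subtype.coe_prop _
    exact h1
  obtain ⟨n, hn, hpow⟩ := NumberField.Embeddings.pow_eq_one_of_norm_le_one K ℂ hG0 hGi (by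
    intro φ
    have h1 : ∀ i, ∃ t : ℝ, φ (w i) = (t : ℂ) ∧ -2 ≤ t ∧ t ≤ 2 := by
      intro i
      fin_cases i
      · exact emb_real z hN hzN r φ
      · exact emb_real z hN hzN s φ
    choose t ht using h1
    have h2 := hev L φ t (fun i => (ht i).1)
    rw [hLK, map_zero] at h2
    have h3 : MvPolynomial.aeval t L = 0 := by exact_mod_cast h2.symm
    rw [hev G φ t (fun i => (ht i).1), Complex.norm_real]
    exact hG t (fun i => (ht i).2) h3)
  have h4 := hev G ι ![x, y] hcoe
  have h5 : ((MvPolynomial.aeval ![x, y] G : ℝ) : ℂ) ^ n = 1 := by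
    rw [← h4, ← map_pow, hpow, map_one]
  have h6 : (MvPolynomial.aeval ![x, y] G : ℝ) ^ n = 1 := by exact_mod_cast h5
  exact (pow_eq_one_iff_of_nonneg hpos.le hn.ne').1 h6

end Pool.Agent.TET
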