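import Pool.Agent.TET.Sym1

set_option autoImplicit false

namespace Pool.Agent.TET

open Real

/-- Class A, commensurable angles. -/
theorem kronA {N : ℕ} (hN : 0 < N) (r s : ℕ) {α β : ℝ} (hα : α = 2 * π * r / N)
    (hβ : β = 2 * π * s / N) (h : Real.cos α = 1 - 2 * Real.cos β) (h0 : 0 < Real.cos β)
    (h1 : Real.cos β < 1) : Real.cos β = 1 / 2 := by
  have hk := kron hN s r (2 * Real.cos β) (2 * Real.cos α) (by rw [hβ]) (by rw [hα])
    (MvPolynomial.X 0 * (2 - MvPolynomial.X 0))
    (MvPolynomial.X 1 + 2 * MvPolynomial.X 0 - 2)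
    (by
      simp only [map_sub, map_add, map_mul, MvPolynomial.aeval_X, map_ofNat, Matrix.cons_val_zero,
        Matrix.cons_val_one]
      linarith)
    (by
      intro t ht hL
      simp only [map_sub, map_add, map_mul, MvPolynomial.aeval_X, map_ofNat] at hL ⊢
      have h0 := ht 0
      have h1 := ht 1
      rw [abs_le]
      constructor
      · nlinarith [mul_nonneg (show 0 ≤ t 0 by linarith [h1.2]) (show 0 ≤ 2 - t 0 by linarith)]
      · nlinarith [sq_nonneg (t 0 - 1)])
    (by
      simp only [map_sub, map_mul, MvPolynomial.aeval_X, map_ofNat, Matrix.cons_val_zero]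
      nlinarith)
  simp only [map_sub, map_mul, MvPolynomial.aeval_X, map_ofNat, Matrix.cons_val_zero] at hk
  have : (2 * Real.cos β - 1) ^ 2 = 0 := by nlinarith
  have := pow_eq_zero_iff (two_ne_zero) |>.1 this
  linarith

/-- Class B, commensurable angles. -/
theorem kronB {N : ℕ} (hN : 0 < N) (r s : ℕ) {α β y : ℝ} (hα : α = 2 * π * r / N)
    (hβ : β = 2 * π * s / N) (hy : 0 < y) (hy3 : y < 3) (h : Real.cos β = (1 - y) / 2)
    (h2 : Real.cos α ^ 2 = y / 3) : False := by
  have hc2 : Real.cos (2 * α) = 2 * (y / 3) - 1 := by rw [Real.cos_two_mul, h2]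
  have hk := kron hN s (2 * r) (2 * Real.cos β) (2 * Real.cos (2 * α)) (by rw [hβ])
    (by rw [hα]; push_cast; ring_nf)
    (MvPolynomial.X 0 + MvPolynomial.X 1 + 1)
    (3 * MvPolynomial.X 1 + 4 * MvPolynomial.X 0 + 2)
    (by
      simp only [map_add, map_mul, MvPolynomial.aeval_X, map_ofNat, Matrix.cons_val_zero,
        Matrix.cons_val_one]
      rw [hc2, h]
      ring)
    (by
      intro t ht hL
      simp only [map_add, map_mul, MvPolynomial.aeval_X, map_ofNat, map_one] at hL ⊢
      have h0 := ht 0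
      have h1 := ht 1
      rw [abs_le]
      constructor <;> linarith)
    (by
      simp only [map_add, MvPolynomial.aeval_X, map_one, Matrix.cons_val_zero,
        Matrix.cons_val_one]
      rw [hc2, h]
      linarith)
  simp only [map_add, MvPolynomial.aeval_X, map_one, Matrix.cons_val_zero,
    Matrix.cons_val_one] at hk
  rw [hc2, h] at hk
  linarith

/-- Two independent relations make the angles commensurable with `π`. -/
theorem rat_of_two {α β : ℝ} (hα : 0 < α) (hβ : 0 < β) {P Q P' Q' : ℕ}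
    (h1 : P * α + Q * β = 2 * π) (h2 : P' * α + Q' * β = 2 * π) (hne : P * Q' ≠ P' * Q) :
    ∃ N r s : ℕ, 0 < N ∧ α = 2 * π * r / N ∧ β = 2 * π * s / N := by
  wlog hlt : P' * Q < P * Q' generalizing P Q P' Q'
  · exact this h2 h1 hne.symm (lt_of_le_of_ne (not_lt.1 hlt) hne)
  have hdR : ((P' * Q : ℕ) : ℝ) < ((P * Q' : ℕ) : ℝ) := by exact_mod_cast hlt
  push_cast at hdR
  have hD : (0 : ℝ) < P * Q' - P' * Q := by linarith
  have ea : α * (P * Q' - P' * Q) = 2 * π * (Q' - Q) := by
    linear_combination (Q' : ℝ) * h1 - (Q : ℝ) * h2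
  have eb : β * (P * Q' - P' * Q) = 2 * π * (P - P') := by
    linear_combination (P : ℝ) * h2 - (P' : ℝ) * h1
  have hQ : Q ≤ Q' := by
    by_contra hcon
    push Not at hcon
    have : (Q' : ℝ) < Q := by exact_mod_cast hcon
    have h3 : 0 < α * (P * Q' - P' * Q) := mul_pos hα hD
    rw [ea] at h3
    nlinarith [Real.pi_pos]
  have hP : P' ≤ P := by
    by_contra hcon
    push Not at hcon
    have : (P : ℝ) < P' := by exact_mod_cast hcon
    have h3 : 0 < β * (P * Q' - P' * Q) := mul_pos hβ hD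
    rw [eb] at h3
    nlinarith [Real.pi_pos]
  refine ⟨P * Q' - P' * Q, Q' - Q, P - P', by omega, ?_, ?_⟩
  · rw [Nat.cast_sub hlt.le, Nat.cast_sub hQ, eq_div_iff (by push_cast; exact hD.ne')]
    push_cast
    exact ea
  · rw [Nat.cast_sub hlt.le, Nat.cast_sub hP, eq_div_iff (by push_cast; exact hD.ne')]
    push_cast
    exact eb

/-- A cone relation in the plane: all the types are proportional to each other, and then to the
target, or two of them are independent. -/
theorem prop_or_two {k : ℕ} (m : Fin k → ℕ × ℕ) (c : Fin k → ℝ) {A B : ℝ} (hA : 0 < A)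
    (hcA : ∑ i, c i * (m i).1 = A) (hcB : ∑ i, c i * (m i).2 = B) :
    (∃ i j, (m i).1 * (m j).2 ≠ (m j).1 * (m i).2) ∨
      ∃ i, A * (m i).2 = B * (m i).1 := by
  by_cases h : ∃ i j, (m i).1 * (m j).2 ≠ (m j).1 * (m i).2
  · exact Or.inl h
  · right
    push Not at h
    have hk : 0 < k := by
      by_contra hk
      have : k = 0 := by omega
      subst this
      simp at hcA
      linarith
    refine ⟨⟨0, hk⟩, ?_⟩
    rw [← hcA, ← hcB, Finset.sum_mul, Finset.sum_mul]
    refine Finset.sum_congr rfl fun i _ => ?_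
    have h1 := h i ⟨0, hk⟩
    have h2 : ((m i).1 : ℝ) * (m ⟨0, hk⟩).2 = (m ⟨0, hk⟩).1 * (m i).2 := by exact_mod_cast h1
    rw [mul_assoc, h2]
    ring

end Pool.Agent.TET
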