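import Pool.Agent.TET.Sym2

set_option autoImplicit false

namespace Pool.Agent.TET

open Real

/-- Chebyshev values by recursion. -/
def chT {R : Type*} [CommRing R] : ℕ → R → R
  | 0, _ => 1
  | 1, x => x
  | (n + 2), x => 2 * x * chT (n + 1) x - chT n x

theorem chT_cos (t : ℝ) : ∀ n : ℕ, chT n (Real.cos t) = Real.cos (n * t)
  | 0 => by simp [chT]
  | 1 => by simp [chT]
  | (n + 2) => by
    rw [chT, chT_cos t (n + 1), chT_cos t n]
    have h1 : ((n + 2 : ℕ) : ℝ) * t = ((n + 1 : ℕ) : ℝ) * t + t := by push_cast; ring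
    have h2 : (n : ℝ) * t = ((n + 1 : ℕ) : ℝ) * t - t := by push_cast; ring
    rw [h1, h2, Real.cos_add, Real.cos_sub]
    ring

theorem chT_cast (q : ℚ) : ∀ n : ℕ, ((chT n q : ℚ) : ℝ) = chT n (q : ℝ)
  | 0 => by simp [chT]
  | 1 => by simp [chT]
  | (n + 2) => by
    rw [chT, chT]
    push_cast
    rw [chT_cast q (n + 1), chT_cast q n]

/-- The finite check of class B. -/
def chkB (P Q : ℕ) : Bool :=
  P = Q || 3 * Q ^ 2 ≤ P ^ 2 ||
    (chT P (2 * ((P : ℚ) ^ 2 / (4 * Q ^ 2 - P ^ 2)) / 3 - 1) !=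
      chT (2 * Q) ((1 - (P : ℚ) ^ 2 / (4 * Q ^ 2 - P ^ 2)) / 2))

theorem chkB_all : ∀ Q ∈ Finset.Icc 1 5, ∀ P ∈ Finset.Icc 1 8, chkB P Q = true := by
  decide +kernel

theorem chk_reg : ∀ P ∈ Finset.Icc 1 5, (chT P (1 / 3 : ℚ) != -1) = true := by
  decide +kernel

/-- Class A, one relation. -/
theorem one_A {α β x : ℝ} {P Q : ℕ} (hP : 0 < P) (hPQ : 2 * P ^ 2 < Q ^ 2)
    (hx : x * (Q ^ 2 - P ^ 2) = P ^ 2) (hα : 0 < α) (hα' : α < π) (hβ : 0 < β) (hβ' : β < π)
    (hcβ : Real.cos β = x) (hcα : Real.cos α = 1 - 2 * x) (h : P * α + Q * β = 2 * π) :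
    False := by
  have hPQR : 2 * (P : ℝ) ^ 2 < (Q : ℝ) ^ 2 := by exact_mod_cast hPQ
  have hPR : (1 : ℝ) ≤ P := by exact_mod_cast hP
  have hd : 0 < (Q : ℝ) ^ 2 - P ^ 2 := by nlinarith
  have hx0 : 0 < x := by
    by_contra hcon
    push Not at hcon
    nlinarith [mul_nonneg (neg_nonneg.2 hcon) hd.le]
  have hx1 : x < 1 := by
    by_contra hcon
    push Not at hcon
    nlinarith [mul_nonneg (sub_nonneg.2 hcon) hd.le]
  have hβ2 : β < π / 2 := by
    by_contra hcon
    push Not at hcon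
    have := Real.cos_nonpos_of_pi_div_two_le_of_le hcon (by linarith)
    linarith
  have hsum : π < α + 2 * β := by
    by_contra hcon
    push Not at hcon
    have h1 : Real.cos (π - 2 * β) ≤ Real.cos α :=
      Real.cos_le_cos_of_nonneg_of_le_pi hα.le (by linarith) (by linarith)
    rw [Real.cos_pi_sub, Real.cos_two_mul, hcβ, hcα] at h1
    nlinarith
  have hcos : Real.cos (P * α) = Real.cos (Q * β) := by
    rw [show (P : ℝ) * α = 2 * π - Q * β by linarith, Real.cos_two_pi_sub]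
  rw [← chT_cos, ← chT_cos, hcα, hcβ] at hcos
  rcases le_or_gt (2 * P) Q with hc | hc
  · have hcR : 2 * (P : ℝ) ≤ Q := by exact_mod_cast hc
    have hP1 : P = 1 := by
      by_contra hne
      have : 2 ≤ P := by omega
      have h2 : (2 : ℝ) ≤ P := by exact_mod_cast this
      have h3 : (P : ℝ) * (α + 2 * β) ≤ 2 * π := by nlinarith
      nlinarith
    subst hP1
    have hQ5 : Q ≤ 5 := by
      by_contra hcon
      push Not at hcon
      have h6 : (6 : ℝ) ≤ Q := by exact_mod_cast hcon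
      have hx2 : x < 1 / 2 := by
        by_contra hcon2
        push Not at hcon2
        push_cast at hx
        nlinarith
      have : π / 3 < β := by
        by_contra hcon3
        push Not at hcon3
        have := Real.cos_le_cos_of_nonneg_of_le_pi hβ.le (by linarith [Real.pi_pos]) hcon3
        rw [Real.cos_pi_div_three, hcβ] at this
        linarith
      push_cast at h
      nlinarith
    have hQ2 : 2 ≤ Q := by omega
    interval_cases Q
    · have hxx : x = 1 / 3 := by push_cast at hx; linarith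
      rw [hxx] at hcos
      norm_num [chT] at hcos
    · have hxx : x = 1 / 8 := by push_cast at hx; linarith
      rw [hxx] at hcos
      norm_num [chT] at hcos
    · have hxx : x = 1 / 15 := by push_cast at hx; linarith
      rw [hxx] at hcos
      norm_num [chT] at hcos
    · have hxx : x = 1 / 24 := by push_cast at hx; linarith
      rw [hxx] at hcos
      norm_num [chT] at hcos
  · have hcR : (Q : ℝ) + 1 ≤ 2 * P := by exact_mod_cast hc
    have hQ4 : Q < 4 := by
      by_contra hcon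
      push Not at hcon
      have h4 : (4 : ℝ) ≤ Q := by exact_mod_cast hcon
      have h5 : (2 * (P : ℝ) - Q) * β < (2 * P - Q) * (π / 2) :=
        mul_lt_mul_of_pos_left hβ2 (by linarith)
      nlinarith [mul_pos (show (0 : ℝ) < P by linarith) (sub_pos.2 hsum), Real.pi_pos]
    have hP2 : P ≤ 2 := by
      by_contra hcon
      push Not at hcon
      have h9 : P ^ 2 ≥ 9 := by nlinarith
      have h10 : Q ^ 2 ≤ 9 := by nlinarith
      omega
    interval_cases P
    · have : Q ≤ 1 := by omega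
      interval_cases Q <;> simp at hPQ
    · have hQ3 : Q = 3 := by
        interval_cases Q <;> simp_all
      subst hQ3
      have hxx : x = 4 / 5 := by push_cast at hx; linarith
      rw [hxx] at hcos
      norm_num [chT] at hcos

/-- Class B, one relation. -/
theorem one_B {α β y : ℝ} {P Q : ℕ} (hP : 0 < P) (hQ : 0 < Q) (hPQ : P ^ 2 < 3 * Q ^ 2)
    (hy : y * (4 * Q ^ 2 - P ^ 2) = P ^ 2) (hα : 0 < α) (hα' : α < π) (hβ : 0 < β) (hβ' : β < π)
    (hcβ : Real.cos β = (1 - y) / 2) (hcα : Real.cos α ^ 2 = y / 3) (hca : 0 < Real.cos α)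
    (h : P * α + Q * β = 2 * π) : False := by
  have hPQR : (P : ℝ) ^ 2 < 3 * (Q : ℝ) ^ 2 := by exact_mod_cast hPQ
  have hPR : (1 : ℝ) ≤ P := by exact_mod_cast hP
  have hQR : (1 : ℝ) ≤ Q := by exact_mod_cast hQ
  have hd : 0 < 4 * (Q : ℝ) ^ 2 - P ^ 2 := by nlinarith
  have hy0 : 0 < y := by
    by_contra hcon
    push Not at hcon
    nlinarith [mul_nonneg (neg_nonneg.2 hcon) hd.le]
  have hb3 : π / 3 < β := by
    by_contra hcon3
    push Not at hcon3
    have := Real.cos_le_cos_of_nonneg_of_le_pi hβ.le (by linarith [Real.pi_pos]) hcon3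
    rw [Real.cos_pi_div_three, hcβ] at this
    linarith
  have hQ5 : Q ≤ 5 := by
    by_contra hcon
    push Not at hcon
    have h6 : (6 : ℝ) ≤ Q := by exact_mod_cast hcon
    nlinarith [mul_pos (show (0 : ℝ) < P by linarith) hα]
  have hP8 : P ≤ 8 := by
    by_contra hcon
    push Not at hcon
    have : P ^ 2 ≥ 81 := by nlinarith
    have : Q ^ 2 ≤ 25 := by nlinarith
    omega
  have hyq : y = (((P : ℚ) ^ 2 / (4 * Q ^ 2 - P ^ 2) : ℚ) : ℝ) := by
    push_cast
    rw [eq_div_iff hd.ne']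
    exact hy
  rcases eq_or_ne P Q with hpq | hpq
  · subst hpq
    have hy13 : y = 1 / 3 := by
      have : (P : ℝ) ^ 2 * (3 * y - 1) = 0 := by linarith
      rcases mul_eq_zero.1 this with h0 | h0
      · have : 0 < (P : ℝ) ^ 2 := by positivity
        linarith
      · linarith
    have hc1 : Real.cos α = 1 / 3 := by
      rw [hy13] at hcα
      have : (Real.cos α - 1 / 3) * (Real.cos α + 1 / 3) = 0 := by nlinarith
      rcases mul_eq_zero.1 this with h0 | h0 <;> linarith
    have hc2 : Real.cos β = 1 / 3 := by rw [hcβ, hy13]; norm_num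
    have hab : α = β := Real.injOn_cos ⟨hα.le, hα'.le⟩ ⟨hβ.le, hβ'.le⟩ (hc1.trans hc2.symm)
    have h5 : (P : ℝ) * β = π := by rw [hab] at h; linarith
    have h6 := chT_cos β P
    rw [h5, Real.cos_pi, hc2] at h6
    have h7 := chk_reg P (Finset.mem_Icc.2 ⟨hP, hQ5⟩)
    have h8 : ((chT P (1 / 3 : ℚ) : ℚ) : ℝ) = ((-1 : ℚ) : ℝ) := by
      rw [chT_cast]
      push_cast
      exact h6
    have h9 : chT P (1 / 3 : ℚ) = -1 := by exact_mod_cast h8
    rw [h9] at h7
    simp at h7
  · have h1 := chkB_all Q (Finset.mem_Icc.2 ⟨hQ, hQ5⟩) P (Finset.mem_Icc.2 ⟨hP, hP8⟩)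
    unfold chkB at h1
    rw [Bool.or_eq_true, Bool.or_eq_true] at h1
    have h2 : chT P (Real.cos (2 * α)) = chT (2 * Q) (Real.cos β) := by
      rw [chT_cos, chT_cos]
      rw [show (P : ℝ) * (2 * α) = 2 * π + 2 * π - ((2 * Q : ℕ) : ℝ) * β by push_cast; linarith,
        add_sub_assoc, add_comm (2 * π), Real.cos_add_two_pi, Real.cos_two_pi_sub]
    rw [Real.cos_two_mul, hcα, hcβ] at h2
    rcases h1 with (h1 | h1) | h1
    · exact hpq (by simpa using h1)
    · have : 3 * Q ^ 2 ≤ P ^ 2 := by simpa using h1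
      omega
    · rw [bne_iff_ne] at h1
      apply h1
      have h3 : ((chT P (2 * ((P : ℚ) ^ 2 / (4 * Q ^ 2 - P ^ 2)) / 3 - 1) : ℚ) : ℝ) =
          ((chT (2 * Q) ((1 - (P : ℚ) ^ 2 / (4 * Q ^ 2 - P ^ 2)) / 2) : ℚ) : ℝ) := by
        rw [chT_cast, chT_cast]
        rw [hyq] at h2
        push_cast at h2 ⊢
        convert h2 using 2
        ring
      exact_mod_cast h3

end Pool.Agent.TET
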