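import Pool.Agent.TET.Sym3
import Pool.Agent.TET.Shape4

set_option autoImplicit false

namespace Pool.Agent.TET

open InnerProductGeometry Real
open scoped RealInnerProductSpace

section
variable {V : Type*} [NormedAddCommGroup V] [InnerProductSpace ℝ V]

/-- The six inner products from the lengths. -/
theorem six_len (v : Fin 4 → V) :
    (six v).a = elen v 0 ^ 2 ∧ (six v).b = elen v 1 ^ 2 ∧ (six v).c = elen v 2 ^ 2 ∧
    (six v).d = (elen v 1 ^ 2 + elen v 2 ^ 2 - elen v 5 ^ 2) / 2 ∧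
    (six v).e = (elen v 0 ^ 2 + elen v 2 ^ 2 - elen v 4 ^ 2) / 2 ∧
    (six v).f = (elen v 0 ^ 2 + elen v 1 ^ 2 - elen v 3 ^ 2) / 2 := by
  obtain ⟨a1, ha1⟩ : ∃ a1, v 1 = v 0 + a1 := ⟨v 1 - v 0, by abel⟩
  obtain ⟨a2, ha2⟩ : ∃ a2, v 2 = v 0 + a2 := ⟨v 2 - v 0, by abel⟩
  obtain ⟨a3, ha3⟩ : ∃ a3, v 3 = v 0 + a3 := ⟨v 3 - v 0, by abel⟩
  have f21 : (⟪a2, a1⟫ : ℝ) = ⟪a1, a2⟫ := real_inner_comm _ _
  have f31 : (⟪a3, a1⟫ : ℝ) = ⟪a1, a3⟫ := real_inner_comm _ _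
  have f32 : (⟪a3, a2⟫ : ℝ) = ⟪a2, a3⟫ := real_inner_comm _ _
  simp only [elen_sq, six, ei, ej, Matrix.cons_val, ha1, ha2, ha3, add_sub_cancel_left,
    add_sub_add_left_eq_sub, inner_sub_left, inner_sub_right, f21, f31, f32]
  refine ⟨trivial, trivial, trivial, ?_, ?_, ?_⟩ <;> ring

theorem elen_pos (v : Fin 4 → V) (hv : AffineIndependent ℝ v) (e : Fin 6) : 0 < elen v e := by
  unfold elen
  refine dist_pos.2 (hv.injective.ne ?_)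
  fin_cases e <;> decide

/-- Class A: the angles. -/
theorem dataA (v : Fin 4 → V) (hv : AffineIndependent ℝ v) {a b : ℝ} (h0 : elen v 0 = b)
    (h1 : elen v 1 = a) (h2 : elen v 2 = b) (h3 : elen v 3 = b) (h4 : elen v 4 = a)
    (h5 : elen v 5 = b) :
    0 < a ∧ 0 < b ∧ a ^ 2 < 2 * b ^ 2 ∧ ∃ x, x * (4 * b ^ 2 - a ^ 2) = a ^ 2 ∧
      (∀ e, e = 0 ∨ e = 2 ∨ e = 3 ∨ e = 5 → Real.cos (edih v e) = x) ∧
      (∀ e, e = 1 ∨ e = 4 → Real.cos (edih v e) = 1 - 2 * x) := by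
  have ha : 0 < a := h1 ▸ elen_pos v hv 1
  have hb : 0 < b := h0 ▸ elen_pos v hv 0
  have hD := D_pos v hv
  obtain ⟨⟨-, q0⟩, ⟨-, q1⟩, ⟨-, q2⟩, ⟨-, q3⟩, ⟨-, q4⟩, ⟨-, q5⟩⟩ := edges v hv.injective
  obtain ⟨s1, s2, s3, s4, s5, s6⟩ := six_len v
  rw [h0] at s1
  rw [h1] at s2
  rw [h2] at s3
  rw [h1, h2, h5] at s4
  rw [h0, h2, h4] at s5
  rw [h0, h1, h3] at s6
  have hDv : (six v).D = a ^ 4 * (2 * b ^ 2 - a ^ 2) / 2 := by
    unfold Six.D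
    rw [s1, s2, s3, s4, s5, s6]
    ring
  have hab : a ^ 2 < 2 * b ^ 2 := by
    by_contra hcon
    push Not at hcon
    rw [hDv] at hD
    have : 0 ≤ a ^ 4 * (a ^ 2 - 2 * b ^ 2) := by
      apply mul_nonneg (by positivity); linarith
    nlinarith
  have hden : 0 < 4 * b ^ 2 - a ^ 2 := by nlinarith [sq_nonneg b, pow_pos hb 2]
  have r11 : (six v).r11 = a ^ 2 * (4 * b ^ 2 - a ^ 2) / 4 := by
    unfold Six.r11; rw [s2, s3, s4]; ring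
  have r22 : (six v).r22 = a ^ 2 * (4 * b ^ 2 - a ^ 2) / 4 := by
    unfold Six.r22; rw [s1, s3, s5]; ring
  have r33 : (six v).r33 = a ^ 2 * (4 * b ^ 2 - a ^ 2) / 4 := by
    unfold Six.r33; rw [s1, s2, s6]; ring
  have r12 : (six v).r12 = -(a ^ 4 / 4) := by
    unfold Six.r12; rw [s3, s4, s5, s6]; ring
  have r13 : (six v).r13 = -(a ^ 2 * (4 * b ^ 2 - 3 * a ^ 2) / 4) := by
    unfold Six.r13; rw [s2, s4, s5, s6]; ring
  have r23 : (six v).r23 = -(a ^ 4 / 4) := by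
    unfold Six.r23; rw [s1, s4, s5, s6]; ring
  have r01 : (six v).r01 = -(a ^ 4 / 4) := by
    unfold Six.r01; rw [r11, r12, r13]; ring
  have r02 : (six v).r02 = -(a ^ 2 * (4 * b ^ 2 - 3 * a ^ 2) / 4) := by
    unfold Six.r02; rw [r12, r22, r23]; ring
  have r03 : (six v).r03 = -(a ^ 4 / 4) := by
    unfold Six.r03; rw [r13, r23, r33]; ring
  have r00 : (six v).r00 = a ^ 2 * (4 * b ^ 2 - a ^ 2) / 4 := by
    unfold Six.r00; rw [r01, r02, r03]; ring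
  have hR : 0 < a ^ 2 * (4 * b ^ 2 - a ^ 2) / 4 := by positivity
  have hS : √(a ^ 2 * (4 * b ^ 2 - a ^ 2) / 4) * √(a ^ 2 * (4 * b ^ 2 - a ^ 2) / 4) =
      a ^ 2 * (4 * b ^ 2 - a ^ 2) / 4 := Real.mul_self_sqrt hR.le
  have hn := hden.ne'
  have ha' := ha.ne'
  refine ⟨ha, hb, hab, a ^ 2 / (4 * b ^ 2 - a ^ 2), by field_simp, ?_, ?_⟩
  · rintro e (rfl | rfl | rfl | rfl)
    · rw [q0, r23, r22, r33, hS]; field_simp
    · rw [q2, r12, r11, r22, hS]; field_simp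
    · rw [q3, r03, r00, r33, hS]; field_simp
    · rw [q5, r01, r00, r11, hS]; field_simp
  · rintro e (rfl | rfl)
    · rw [q1, r13, r11, r33, hS]; field_simp; ring
    · rw [q4, r02, r00, r22, hS]; field_simp; ring

/-- Class B: the angles. -/
theorem dataB (v : Fin 4 → V) (hv : AffineIndependent ℝ v) {a b : ℝ} (h0 : elen v 0 = b)
    (h1 : elen v 1 = b) (h2 : elen v 2 = b) (h3 : elen v 3 = a) (h4 : elen v 4 = a)
    (h5 : elen v 5 = a) :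
    0 < a ∧ 0 < b ∧ a ^ 2 < 3 * b ^ 2 ∧ ∃ y, y * (4 * b ^ 2 - a ^ 2) = a ^ 2 ∧
      (∀ e, e = 0 ∨ e = 1 ∨ e = 2 → Real.cos (edih v e) = (1 - y) / 2) ∧
      (∀ e, e = 3 ∨ e = 4 ∨ e = 5 → Real.cos (edih v e) ^ 2 = y / 3 ∧
        0 < Real.cos (edih v e) ∧ Real.cos (edih v e) = Real.cos (edih v 3)) := by
  have ha : 0 < a := h3 ▸ elen_pos v hv 3
  have hb : 0 < b := h0 ▸ elen_pos v hv 0
  have hD := D_pos v hv
  obtain ⟨⟨-, q0⟩, ⟨-, q1⟩, ⟨-, q2⟩, ⟨-, q3⟩, ⟨-, q4⟩, ⟨-, q5⟩⟩ := edges v hv.injective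
  obtain ⟨s1, s2, s3, s4, s5, s6⟩ := six_len v
  rw [h0] at s1
  rw [h1] at s2
  rw [h2] at s3
  rw [h1, h2, h5] at s4
  rw [h0, h2, h4] at s5
  rw [h0, h1, h3] at s6
  have hDv : (six v).D = a ^ 4 * (3 * b ^ 2 - a ^ 2) / 4 := by
    unfold Six.D
    rw [s1, s2, s3, s4, s5, s6]
    ring
  have hab : a ^ 2 < 3 * b ^ 2 := by
    by_contra hcon
    push Not at hcon
    rw [hDv] at hD
    have : 0 ≤ a ^ 4 * (a ^ 2 - 3 * b ^ 2) := by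
      apply mul_nonneg (by positivity); linarith
    nlinarith
  have hden : 0 < 4 * b ^ 2 - a ^ 2 := by nlinarith [sq_nonneg b, pow_pos hb 2]
  have r11 : (six v).r11 = a ^ 2 * (4 * b ^ 2 - a ^ 2) / 4 := by
    unfold Six.r11; rw [s2, s3, s4]; ring
  have r22 : (six v).r22 = a ^ 2 * (4 * b ^ 2 - a ^ 2) / 4 := by
    unfold Six.r22; rw [s1, s3, s5]; ring
  have r33 : (six v).r33 = a ^ 2 * (4 * b ^ 2 - a ^ 2) / 4 := by
    unfold Six.r33; rw [s1, s2, s6]; ring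
  have r12 : (six v).r12 = -(a ^ 2 * (2 * b ^ 2 - a ^ 2) / 4) := by
    unfold Six.r12; rw [s3, s4, s5, s6]; ring
  have r13 : (six v).r13 = -(a ^ 2 * (2 * b ^ 2 - a ^ 2) / 4) := by
    unfold Six.r13; rw [s2, s4, s5, s6]; ring
  have r23 : (six v).r23 = -(a ^ 2 * (2 * b ^ 2 - a ^ 2) / 4) := by
    unfold Six.r23; rw [s1, s4, s5, s6]; ring
  have r01 : (six v).r01 = -(a ^ 4 / 4) := by
    unfold Six.r01; rw [r11, r12, r13]; ring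
  have r02 : (six v).r02 = -(a ^ 4 / 4) := by
    unfold Six.r02; rw [r12, r22, r23]; ring
  have r03 : (six v).r03 = -(a ^ 4 / 4) := by
    unfold Six.r03; rw [r13, r23, r33]; ring
  have r00 : (six v).r00 = 3 * a ^ 4 / 4 := by
    unfold Six.r00; rw [r01, r02, r03]; ring
  have hR : 0 < a ^ 2 * (4 * b ^ 2 - a ^ 2) / 4 := by positivity
  have hR0 : 0 < 3 * a ^ 4 / 4 := by positivity
  have hS : √(a ^ 2 * (4 * b ^ 2 - a ^ 2) / 4) * √(a ^ 2 * (4 * b ^ 2 - a ^ 2) / 4) =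
      a ^ 2 * (4 * b ^ 2 - a ^ 2) / 4 := Real.mul_self_sqrt hR.le
  have hS0 : √(3 * a ^ 4 / 4) * √(3 * a ^ 4 / 4) = 3 * a ^ 4 / 4 := Real.mul_self_sqrt hR0.le
  have hn := hden.ne'
  have ha' := ha.ne'
  have hq : ∀ e, e = 3 ∨ e = 4 ∨ e = 5 → Real.cos (edih v e) =
      -(-(a ^ 4 / 4)) / (√(3 * a ^ 4 / 4) * √(a ^ 2 * (4 * b ^ 2 - a ^ 2) / 4)) := by
    rintro e (rfl | rfl | rfl)
    · rw [q3, r03, r00, r33]
    · rw [q4, r02, r00, r22]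
    · rw [q5, r01, r00, r11]
  have hX : -(-(a ^ 2 * (2 * b ^ 2 - a ^ 2) / 4)) / (a ^ 2 * (4 * b ^ 2 - a ^ 2) / 4) =
      (1 - a ^ 2 / (4 * b ^ 2 - a ^ 2)) / 2 := by
    rw [eq_div_iff two_ne_zero, one_sub_div hn, div_mul_eq_mul_div, div_eq_div_iff hR.ne' hn]
    ring
  refine ⟨ha, hb, hab, a ^ 2 / (4 * b ^ 2 - a ^ 2), by field_simp, ?_, ?_⟩
  · rintro e (rfl | rfl | rfl)
    · rw [q0, r23, r22, r33, hS, hX]
    · rw [q1, r13, r11, r33, hS, hX]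
    · rw [q2, r12, r11, r22, hS, hX]
  · intro e he
    have p1 : 0 < √(3 * a ^ 4 / 4) := Real.sqrt_pos.2 hR0
    have p2 : 0 < √(a ^ 2 * (4 * b ^ 2 - a ^ 2) / 4) := Real.sqrt_pos.2 hR
    refine ⟨?_, ?_, ?_⟩
    · rw [hq e he, div_pow, mul_pow, sq (√(3 * a ^ 4 / 4)),
        sq (√(a ^ 2 * (4 * b ^ 2 - a ^ 2) / 4)), hS0, hS]
      field_simp
    · rw [hq e he, neg_neg]; positivity
    · rw [hq e he, hq 3 (Or.inl rfl)]

end

end Pool.Agent.TET
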