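import Pool.Agent.TET.Sym4
import Pool.Agent.TET.Dim

set_option autoImplicit false

namespace Pool.Agent.TET

open Real Pool.Agent.TetRel

/-- The cone condition. -/
def ConeCond (v : Fin 4 → E3) : Prop :=
  ∃ (k : ℕ) (n : Fin k → Fin 6 → ℕ) (c : Fin k → ℝ),
    (∀ i, ∑ e, (n i e : ℝ) * TetRel.dih v e = 2 * π) ∧ (∀ i, 0 < c i) ∧
      ∀ e, len v e = ∑ i, c i * (n i e : ℝ)

theorem dih_nonneg (v : Fin 4 → E3) (e : Fin 6) : 0 ≤ TetRel.dih v e :=
  InnerProductGeometry.angle_nonneg _ _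

theorem dih_le_pi (v : Fin 4 → E3) (e : Fin 6) : TetRel.dih v e ≤ π :=
  InnerProductGeometry.angle_le_pi _ _

theorem dih_eq_of_cos (v : Fin 4 → E3) {e f : Fin 6}
    (h : Real.cos (TetRel.dih v e) = Real.cos (TetRel.dih v f)) :
    TetRel.dih v e = TetRel.dih v f :=
  Real.injOn_cos ⟨dih_nonneg v e, dih_le_pi v e⟩ ⟨dih_nonneg v f, dih_le_pi v f⟩ h

theorem pos_of_cos {t : ℝ} (h0 : 0 ≤ t) (h : Real.cos t < 1) : 0 < t := by
  rcases h0.lt_or_eq with h1 | h1
  · exact h1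
  · rw [← h1, Real.cos_zero] at h
    exact absurd h (lt_irrefl _)

theorem lt_pi_of_cos {t : ℝ} (h0 : t ≤ π) (h : -1 < Real.cos t) : t < π := by
  rcases h0.lt_or_eq with h1 | h1
  · exact h1
  · rw [h1, Real.cos_pi] at h
    exact absurd h (lt_irrefl _)

/-- Class A: two opposite edges `a`, the other four `b`. -/
theorem classA (v : Fin 4 → E3) (hv : AffineIndependent ℝ v) (hc : ConeCond v) {a b : ℝ}
    (h0 : len v 0 = b) (h1 : len v 1 = a) (h2 : len v 2 = b) (h3 : len v 3 = b)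
    (h4 : len v 4 = a) (h5 : len v 5 = b) : 3 * a ^ 2 = 4 * b ^ 2 := by
  obtain ⟨ha, hb, hab, x, hx, hcb, hca⟩ := dataA v hv h0 h1 h2 h3 h4 h5
  obtain ⟨k, n, c, hn, hcpos, hlen⟩ := hc
  have hden : 0 < 4 * b ^ 2 - a ^ 2 := by nlinarith [pow_pos hb 2]
  have hx0 : 0 < x := by
    by_contra hcon
    push Not at hcon
    nlinarith [mul_nonneg (neg_nonneg.2 hcon) hden.le, pow_pos ha 2]
  have hx1 : x < 1 := by
    by_contra hcon
    push Not at hcon
    nlinarith [mul_nonneg (sub_nonneg.2 hcon) hden.le]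
  have cb : ∀ e, e = 0 ∨ e = 2 ∨ e = 3 ∨ e = 5 → Real.cos (TetRel.dih v e) = x := hcb
  have ca : ∀ e, e = 1 ∨ e = 4 → Real.cos (TetRel.dih v e) = 1 - 2 * x := hca
  set β := TetRel.dih v 0 with hβ
  set α := TetRel.dih v 1 with hα
  have e2 : TetRel.dih v 2 = β := dih_eq_of_cos v ((cb 2 (by simp)).trans (cb 0 (by simp)).symm)
  have e3 : TetRel.dih v 3 = β := dih_eq_of_cos v ((cb 3 (by simp)).trans (cb 0 (by simp)).symm)
  have e5 : TetRel.dih v 5 = β := dih_eq_of_cos v ((cb 5 (by simp)).trans (cb 0 (by simp)).symm)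
  have e4 : TetRel.dih v 4 = α := dih_eq_of_cos v ((ca 4 (by simp)).trans (ca 1 (by simp)).symm)
  have cβ : Real.cos β = x := cb 0 (by simp)
  have cα : Real.cos α = 1 - 2 * x := ca 1 (by simp)
  have pβ : 0 < β := pos_of_cos (dih_nonneg v 0) (by rw [cβ]; exact hx1)
  have qβ : β < π := lt_pi_of_cos (dih_le_pi v 0) (by rw [cβ]; linarith)
  have pα : 0 < α := pos_of_cos (dih_nonneg v 1) (by rw [cα]; linarith)
  have qα : α < π := lt_pi_of_cos (dih_le_pi v 1) (by rw [cα]; linarith)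
  let m : Fin k → ℕ × ℕ := fun i => (n i 1 + n i 4, n i 0 + n i 2 + n i 3 + n i 5)
  have hm : ∀ i, ((m i).1 : ℝ) * α + ((m i).2 : ℝ) * β = 2 * π := by
    intro i
    rw [← hn i, Fin.sum_univ_six, e2, e3, e4, e5]
    simp only [m]
    push_cast
    ring
  have hA : ∑ i, c i * ((m i).1 : ℝ) = 2 * a := by
    have : 2 * a = len v 1 + len v 4 := by rw [h1, h4]; ring
    rw [this, hlen 1, hlen 4, ← Finset.sum_add_distrib]
    refine Finset.sum_congr rfl fun i _ => ?_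
    simp only [m]
    push_cast
    ring
  have hB : ∑ i, c i * ((m i).2 : ℝ) = 4 * b := by
    have : 4 * b = len v 0 + len v 2 + len v 3 + len v 5 := by rw [h0, h2, h3, h5]; ring
    rw [this, hlen 0, hlen 2, hlen 3, hlen 5, ← Finset.sum_add_distrib,
      ← Finset.sum_add_distrib, ← Finset.sum_add_distrib]
    refine Finset.sum_congr rfl fun i _ => ?_
    simp only [m]
    push_cast
    ring
  rcases prop_or_two m c (show (0 : ℝ) < 2 * a by linarith) hA hB with ⟨i, j, hij⟩ | ⟨i, hi⟩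
  · obtain ⟨N, r, s, hN, hr, hs⟩ := rat_of_two pα pβ (hm i) (hm j) hij
    have h6 := kronA hN r s hr hs (by rw [cα, cβ]) (by rw [cβ]; exact hx0) (by rw [cβ]; exact hx1)
    rw [cβ] at h6
    rw [h6] at hx
    linarith
  · exfalso
    set P := (m i).1 with hP
    set Q := (m i).2 with hQ
    have hQP : a * Q = 2 * b * P := by linarith
    have hP0 : 0 < P := by
      rcases Nat.eq_zero_or_pos P with h | h
      · exfalso
        rw [h] at hQP
        have hQ0 : (Q : ℝ) = 0 := by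
          have : a * (Q : ℝ) = 0 := by simpa using hQP
          rcases mul_eq_zero.1 this with h6 | h6
          · exact absurd h6 ha.ne'
          · exact h6
        have h7 := hm i
        rw [← hP, ← hQ, h, hQ0] at h7
        simp at h7
      · exact h
    have hPR : (0 : ℝ) < P := by exact_mod_cast hP0
    have hsq : a ^ 2 * (Q : ℝ) ^ 2 = 4 * b ^ 2 * (P : ℝ) ^ 2 := by
      have : (a * (Q : ℝ)) ^ 2 = (2 * b * P) ^ 2 := by rw [hQP]
      nlinarith [this]
    have hPQ : 2 * P ^ 2 < Q ^ 2 := by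
      by_contra hcon
      push Not at hcon
      have h8 : (Q : ℝ) ^ 2 ≤ 2 * (P : ℝ) ^ 2 := by exact_mod_cast hcon
      have h9 : 0 < (Q : ℝ) ^ 2 := by
        have : 0 < a ^ 2 * (Q : ℝ) ^ 2 := by rw [hsq]; positivity
        exact (mul_pos_iff_of_pos_left (by positivity)).1 this
      have h10 : a ^ 2 * (Q : ℝ) ^ 2 < 2 * b ^ 2 * (Q : ℝ) ^ 2 := mul_lt_mul_of_pos_right hab h9
      have h11 : 2 * b ^ 2 * (Q : ℝ) ^ 2 ≤ 2 * b ^ 2 * (2 * (P : ℝ) ^ 2) :=
        mul_le_mul_of_nonneg_left h8 (by positivity)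
      linarith
    have hx' : x * ((Q : ℝ) ^ 2 - (P : ℝ) ^ 2) = (P : ℝ) ^ 2 := by
      have h12 : a ^ 2 * (x * ((Q : ℝ) ^ 2 - (P : ℝ) ^ 2)) = a ^ 2 * (P : ℝ) ^ 2 := by
        have : x * (a ^ 2 * (Q : ℝ) ^ 2 - a ^ 2 * (P : ℝ) ^ 2) = a ^ 2 * (P : ℝ) ^ 2 := by
          rw [hsq, ← sub_mul, ← mul_assoc, hx]
        linarith
      exact mul_left_cancel₀ (pow_pos ha 2).ne' h12
    exact one_A hP0 hPQ hx' pα qα pβ qβ cβ cα (hm i)

/-- Class B: three edges `b` at a corner, the other three `a`. -/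
theorem classB (v : Fin 4 → E3) (hv : AffineIndependent ℝ v) (hc : ConeCond v) {a b : ℝ}
    (h0 : len v 0 = b) (h1 : len v 1 = b) (h2 : len v 2 = b) (h3 : len v 3 = a)
    (h4 : len v 4 = a) (h5 : len v 5 = a) : False := by
  obtain ⟨ha, hb, hab, y, hy, hcb, hca⟩ := dataB v hv h0 h1 h2 h3 h4 h5
  obtain ⟨k, n, c, hn, hcpos, hlen⟩ := hc
  have hden : 0 < 4 * b ^ 2 - a ^ 2 := by nlinarith [pow_pos hb 2]
  have hy0 : 0 < y := by
    by_contra hcon
    push Not at hcon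
    nlinarith [mul_nonneg (neg_nonneg.2 hcon) hden.le, pow_pos ha 2]
  have hy3 : y < 3 := by
    by_contra hcon
    push Not at hcon
    nlinarith [mul_nonneg (sub_nonneg.2 hcon) hden.le]
  have cb : ∀ e, e = 0 ∨ e = 1 ∨ e = 2 → Real.cos (TetRel.dih v e) = (1 - y) / 2 := hcb
  have ca : ∀ e, e = 3 ∨ e = 4 ∨ e = 5 → Real.cos (TetRel.dih v e) ^ 2 = y / 3 ∧
        0 < Real.cos (TetRel.dih v e) ∧ Real.cos (TetRel.dih v e) = Real.cos (TetRel.dih v 3) := hca
  set β := TetRel.dih v 0 with hβ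
  set α := TetRel.dih v 3 with hα
  have e1 : TetRel.dih v 1 = β := dih_eq_of_cos v ((cb 1 (by simp)).trans (cb 0 (by simp)).symm)
  have e2 : TetRel.dih v 2 = β := dih_eq_of_cos v ((cb 2 (by simp)).trans (cb 0 (by simp)).symm)
  have e4 : TetRel.dih v 4 = α := dih_eq_of_cos v (ca 4 (by simp)).2.2
  have e5 : TetRel.dih v 5 = α := dih_eq_of_cos v (ca 5 (by simp)).2.2
  have cβ : Real.cos β = (1 - y) / 2 := cb 0 (by simp)
  obtain ⟨cα, cα0, -⟩ := ca 3 (by simp)
  have cα1 : Real.cos α < 1 := by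
    by_contra hcon
    push Not at hcon
    nlinarith
  have pβ : 0 < β := pos_of_cos (dih_nonneg v 0) (by rw [cβ]; linarith)
  have qβ : β < π := lt_pi_of_cos (dih_le_pi v 0) (by rw [cβ]; linarith)
  have pα : 0 < α := pos_of_cos (dih_nonneg v 3) cα1
  have qα : α < π := lt_pi_of_cos (dih_le_pi v 3) (by linarith)
  let m : Fin k → ℕ × ℕ := fun i => (n i 3 + n i 4 + n i 5, n i 0 + n i 1 + n i 2)
  have hm : ∀ i, ((m i).1 : ℝ) * α + ((m i).2 : ℝ) * β = 2 * π := by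
    intro i
    rw [← hn i, Fin.sum_univ_six, e1, e2, e4, e5]
    simp only [m]
    push_cast
    ring
  have hA : ∑ i, c i * ((m i).1 : ℝ) = 3 * a := by
    have : 3 * a = len v 3 + len v 4 + len v 5 := by rw [h3, h4, h5]; ring
    rw [this, hlen 3, hlen 4, hlen 5, ← Finset.sum_add_distrib, ← Finset.sum_add_distrib]
    refine Finset.sum_congr rfl fun i _ => ?_
    simp only [m]
    push_cast
    ring
  have hB : ∑ i, c i * ((m i).2 : ℝ) = 3 * b := by
    have : 3 * b = len v 0 + len v 1 + len v 2 := by rw [h0, h1, h2]; ring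
    rw [this, hlen 0, hlen 1, hlen 2, ← Finset.sum_add_distrib, ← Finset.sum_add_distrib]
    refine Finset.sum_congr rfl fun i _ => ?_
    simp only [m]
    push_cast
    ring
  rcases prop_or_two m c (show (0 : ℝ) < 3 * a by linarith) hA hB with ⟨i, j, hij⟩ | ⟨i, hi⟩
  · obtain ⟨N, r, s, hN, hr, hs⟩ := rat_of_two pα pβ (hm i) (hm j) hij
    exact kronB hN r s hr hs hy0 hy3 cβ cα
  · set P := (m i).1 with hP
    set Q := (m i).2 with hQ
    have hQP : a * Q = b * P := by linarith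
    have hP0 : 0 < P := by
      rcases Nat.eq_zero_or_pos P with h | h
      · exfalso
        rw [h] at hQP
        have hQ0 : (Q : ℝ) = 0 := by
          have : a * (Q : ℝ) = 0 := by simpa using hQP
          rcases mul_eq_zero.1 this with h6 | h6
          · exact absurd h6 ha.ne'
          · exact h6
        have h7 := hm i
        rw [← hP, ← hQ, h, hQ0] at h7
        simp at h7
      · exact h
    have hPR : (0 : ℝ) < P := by exact_mod_cast hP0
    have hQ0 : 0 < Q := by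
      have : 0 < a * (Q : ℝ) := by rw [hQP]; positivity
      have h6 : (0 : ℝ) < Q := (mul_pos_iff_of_pos_left ha).1 this
      exact_mod_cast h6
    have hQR : (0 : ℝ) < Q := by exact_mod_cast hQ0
    have hsq : a ^ 2 * (Q : ℝ) ^ 2 = b ^ 2 * (P : ℝ) ^ 2 := by
      have : (a * (Q : ℝ)) ^ 2 = (b * P) ^ 2 := by rw [hQP]
      nlinarith [this]
    have hPQ : P ^ 2 < 3 * Q ^ 2 := by
      by_contra hcon
      push Not at hcon
      have h8 : 3 * (Q : ℝ) ^ 2 ≤ (P : ℝ) ^ 2 := by exact_mod_cast hcon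
      have h9 : 0 < (Q : ℝ) ^ 2 := by positivity
      have h10 : a ^ 2 * (Q : ℝ) ^ 2 < 3 * b ^ 2 * (Q : ℝ) ^ 2 := mul_lt_mul_of_pos_right hab h9
      have h11 : b ^ 2 * (3 * (Q : ℝ) ^ 2) ≤ b ^ 2 * (P : ℝ) ^ 2 :=
        mul_le_mul_of_nonneg_left h8 (by positivity)
      linarith
    have hy' : y * (4 * (Q : ℝ) ^ 2 - (P : ℝ) ^ 2) = (P : ℝ) ^ 2 := by
      have h12 : b ^ 2 * (y * (4 * (Q : ℝ) ^ 2 - (P : ℝ) ^ 2)) = b ^ 2 * (P : ℝ) ^ 2 := by
        have : y * (4 * b ^ 2 * (Q : ℝ) ^ 2 - b ^ 2 * (P : ℝ) ^ 2) = b ^ 2 * (P : ℝ) ^ 2 := by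
          rw [← hsq, ← sub_mul, ← mul_assoc, hy]
        linarith
      exact mul_left_cancel₀ (pow_pos hb 2).ne' h12
    exact one_B hP0 hQ0 hPQ hy' pα qα pβ qβ cβ cα cα0 (hm i)

end Pool.Agent.TET
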