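import Pool.Agent.TET.Sym5

set_option autoImplicit false

namespace Pool.Agent.TET

open Real Pool.Agent.TetRel

/-- `v` spans a tetrahedron with a monohedral tiling of space. -/
def Tiles (v : Fin 4 → E3) : Prop :=
  ∃ S : Set (Set E3), (∀ A ∈ S, ∃ φ : E3 ≃ᵢ E3, A = φ '' convexHull ℝ (Set.range v)) ∧
    ⋃₀ S = Set.univ ∧ S.Pairwise (fun A B => Disjoint (interior A) (interior B))

theorem Tiles.comp {v : Fin 4 → E3} (h : Tiles v) (τ : Equiv.Perm (Fin 4)) : Tiles (v ∘ τ) := by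
  unfold Tiles at h ⊢
  rw [EquivLike.range_comp]
  exact h

/-- The 4-cycle. -/
def c4 : Fin 4 → Fin 4 := ![1, 2, 3, 0]

/-- The 3-cycle. -/
def c3 : Fin 4 → Fin 4 := ![0, 2, 3, 1]

theorem perm_cases : ∀ σ : Equiv.Perm (Fin 4), σ * σ ≠ 1 → ∃ τ : Equiv.Perm (Fin 4),
    (∀ i, σ (τ i) = τ (c4 i)) ∨ (∀ i, σ (τ i) = τ (c3 i)) := by
  decide +kernel

theorem dist_step {v : Fin 4 → E3} {σ τ : Equiv.Perm (Fin 4)} {c : Fin 4 → Fin 4}
    (hσ : ∀ i j, dist (v (σ i)) (v (σ j)) = dist (v i) (v j)) (h : ∀ i, σ (τ i) = τ (c i))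
    (i j : Fin 4) : dist ((v ∘ τ) (c i)) ((v ∘ τ) (c j)) = dist ((v ∘ τ) i) ((v ∘ τ) j) := by
  show dist (v (τ (c i))) (v (τ (c j))) = dist (v (τ i)) (v (τ j))
  rw [← h i, ← h j, hσ]

/-- **Tetrahedra with a symmetry of order at least 3 that tile space.** -/
theorem sym_shape (hcone : ∀ w : Fin 4 → E3, AffineIndependent ℝ w → Tiles w → ConeCond w)
    (v : Fin 4 → E3) (hv : AffineIndependent ℝ v) (ht : Tiles v) (σ : Equiv.Perm (Fin 4))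
    (hσ2 : σ * σ ≠ 1) (hσ : ∀ i j, dist (v (σ i)) (v (σ j)) = dist (v i) (v j)) :
    ∃ (τ : Equiv.Perm (Fin 4)) (s : ℝ), 0 < s ∧
      dist (v (τ 0)) (v (τ 2)) = 2 * s ∧ dist (v (τ 1)) (v (τ 3)) = 2 * s ∧
      dist (v (τ 0)) (v (τ 1)) = √3 * s ∧ dist (v (τ 1)) (v (τ 2)) = √3 * s ∧
      dist (v (τ 2)) (v (τ 3)) = √3 * s ∧ dist (v (τ 0)) (v (τ 3)) = √3 * s := by
  obtain ⟨τ, h | h⟩ := perm_cases σ hσ2
  · have hw : AffineIndependent ℝ (v ∘ τ) := hv.comp_embedding τ.toEmbedding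
    have hc := hcone (v ∘ τ) hw (ht.comp τ)
    have d1 : dist ((v ∘ τ) 1) ((v ∘ τ) 2) = dist ((v ∘ τ) 0) ((v ∘ τ) 1) := dist_step hσ h 0 1
    have d2 : dist ((v ∘ τ) 2) ((v ∘ τ) 3) = dist ((v ∘ τ) 1) ((v ∘ τ) 2) := dist_step hσ h 1 2
    have d3 : dist ((v ∘ τ) 3) ((v ∘ τ) 0) = dist ((v ∘ τ) 2) ((v ∘ τ) 3) := dist_step hσ h 2 3
    have d4 : dist ((v ∘ τ) 1) ((v ∘ τ) 3) = dist ((v ∘ τ) 0) ((v ∘ τ) 2) := dist_step hσ h 0 2
    rw [dist_comm] at d3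
    set b := dist ((v ∘ τ) 0) ((v ∘ τ) 1) with hb
    set a := dist ((v ∘ τ) 0) ((v ∘ τ) 2) with ha
    have key := classA (v ∘ τ) hw hc (a := a) (b := b) rfl rfl (d3.trans (d2.trans d1)) d1 d4
      (d2.trans d1)
    have ha0 : 0 < a := dist_pos.2 (hw.injective.ne (by decide))
    have hb0 : 0 < b := dist_pos.2 (hw.injective.ne (by decide))
    have hbv : b = √3 * (a / 2) := by
      have h1 : b ^ 2 = (√3 * (a / 2)) ^ 2 := by
        rw [mul_pow, Real.sq_sqrt (by norm_num)]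
        linarith
      exact (sq_eq_sq₀ hb0.le (by positivity)).1 h1
    refine ⟨τ, a / 2, by positivity, ?_, ?_, ?_, ?_, ?_, ?_⟩
    · show a = _; ring
    · rw [show 2 * (a / 2) = a by ring]; exact d4
    · exact hbv
    · exact d1.trans hbv
    · exact (d2.trans d1).trans hbv
    · exact (d3.trans (d2.trans d1)).trans hbv
  · exfalso
    have hw : AffineIndependent ℝ (v ∘ τ) := hv.comp_embedding τ.toEmbedding
    have hc := hcone (v ∘ τ) hw (ht.comp τ)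
    have d1 : dist ((v ∘ τ) 0) ((v ∘ τ) 2) = dist ((v ∘ τ) 0) ((v ∘ τ) 1) := dist_step hσ h 0 1
    have d2 : dist ((v ∘ τ) 0) ((v ∘ τ) 3) = dist ((v ∘ τ) 0) ((v ∘ τ) 2) := dist_step hσ h 0 2
    have d3 : dist ((v ∘ τ) 2) ((v ∘ τ) 3) = dist ((v ∘ τ) 1) ((v ∘ τ) 2) := dist_step hσ h 1 2
    have d4 : dist ((v ∘ τ) 3) ((v ∘ τ) 1) = dist ((v ∘ τ) 2) ((v ∘ τ) 3) := dist_step hσ h 2 3
    rw [dist_comm] at d4
    exact classB (v ∘ τ) hw hc (a := dist ((v ∘ τ) 1) ((v ∘ τ) 2))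
      (b := dist ((v ∘ τ) 0) ((v ∘ τ) 1)) rfl d1 (d2.trans d1) rfl (d4.trans d3) d3

end Pool.Agent.TET
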