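import Pool.Agent.TetRel.Main
import Pool.Agent.TetRel.Sixty
import Pool.Agent.TetRel.SommerDih

/-! # MP_0bd9c9_co: the smallest dihedral angle of a tetrahedron that tiles space

The largest possible value of the smallest dihedral angle of a tetrahedron that tiles 3-space
monohedrally is sixty degrees. -/

set_option autoImplicit false

open Pool.Agent.TetRel

theorem Pool.Agent.Results.MP_0bd9c9_co.TileSixty.result :
    IsGreatest {m : ℝ | ∃ v : Fin 4 → E3, AffineIndependent ℝ v ∧ Tiles v ∧
      IsLeast (Set.range (dih v)) m} (Real.pi / 3) := by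
  constructor
  · refine ⟨Sommer.v0, Sommer.affineIndependent_v0, Sommer.tiles_v0, ⟨0, ?_⟩, ?_⟩
    · rw [Sommer.dih_v0]
      simp
    · rintro _ ⟨i, rfl⟩
      exact Sommer.le_dih_v0 i
  · rintro m ⟨v, hv, hT, hm⟩
    obtain ⟨b, S, Φ, rfl, h⟩ := hT.isTiling hv
    obtain ⟨i, hi⟩ := h.exists_dih_le
    exact (hm.2 ⟨i, rfl⟩).trans hi
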