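import Pool.Agent.TET.TwoMain

/-! # MP_0bd9c9_co: tetrahedra with at most two distinct dihedral angles

A tetrahedron whose six dihedral angles take at most two values tiles 3-space monohedrally if and
only if it is similar to Sommerville's disphenoid; then it tiles 3-space periodically. So the
negated form of Q1 holds for all these tetrahedra. -/

set_option autoImplicit false

open Pool.Agent.TetRel

theorem Pool.Agent.Results.MP_0bd9c9_co.TileTwo.result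
    (v : Fin 4 → E3) (hv : AffineIndependent ℝ v) (α β : ℝ)
    (h2 : ∀ e, dih v e = α ∨ dih v e = β) :
    (Tiles v ↔ ∃ (τ : Equiv.Perm (Fin 4)) (s : ℝ), 0 < s ∧
      dist (v (τ 0)) (v (τ 2)) = 2 * s ∧ dist (v (τ 1)) (v (τ 3)) = 2 * s ∧
      dist (v (τ 0)) (v (τ 1)) = √3 * s ∧ dist (v (τ 1)) (v (τ 2)) = √3 * s ∧
      dist (v (τ 2)) (v (τ 3)) = √3 * s ∧ dist (v (τ 3)) (v (τ 0)) = √3 * s) ∧
    (Tiles v → ∃ S : Set (Set E3),
      (∀ A ∈ S, ∃ φ : E3 ≃ᵢ E3, A = φ '' convexHull ℝ (Set.range v)) ∧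
      ⋃₀ S = Set.univ ∧ S.Pairwise (fun A B => Disjoint (interior A) (interior B)) ∧
      ∃ a : Fin 3 → E3, LinearIndependent ℝ a ∧ ∀ i, ∀ A ∈ S, (fun x => x + a i) '' A ∈ S) := by
  have hper : ∀ (τ : Equiv.Perm (Fin 4)) (s : ℝ), Sommer.IsSomm s (v ∘ τ) →
      ∃ S : Set (Set E3),
      (∀ A ∈ S, ∃ φ : E3 ≃ᵢ E3, A = φ '' convexHull ℝ (Set.range v)) ∧
      ⋃₀ S = Set.univ ∧ S.Pairwise (fun A B => Disjoint (interior A) (interior B)) ∧
      ∃ a : Fin 3 → E3, LinearIndependent ℝ a ∧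
        ∀ i, ∀ A ∈ S, (fun x => x + a i) '' A ∈ S := by
    intro τ s hs
    have h := Sommer.periodic hs
    rw [EquivLike.range_comp] at h
    exact h
  refine ⟨⟨fun hT => ?_, ?_⟩, fun hT => ?_⟩
  · obtain ⟨τ, s, hs⟩ := Pool.Agent.TET.two_shape v hv hT h2
    refine ⟨τ, s, hs.pos, hs.h02, hs.h13, hs.h01, hs.h12, hs.h23, ?_⟩
    rw [dist_comm]
    exact hs.h03
  · rintro ⟨τ, s, h0, h02, h13, h01, h12, h23, h30⟩
    obtain ⟨S, h1, h3, h4, -⟩ := hper τ s ⟨h0, h02, h13, h01, (dist_comm _ _).trans h30, h12, h23⟩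
    exact ⟨S, h1, h3, h4⟩
  · obtain ⟨τ, s, hs⟩ := Pool.Agent.TET.two_shape v hv hT h2
    exact hper τ s hs
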