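import Pool.Agent.TetRel.Main

/-! # MP_0bd9c9_co: tetrahedra that tile space, the edge vector is a positive combination of types

If a tetrahedron tiles 3-space monohedrally, then the vector of its six edge lengths is a
combination with positive coefficients of at least two linearly independent vectors `n` of six
nonnegative integers with `∑ n e * θ e = 2 π`. -/

set_option autoImplicit false

open Pool.Agent.TetRel

theorem Pool.Agent.Results.MP_0bd9c9_co.TileTypeCone.result
    (v : Fin 4 → E3) (hv : AffineIndependent ℝ v) (hT : Tiles v) :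
    ∃ (k : ℕ) (n : Fin k → Fin 6 → ℕ) (c : Fin k → ℝ), 2 ≤ k ∧
      LinearIndependent ℝ (fun i : Fin k => fun e : Fin 6 => (n i e : ℝ)) ∧
      (∀ i, ∑ e, (n i e : ℝ) * dih v e = 2 * Real.pi) ∧ (∀ i, 0 < c i) ∧
      ∀ e, len v e = ∑ i, c i * (n i e : ℝ) :=
  cone v hv hT
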