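import Pool.Agent.TET.Kron2

set_option autoImplicit false

namespace Pool.Agent.TET

open Real

/-- Two distinct angles, commensurable case. -/
theorem two_i_rat {N : ℕ} (hN : 0 < N) (r s : ℕ) {α β : ℝ} (hα : α = 2 * π * r / N)
    (hβ : β = 2 * π * s / N) (hrel : (1 - cos α) * (1 - cos β) = 4 * cos β ^ 2)
    (h0 : 0 < cos β) (h1 : cos β < 1 / 2) : False := by
  have hk := kron2 hN s r (2 * Real.cos β) (2 * Real.cos α) (by rw [hβ]) (by rw [hα])
    {4 * MvPolynomial.X 0 ^ 2 - (2 - MvPolynomial.X 1) * (2 - MvPolynomial.X 0)} ∅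
    (by
      intro L hL
      rw [Set.mem_singleton_iff] at hL
      subst hL
      simp only [map_sub, map_mul, map_pow, MvPolynomial.aeval_X, map_ofNat,
        Matrix.cons_val_zero, Matrix.cons_val_one]
      linear_combination -4 * hrel)
    (by
      intro M hM
      exact absurd hM (Set.notMem_empty M))
    1 one_pos
    (MvPolynomial.X 0 * (MvPolynomial.X 0 + 1) * (MvPolynomial.X 0 + 2) * (MvPolynomial.X 0 - 1))
    ((MvPolynomial.X 0 * (MvPolynomial.X 0 + 1) * (MvPolynomial.X 0 + 2) *
      (MvPolynomial.X 0 - 1)) ^ 2)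
    (by
      rw [map_pow]
      simp)
    (by
      intro t ht hL _
      have hL' := hL _ (Set.mem_singleton _)
      simp only [map_sub, map_add, map_mul, map_pow, MvPolynomial.aeval_X, map_ofNat,
        map_one] at hL' ⊢
      have h0 := ht 0
      have h1 := ht 1
      have hq : t 0 ^ 2 + t 0 ≤ 2 := by
        nlinarith [mul_nonneg (show 0 ≤ 2 + t 1 by linarith [h1.1])
          (show 0 ≤ 2 - t 0 by linarith [h0.2])]
      have hq2 : -1 / 4 ≤ t 0 ^ 2 + t 0 := by nlinarith [sq_nonneg (t 0 + 1 / 2)]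
      have hG : t 0 * (t 0 + 1) * (t 0 + 2) * (t 0 - 1) =
          (t 0 ^ 2 + t 0 - 1) ^ 2 - 1 := by ring
      rw [hG, Nat.cast_one, abs_le]
      constructor
      · nlinarith [sq_nonneg (t 0 ^ 2 + t 0 - 1)]
      · nlinarith)
    (by
      simp only [map_sub, map_add, map_mul, MvPolynomial.aeval_X, map_ofNat, map_one,
        Matrix.cons_val_zero]
      refine mul_ne_zero (mul_ne_zero (mul_ne_zero ?_ ?_) ?_) ?_
      · linarith
      · linarith
      · linarith
      · intro h
        linarith)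
  simp only [map_sub, map_add, map_mul, MvPolynomial.aeval_X, map_ofNat, map_one,
    Matrix.cons_val_zero, Nat.cast_one] at hk
  set v := 2 * cos β with hv
  have hv0 : 0 < v := by linarith
  have hv1 : v < 1 := by linarith
  have hG : v * (v + 1) * (v + 2) * (v - 1) = (v ^ 2 + v - 1) ^ 2 - 1 := by ring
  have hq0 : 0 < v ^ 2 + v := by positivity
  have hq2 : v ^ 2 + v < 2 := by nlinarith
  rw [hG, abs_of_nonpos (by nlinarith)] at hk
  have hq : v ^ 2 + v - 1 = 0 := by
    have : (v ^ 2 + v - 1) ^ 2 = 0 := by linarith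
    exact pow_eq_zero_iff (two_ne_zero) |>.1 this
  have hu : 5 * (2 * cos α) ^ 2 = 4 := by
    have h2 : (2 - 2 * cos α) * (2 - v) = 4 * v ^ 2 := by
      rw [hv]
      linear_combination 4 * hrel
    have h3 : (2 * cos α) * (2 - v) = 2 * v := by
      linear_combination -h2 - 4 * hq
    have h4 : (2 * cos α) ^ 2 * (2 - v) ^ 2 = 4 * v ^ 2 := by
      rw [← mul_pow, h3]
      ring
    have h5 : (5 * (2 * cos α) ^ 2 - 4) * (1 - v) = 0 := by
      linear_combination h4 + (-(2 * cos α) ^ 2 + 4) * hq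
    rcases mul_eq_zero.1 h5 with h6 | h6
    · linarith
    · linarith
  have hk2 := kron2 hN s r (2 * Real.cos β) (2 * Real.cos α) (by rw [hβ]) (by rw [hα])
    {5 * MvPolynomial.X 1 ^ 2 - 4} ∅
    (by
      intro L hL
      rw [Set.mem_singleton_iff] at hL
      subst hL
      simp only [map_sub, map_mul, map_pow, MvPolynomial.aeval_X, map_ofNat,
        Matrix.cons_val_one, Matrix.cons_val_zero]
      linarith)
    (by
      intro M hM
      exact absurd hM (Set.notMem_empty M))
    1 one_pos (MvPolynomial.X 1) (MvPolynomial.X 1 ^ 2)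
    (by
      rw [map_pow]
      simp)
    (by
      intro t ht hL _
      have hL' := hL _ (Set.mem_singleton _)
      simp only [map_sub, map_mul, map_pow, MvPolynomial.aeval_X, map_ofNat] at hL' ⊢
      rw [Nat.cast_one]
      refine abs_le_one_iff_mul_self_le_one.2 ?_
      nlinarith)
    (by
      simp only [MvPolynomial.aeval_X, Matrix.cons_val_one, Matrix.cons_val_zero]
      intro h
      rw [h] at hu
      norm_num at hu)
  simp only [MvPolynomial.aeval_X, Matrix.cons_val_one, Matrix.cons_val_zero,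
    Nat.cast_one] at hk2
  have h7 : (2 * cos α) ^ 2 = 1 := by rw [← sq_abs, hk2, one_pow]
  rw [h7] at hu
  norm_num at hu

/-- Two distinct angles, one relation. -/
theorem two_i_one {α β f g : ℝ} (hα : 0 < α) (hα' : α < π) (hβ2 : β < π / 2)
    (hg : 0 < g) (e1 : f * (1 - cos β) = 2 * g * cos β)
    (hrel : (1 - cos α) * (1 - cos β) = 4 * cos β ^ 2)
    (h0 : 0 < cos β) (hv1 : π < α + 2 * β) (hv2 : π < 3 * β) {P Q : ℕ}
    (hm : (P : ℝ) * α + (Q : ℝ) * β = 2 * π)
    (hR : g ^ 2 * sin α * Q = (f ^ 2 + 4 * f * g) * sin β * P) : False := by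
  have hpi := Real.pi_pos
  set a := sin (α / 2) with ha
  set b := sin (β / 2) with hb
  set p := cos (α / 2) with hp
  set c := cos (β / 2) with hc
  have ha0 : 0 < a := Real.sin_pos_of_pos_of_lt_pi (by linarith) (by linarith)
  have hb0 : 0 < b := Real.sin_pos_of_pos_of_lt_pi (by linarith) (by linarith)
  have hp0 : 0 < p := Real.cos_pos_of_mem_Ioo ⟨by linarith, by linarith⟩
  have hc0 : 0 < c := Real.cos_pos_of_mem_Ioo ⟨by linarith, by linarith⟩
  have hap : a ^ 2 + p ^ 2 = 1 := Real.sin_sq_add_cos_sq _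
  have hbc : b ^ 2 + c ^ 2 = 1 := Real.sin_sq_add_cos_sq _
  have hcα : cos α = 1 - 2 * a ^ 2 := by
    have h1 := Real.cos_two_mul (α / 2)
    rw [show 2 * (α / 2) = α by ring] at h1
    rw [h1]
    linarith
  have hcβ : cos β = 1 - 2 * b ^ 2 := by
    have h1 := Real.cos_two_mul (β / 2)
    rw [show 2 * (β / 2) = β by ring] at h1
    rw [h1]
    linarith
  have hsα : sin α = 2 * a * p := by
    have h1 := Real.sin_two_mul (α / 2)
    rwa [show 2 * (α / 2) = α by ring] at h1
  have hsβ : sin β = 2 * b * c := by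
    have h1 := Real.sin_two_mul (β / 2)
    rwa [show 2 * (β / 2) = β by ring] at h1
  -- `cos β = a b`
  have hy : cos β = a * b := by
    have h1 : (a * b) ^ 2 = cos β ^ 2 := by
      rw [hcα] at hrel
      have h2 : 1 - cos β = 2 * b ^ 2 := by linarith
      rw [h2] at hrel
      linear_combination hrel / 4
    exact ((pow_left_inj₀ (by positivity) h0.le (by norm_num)).1 h1).symm
  -- `f b = g a`
  have hfg : f * b = g * a := by
    have h2 : 1 - cos β = 2 * b ^ 2 := by linarith
    rw [h2, hy] at e1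
    have h3 : b * (f * b - g * a) = 0 := by linear_combination e1 / 2
    rcases mul_eq_zero.1 h3 with h4 | h4
    · exact absurd h4 hb0.ne'
    · linarith
  -- the relation between `P` and `Q`
  have hPQ : (P : ℝ) * ((a + 4 * b) * c) = Q * (b * p) := by
    rw [hsα, hsβ] at hR
    have h3 : (g ^ 2 * (2 * a)) * ((P : ℝ) * ((a + 4 * b) * c) - Q * (b * p)) = 0 := by
      have h4 : b * (g ^ 2 * (2 * a * p) * Q) =
          b * ((f ^ 2 + 4 * f * g) * (2 * b * c) * P) := by rw [hR]
      have h5 : (f * b) ^ 2 = (g * a) ^ 2 := by rw [hfg]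
      linear_combination -h4 + 0 * h5 - (2 * c * P) * h5 - 8 * g * b * c * P * hfg
    rcases mul_eq_zero.1 h3 with h4 | h4
    · exact absurd h4 (by positivity)
    · linarith
  have hb2 : b ^ 2 < 1 / 2 := by
    rw [hcβ] at h0
    linarith
  have hc7 : 7 / 10 < c := by
    by_contra hcon
    push Not at hcon
    nlinarith
  have hp1 : p ≤ 1 := by
    by_contra hcon
    push Not at hcon
    nlinarith
  have hP1 : P ≠ 0 := by
    rintro rfl
    rw [Nat.cast_zero, zero_mul, eq_comm] at hPQ
    rcases mul_eq_zero.1 hPQ with h4 | h4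
    · rw [h4, Nat.cast_zero, zero_mul, zero_mul, add_zero] at hm
      linarith
    · exact absurd h4 (by positivity)
  have hPR : (1 : ℝ) ≤ P := by exact_mod_cast Nat.one_le_iff_ne_zero.2 hP1
  have hlow : 14 / 5 * (P : ℝ) < Q := by
    have h4 : (P : ℝ) * ((a + 4 * b) * c) ≤ Q * (b * 1) := by
      rw [hPQ]
      gcongr
    have h5 : (P : ℝ) * ((4 * b) * (7 / 10)) < P * ((a + 4 * b) * c) := by
      have : (4 * b) * (7 / 10) < (a + 4 * b) * c := by nlinarith
      exact mul_lt_mul_of_pos_left this (by linarith)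
    have h6 : b * (14 / 5 * (P : ℝ)) < b * Q := by nlinarith
    exact lt_of_mul_lt_mul_left h6 hb0.le
  have hQ5 : Q ≤ 5 := by
    by_contra hcon
    push Not at hcon
    have h6 : (6 : ℝ) ≤ Q := by exact_mod_cast hcon
    nlinarith [mul_pos (show (0 : ℝ) < P by linarith) hα]
  have hQR : (Q : ℝ) ≤ 5 := by exact_mod_cast hQ5
  have hPone : P = 1 := by
    by_contra hne
    have h2 : 2 ≤ P := by omega
    have h3 : (2 : ℝ) ≤ P := by exact_mod_cast h2
    linarith
  subst hPone
  have hQ3 : 3 ≤ Q := by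
    by_contra hcon
    have h2 : Q ≤ 2 := by omega
    have h3 : (Q : ℝ) ≤ 2 := by exact_mod_cast h2
    push_cast at hlow
    linarith
  have hlt : β < α → p < c := fun h =>
    Real.cos_lt_cos_of_nonneg_of_le_pi (by linarith) (by linarith) (by linarith)
  push_cast at hm hPQ
  rw [one_mul] at hm hPQ
  interval_cases Q
  · push_cast at hm hPQ
    have h1 := hlt (by linarith)
    have h2 : b * p < b * c := mul_lt_mul_of_pos_left h1 hb0
    nlinarith [mul_pos ha0 hc0, mul_pos hb0 hc0]
  · push_cast at hm hPQ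
    have h1 : a = 4 * a * b ^ 2 * c := by
      have h2 : a = sin (2 * β) := by
        rw [ha, show α / 2 = π - 2 * β by linarith, Real.sin_pi_sub]
      rw [Real.sin_two_mul, hsβ, hy] at h2
      linear_combination h2
    have h2 : 4 * b ^ 2 * c = 1 := by
      have : a * (4 * b ^ 2 * c - 1) = 0 := by linear_combination -h1
      rcases mul_eq_zero.1 this with h4 | h4
      · exact absurd h4 ha0.ne'
      · linarith
    have h3 : 16 * (b ^ 2) ^ 2 * (1 - b ^ 2) = 1 := by
      have : c ^ 2 = 1 - b ^ 2 := by linarith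
      rw [← this]
      have h4 : (4 * b ^ 2 * c) ^ 2 = 1 := by rw [h2, one_pow]
      linear_combination h4
    have h4 : b ^ 2 < 1 / 3 := by
      by_contra hcon
      push Not at hcon
      have h5 : 0 ≤ (b ^ 2 - 1 / 3) * (-(b ^ 2) ^ 2 + 2 / 3 * b ^ 2 + 2 / 9) :=
        mul_nonneg (by linarith) (by nlinarith)
      nlinarith
    have h5 : b < a := by
      rw [hcβ] at hy
      have h6 : b * b < b * a := by nlinarith
      exact lt_of_mul_lt_mul_left h6 hb0.le
    have h6 : β < α := by
      by_contra hcon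
      push Not at hcon
      have h7 : a ≤ b := Real.sin_le_sin_of_le_of_le_pi_div_two (by linarith) (by linarith)
        (by linarith)
      linarith
    have h7 := hlt h6
    have h8 : b * p < b * c := mul_lt_mul_of_pos_left h7 hb0
    nlinarith [mul_pos ha0 hc0, mul_pos hb0 hc0]
  · push_cast at hm
    linarith

/-- Two distinct dihedral angles: the angle vector of the shape is not in the cone. -/
theorem two_i {α β f g κ : ℝ} (hα : 0 < α) (hα' : α < π) (hβ : 0 < β) (hβ' : β < π)
    (hf : 0 < f) (hg : 0 < g) (hκ : 0 < κ) (e1 : f * (1 - cos β) = 2 * g * cos β)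
    (e2 : g * (1 - cos α) = 2 * f * cos β) (hv1 : π < α + 2 * β) (hv2 : π < 3 * β)
    {k : ℕ} (m : Fin k → ℕ × ℕ) (c : Fin k → ℝ)
    (hm : ∀ i, ((m i).1 : ℝ) * α + ((m i).2 : ℝ) * β = 2 * π)
    (hA : ∑ i, c i * ((m i).1 : ℝ) = κ * (g ^ 2 * sin α))
    (hB : ∑ i, c i * ((m i).2 : ℝ) = κ * ((f ^ 2 + 4 * f * g) * sin β)) : False := by
  have hpi := Real.pi_pos
  have hsα : 0 < sin α := Real.sin_pos_of_pos_of_lt_pi hα hα'
  have hy1 : cos β < 1 := by
    have := Real.cos_lt_cos_of_nonneg_of_le_pi (le_refl 0) hβ'.le hβ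
    rwa [Real.cos_zero] at this
  have hy0 : 0 < cos β := by
    have h1 : 0 < f * (1 - cos β) := mul_pos hf (by linarith)
    rw [e1] at h1
    by_contra hcon
    push Not at hcon
    nlinarith
  have hβ2 : β < π / 2 := by
    by_contra hcon
    push Not at hcon
    have := Real.cos_nonpos_of_pi_div_two_le_of_le hcon (by linarith)
    linarith
  have hy2 : cos β < 1 / 2 := by
    have := Real.cos_lt_cos_of_nonneg_of_le_pi (show 0 ≤ π / 3 by positivity) hβ'.le
      (by linarith)
    rwa [Real.cos_pi_div_three] at this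
  have hrel : (1 - cos α) * (1 - cos β) = 4 * cos β ^ 2 := by
    have h1 : (f * g) * ((1 - cos α) * (1 - cos β) - 4 * cos β ^ 2) = 0 := by
      linear_combination (g * (1 - cos α)) * e1 + (2 * g * cos β) * e2
    rcases mul_eq_zero.1 h1 with h2 | h2
    · exact absurd h2 (by positivity)
    · linarith
  rcases prop_or_two m c (show 0 < κ * (g ^ 2 * sin α) by positivity) hA hB with
    ⟨i, j, hij⟩ | ⟨i, hi⟩
  · obtain ⟨N, r, s, hN, h1, h2⟩ := rat_of_two hα hβ (hm i) (hm j) hij
    exact two_i_rat hN r s h1 h2 hrel hy0 hy2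
  · refine two_i_one hα hα' hβ2 hg e1 hrel hy0 hv1 hv2 (hm i) ?_
    have h1 : κ * (g ^ 2 * sin α * (m i).2 - (f ^ 2 + 4 * f * g) * sin β * (m i).1) = 0 := by
      linear_combination hi
    rcases mul_eq_zero.1 h1 with h2 | h2
    · exact absurd h2 hκ.ne'
    · linarith

end Pool.Agent.TET
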