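import Pool.Agent.TET.Kron2

set_option autoImplicit false

namespace Pool.Agent.TET

open Real

/-- The data of the class with the angle `α` at two adjacent edges: `x = cos α`, `y = cos β`,
`ρ` = quotient of two areas. -/
structure DatII (α β x y ρ : ℝ) : Prop where
  hα : 0 < α
  hα' : α < π
  hβ : 0 < β
  hβ2 : β < π / 2
  hx : Real.cos α = x
  hy : Real.cos β = y
  y0 : 0 < y
  y1 : y < 1 / 2
  r0 : 0 < ρ
  r1 : ρ * (1 - y ^ 2) = 2 * (x + y ^ 2)
  r2 : ρ ^ 2 * (1 - y) = 2 * (1 - 2 * y)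

namespace DatII

variable {α β x y ρ : ℝ} (h : DatII α β x y ρ)
include h

theorem w_pos : 0 < x + y ^ 2 := by
  have h1 : 0 < ρ * (1 - y ^ 2) := mul_pos h.r0 (by nlinarith [h.y0, h.y1])
  linarith [h.r1]

theorem rel : 2 * x ^ 2 + 4 * x * y ^ 2 = 1 - y - 3 * y ^ 2 + y ^ 3 := by
  -- `(2 (x + y^2))^2 (1 - y) = ρ^2 (1-y) (1-y^2)^2 = 2 (1-2y) (1-y^2)^2`
  have h1 : (2 * (x + y ^ 2)) ^ 2 * (1 - y) = 2 * (1 - 2 * y) * (1 - y ^ 2) ^ 2 := by
    rw [← h.r1, ← h.r2]
    ring
  have h2 : (1 - y) * (2 * (2 * x ^ 2 + 4 * x * y ^ 2 - (1 - y - 3 * y ^ 2 + y ^ 3))) = 0 := by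
    linear_combination h1
  have h3 : (1 - y) ≠ 0 := by linarith [h.y1]
  have h4 := (mul_eq_zero.1 h2).resolve_left h3
  linarith

theorem sb_pos : 0 < Real.sin β := Real.sin_pos_of_pos_of_lt_pi h.hβ (by linarith [h.hβ2, pi_pos])

theorem sa_pos : 0 < Real.sin α := Real.sin_pos_of_pos_of_lt_pi h.hα h.hα'

theorem sb_sq : Real.sin β ^ 2 = 1 - y ^ 2 := by
  rw [← h.hy, Real.sin_sq]

theorem sa_sq : Real.sin α ^ 2 = 1 - x ^ 2 := by
  rw [← h.hx, Real.sin_sq]

theorem sb_big : 0.866 < Real.sin β := by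
  have h1 := h.sb_sq
  have h2 := h.sb_pos
  nlinarith [h.y0, h.y1]

theorem r_small : ρ < 1.4143 := by
  have h1 : ρ ^ 2 < 2 := by
    have h2 := h.r2
    have : 0 < (1 - y) := by linarith [h.y1]
    have h3 : ρ ^ 2 * (1 - y) < 2 * (1 - y) := by nlinarith [h.y0]
    exact lt_of_mul_lt_mul_right h3 this.le
  nlinarith [h.r0]

/-- `x < 0` makes the quotient of the lengths smaller than `1/3`. -/
theorem R_x0 (hx0 : x < 0) :
    6 * ρ * Real.sin α < (1 + y * (ρ + 2) ^ 2) * Real.sin β := by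
  have hrel := h.rel
  have hw := h.w_pos
  have hy46 : 0.46 < y := by
    by_contra hcon
    push Not at hcon
    have h1 : 0 < 1 - y - 3 * y ^ 2 + y ^ 3 := by
      nlinarith [h.y0, pow_pos h.y0 3]
    -- `2x^2 + 4xy^2 = 2x(x + 2y^2) < 0`
    have h2 : x * (x + y ^ 2) < 0 := mul_neg_of_neg_of_pos hx0 hw
    nlinarith [mul_nonneg (neg_nonneg.2 hx0.le) (sq_nonneg y)]
  have hr : ρ < 0.5444 := by
    have h1 : ρ ^ 2 < 0.2963 := by
      have h2 := h.r2
      have h3 : 0 < 1 - y := by linarith [h.y1]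
      have h4 : ρ ^ 2 * (1 - y) < 0.2963 * (1 - y) := by nlinarith
      exact lt_of_mul_lt_mul_right h4 h3.le
    nlinarith [h.r0]
  have hs := h.sb_big
  have ha := Real.sin_le_one α
  have h5 : 6 * ρ * Real.sin α ≤ 6 * ρ := by nlinarith [h.r0]
  have h6 : (1 + 0.46 * (ρ + 2) ^ 2) * 0.866 ≤ (1 + y * (ρ + 2) ^ 2) * Real.sin β := by
    apply mul_le_mul _ hs.le (by norm_num) (by have := h.y0; positivity)
    nlinarith [sq_nonneg (ρ + 2)]
  have h7 : 6 * ρ < (1 + 0.46 * (ρ + 2) ^ 2) * 0.866 := by nlinarith [h.r0]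
  linarith

/-- `x < 1/2` makes the quotient of the lengths smaller than `3/2`. -/
theorem R_x1 (hx0 : x < 1 / 2) :
    4 * ρ * Real.sin α < 3 * ((1 + y * (ρ + 2) ^ 2) * Real.sin β) := by
  have hrel := h.rel
  have hw := h.w_pos
  have hy5 : 0.2 < y := by
    by_contra hcon
    push Not at hcon
    have h1 : (x + y ^ 2) ^ 2 < (1 / 2 + y ^ 2) ^ 2 := by nlinarith
    nlinarith [h.y0, pow_pos h.y0 3]
  have hs := h.sb_big
  have ha := Real.sin_le_one α
  have h5 : 4 * ρ * Real.sin α ≤ 4 * ρ := by nlinarith [h.r0]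
  have h6 : (1 + 0.2 * (ρ + 2) ^ 2) * 0.866 ≤ (1 + y * (ρ + 2) ^ 2) * Real.sin β := by
    apply mul_le_mul _ hs.le (by norm_num) (by have := h.y0; positivity)
    nlinarith [sq_nonneg (ρ + 2)]
  have h7 : 4 * ρ < 3 * ((1 + 0.2 * (ρ + 2) ^ 2) * 0.866) := by nlinarith [h.r0, sq_nonneg (ρ - 2)]
  linarith

/-- The relation `2 α + 3 β = 2 π`. -/
theorem no23 (hs : 2 * α + 3 * β = 2 * π)
    (hR : 3 * ρ * Real.sin α = (1 + y * (ρ + 2) ^ 2) * Real.sin β) : False := by
  have hrel := h.rel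
  have hc : 2 * x ^ 2 - 1 = 4 * y ^ 3 - 3 * y := by
    have h1 : Real.cos (2 * α) = Real.cos (3 * β) := by
      rw [show 2 * α = 2 * π - 3 * β by linarith, Real.cos_two_pi_sub]
    rw [Real.cos_two_mul, Real.cos_three_mul, h.hx, h.hy] at h1
    exact h1
  have h1 : 3 * y ^ 2 + 3 * y - 2 + 4 * x * y = 0 := by
    have h2 : y * (3 * y ^ 2 + 3 * y - 2 + 4 * x * y) = 0 := by linear_combination hrel - hc
    exact (mul_eq_zero.1 h2).resolve_left h.y0.ne'
  have h3 : 32 * y ^ 4 + 23 * y ^ 3 - 19 * y ^ 2 - 8 * y + 4 = 0 := by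
    have h4 : (y - 1) * (32 * y ^ 4 + 23 * y ^ 3 - 19 * y ^ 2 - 8 * y + 4) = 0 := by
      have h5 : (2 - 3 * y - 3 * y ^ 2) ^ 2 = 8 * y ^ 2 * (2 * x ^ 2) := by
        have : 2 - 3 * y - 3 * y ^ 2 = 4 * x * y := by linarith
        rw [this]
        ring
      have h6 : 2 * x ^ 2 = 4 * y ^ 3 - 3 * y + 1 := by linarith
      rw [h6] at h5
      linear_combination -h5
    exact (mul_eq_zero.1 h4).resolve_left (by linarith [h.y1])
  have hy4 : 0.4 < y := by
    by_contra hcon
    push Not at hcon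
    nlinarith [h.y0, pow_pos h.y0 2, pow_pos h.y0 3, mul_nonneg (sq_nonneg y)
      (sub_nonneg.2 hcon), mul_nonneg h.y0.le (sub_nonneg.2 hcon), sq_nonneg (y ^ 2 - 0.16),
      sq_nonneg (y - 0.4), mul_nonneg (pow_pos h.y0 3).le (sub_nonneg.2 hcon)]
  have hr : ρ < 0.8166 := by
    have h1 : ρ ^ 2 < 0.6668 := by
      have h2 := h.r2
      have h3 : 0 < 1 - y := by linarith [h.y1]
      have h4 : ρ ^ 2 * (1 - y) < 0.6668 * (1 - y) := by nlinarith
      exact lt_of_mul_lt_mul_right h4 h3.le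
    nlinarith [h.r0]
  have hsb := h.sb_big
  have ha := Real.sin_le_one α
  have h5 : 3 * ρ * Real.sin α ≤ 3 * ρ := by nlinarith [h.r0]
  have h6 : (1 + 0.4 * (ρ + 2) ^ 2) * 0.866 ≤ (1 + y * (ρ + 2) ^ 2) * Real.sin β := by
    apply mul_le_mul _ hsb.le (by norm_num) (by have := h.y0; positivity)
    nlinarith [sq_nonneg (ρ + 2)]
  have h7 : 3 * ρ < (1 + 0.4 * (ρ + 2) ^ 2) * 0.866 := by nlinarith [h.r0]
  linarith

/-- The relation `α + 4 β = 2 π`. -/
theorem no14 (hs : α + 4 * β = 2 * π)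
    (hR : 8 * ρ * Real.sin α = (1 + y * (ρ + 2) ^ 2) * Real.sin β) : False := by
  have hrel := h.rel
  have hw := h.w_pos
  have hx4 : x = 8 * y ^ 4 - 8 * y ^ 2 + 1 := by
    rw [← h.hx, show α = 2 * π - 2 * (2 * β) by linarith, Real.cos_two_pi_sub, Real.cos_two_mul,
      Real.cos_two_mul, h.hy]
    ring
  have hs4 : Real.sin α = 4 * Real.sin β * y * (1 - 2 * y ^ 2) := by
    rw [show α = 2 * π - 2 * (2 * β) by linarith, Real.sin_two_pi_sub, Real.sin_two_mul,
      Real.sin_two_mul, Real.cos_two_mul, h.hy]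
    ring
  have hR' : 32 * ρ * y * (1 - 2 * y ^ 2) = 1 + y * (ρ + 2) ^ 2 := by
    have h1 : Real.sin β * (32 * ρ * y * (1 - 2 * y ^ 2)) =
        Real.sin β * (1 + y * (ρ + 2) ^ 2) := by
      rw [hs4] at hR
      linear_combination hR
    exact mul_left_cancel₀ h.sb_pos.ne' h1
  have hy2 : y < 0.425 := by
    by_contra hcon
    push Not at hcon
    have h1 : 0.180625 ≤ y ^ 2 := by nlinarith
    have h2 : y ^ 2 ≤ 0.25 := by nlinarith [h.y0, h.y1]
    rw [hx4] at hw
    nlinarith [mul_nonneg (sub_nonneg.2 h1) (sub_nonneg.2 h2)]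
  have hy1 : 0.25 ≤ y := by
    by_contra hcon
    push Not at hcon
    have h2 : 2 * (8 * y ^ 4 - 7 * y ^ 2 + 1) ^ 2 = 1 - y - 3 * y ^ 2 + y ^ 3 + 2 * y ^ 4 := by
      rw [hx4] at hrel
      linear_combination hrel
    have h3 : y ^ 2 < 0.0625 := by nlinarith [h.y0]
    have h4 : 1 - 7 * y ^ 2 < 8 * y ^ 4 - 7 * y ^ 2 + 1 := by nlinarith [pow_pos h.y0 4]
    have h5 : (1 - 7 * y ^ 2) ^ 2 < (8 * y ^ 4 - 7 * y ^ 2 + 1) ^ 2 := by
      apply pow_lt_pow_left₀ h4 (by nlinarith) (by norm_num)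
    -- `2 (1 - 7y²)² ≥ 1 - y - 3y² + y³ + 2y⁴`
    nlinarith [h.y0, pow_pos h.y0 2, pow_pos h.y0 3, pow_pos h.y0 4,
      mul_pos h.y0 (sub_pos.2 hcon), mul_pos (pow_pos h.y0 2) (sub_pos.2 hcon)]
  have h6 : 0.21875 ≤ y * (1 - 2 * y ^ 2) := by
    nlinarith [mul_nonneg (sub_nonneg.2 hy1) (sub_nonneg.2 hy2.le),
      mul_nonneg (mul_nonneg (sub_nonneg.2 hy1) (sub_nonneg.2 hy2.le)) h.y0.le]
  have hr1 : 0.7223 < ρ := by
    by_contra hcon
    push Not at hcon
    have h1 : ρ ^ 2 ≤ 0.7223 ^ 2 := pow_le_pow_left₀ h.r0.le hcon 2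
    have h2 := h.r2
    nlinarith [h.y1]
  have hr2 : ρ < 1.1548 := by
    by_contra hcon
    push Not at hcon
    have h1 : 1.1548 ^ 2 ≤ ρ ^ 2 := pow_le_pow_left₀ (by norm_num) hcon 2
    have h2 := h.r2
    nlinarith [h.y1]
  have h7 : 7 * ρ ≤ 32 * ρ * y * (1 - 2 * y ^ 2) := by nlinarith [h.r0]
  have h8 : 1 + y * (ρ + 2) ^ 2 ≤ 1 + 0.425 * (ρ + 2) ^ 2 := by nlinarith [sq_nonneg (ρ + 2)]
  nlinarith

/-- Commensurable angles do not occur. -/
theorem no_rat {N r s : ℕ} (hN : 0 < N) (hr : α = 2 * π * r / N) (hs : β = 2 * π * s / N) :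
    False := by
  have hrel := h.rel
  have hv1 : 0 < 2 * y := by linarith [h.y0]
  have hv2 : 2 * y < 1 := by linarith [h.y1]
  have hk := kron2 hN r s (2 * Real.cos α) (2 * Real.cos β) (by rw [hr]) (by rw [hs]) ∅ ∅
    (fun L hL => hL.elim) (fun M hM => hM.elim) 2 (by norm_num)
    (MvPolynomial.X 1 ^ 2 - 2)
    (MvPolynomial.X 0 ^ 2 * MvPolynomial.X 1 + MvPolynomial.X 0 * MvPolynomial.X 1 ^ 3 +
      6 * MvPolynomial.X 0 ^ 2 + 6 * MvPolynomial.X 0 * MvPolynomial.X 1 ^ 2 +
      9 * MvPolynomial.X 1 ^ 2 + 4 * MvPolynomial.X 1 - 11)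
    (by
      simp only [map_sub, map_add, map_mul, map_pow, MvPolynomial.aeval_X, map_ofNat,
        Matrix.cons_val_zero, Matrix.cons_val_one, h.hx, h.hy]
      push_cast
      linear_combination (-(16 * y + 48)) * hrel)
    (by
      intro t ht _ _
      simp only [map_sub, map_pow, MvPolynomial.aeval_X, map_ofNat]
      have h1 := ht 1
      push_cast
      rw [abs_le]
      constructor
      · nlinarith [sq_nonneg (t 1)]
      · nlinarith)
    (by
      simp only [map_sub, map_pow, MvPolynomial.aeval_X, map_ofNat, Matrix.cons_val_one,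
        Matrix.cons_val_fin_one, h.hy]
      intro h0
      nlinarith)
  simp only [map_sub, map_pow, MvPolynomial.aeval_X, map_ofNat, Matrix.cons_val_one,
    h.hy] at hk
  push_cast at hk
  rw [abs_of_neg (by nlinarith)] at hk
  nlinarith

end DatII

set_option maxHeartbeats 2000000 in
/-- **Class ii**: the angle `α` at two adjacent edges, `β` at the other four. -/
theorem two_ii {α β f g h κ : ℝ} (hα : 0 < α) (hα' : α < π) (hβ : 0 < β) (hβ' : β < π)
    (hf : 0 < f) (hg : 0 < g) (hh : 0 < h) (hκ : 0 < κ)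
    (e3 : f = 2 * g * Real.cos α + h * Real.cos β) (e0 : h = (f + 2 * g) * Real.cos β)
    (e1 : g = f * Real.cos α + g * Real.cos β + h * Real.cos β)
    (hv0 : π < 2 * α + β) (hv1 : π < α + 2 * β) (hv3 : π < 3 * β)
    {k : ℕ} (m : Fin k → ℕ × ℕ) (c : Fin k → ℝ)
    (hm : ∀ i, ((m i).1 : ℝ) * α + ((m i).2 : ℝ) * β = 2 * π)
    (hA : ∑ i, c i * ((m i).1 : ℝ) = κ * (2 * f * g * Real.sin α))
    (hB : ∑ i, c i * ((m i).2 : ℝ) = κ * ((g ^ 2 + h * f + 2 * h * g) * Real.sin β)) :
    False := by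
  obtain ⟨x, hx⟩ : ∃ x, Real.cos α = x := ⟨_, rfl⟩
  obtain ⟨y, hy⟩ : ∃ y, Real.cos β = y := ⟨_, rfl⟩
  rw [hx, hy] at e3 e1
  rw [hy] at e0
  have hfg : 0 < f + 2 * g := by linarith
  have y0 : 0 < y := by
    rw [e0] at hh
    exact (mul_pos_iff_of_pos_left hfg).1 hh
  have y1 : y < 1 / 2 := by
    by_contra hcon
    push Not at hcon
    have : β ≤ π / 3 := by
      by_contra hc2
      push Not at hc2
      have := Real.cos_lt_cos_of_nonneg_of_le_pi (by positivity) hβ'.le hc2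
      rw [Real.cos_pi_div_three, hy] at this
      linarith
    linarith
  have hβ2 : β < π / 2 := by
    by_contra hcon
    push Not at hcon
    have := Real.cos_nonpos_of_pi_div_two_le_of_le hcon (by linarith [pi_pos])
    linarith
  have D : DatII α β x y (f / g) := by
    refine ⟨hα, hα', hβ, hβ2, hx, hy, y0, y1, by positivity, ?_, ?_⟩
    · have : f * (1 - y ^ 2) = g * (2 * (x + y ^ 2)) := by
        rw [e0] at e3
        linear_combination e3
      field_simp
      linarith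
    · have h1 : f * (1 - y ^ 2) = g * (2 * (x + y ^ 2)) := by
        rw [e0] at e3
        linear_combination e3
      have h2 : g * ((1 + y) * (1 - 2 * y)) = f * (x + y ^ 2) := by
        rw [e0] at e1
        linear_combination e1
      have h3 : (1 + y) * (f ^ 2 * (1 - y)) = (1 + y) * (g ^ 2 * (2 * (1 - 2 * y))) := by
        linear_combination f * h1 - 2 * g * h2
      have h4 := mul_left_cancel₀ (show (1 + y) ≠ 0 by linarith) h3
      field_simp
      linarith
  have hsa := D.sa_pos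
  have hsb := D.sb_pos
  have hA0 : 0 < κ * (2 * f * g * Real.sin α) := by positivity
  rcases prop_or_two m c hA0 hA hB with ⟨i, j, hij⟩ | ⟨i, hi⟩
  · obtain ⟨N, r, s, hN, hr, hs⟩ := rat_of_two hα hβ (hm i) (hm j) hij
    exact D.no_rat hN hr hs
  · have hmi := hm i
    obtain ⟨P, hP⟩ : ∃ P, (m i).1 = P := ⟨_, rfl⟩
    obtain ⟨Q, hQ⟩ : ∃ Q, (m i).2 = Q := ⟨_, rfl⟩
    rw [hP, hQ] at hi hmi
    set ρ := f / g with hρ
    have hfρ : f = ρ * g := by rw [hρ]; field_simp
    have hR : 2 * ρ * Real.sin α * Q = (1 + y * (ρ + 2) ^ 2) * Real.sin β * P := by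
      have h1 : (κ * g ^ 2) * (2 * ρ * Real.sin α * Q) =
          (κ * g ^ 2) * ((1 + y * (ρ + 2) ^ 2) * Real.sin β * P) := by
        rw [e0, hfρ] at hi
        linear_combination hi
      exact mul_left_cancel₀ (by positivity) h1
    have hr0 := D.r0
    have hW : 0 < (1 + y * (ρ + 2) ^ 2) * Real.sin β := by positivity
    have hP0 : 0 < P := by
      rcases Nat.eq_zero_or_pos P with h0 | h0
      · exfalso
        rw [h0] at hR hmi
        have h1 : (Q : ℝ) = 0 := by
          have : 2 * ρ * Real.sin α * (Q : ℝ) = 0 := by rw [hR]; simp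
          rcases mul_eq_zero.1 this with h2 | h2
          · exact absurd h2 (by positivity)
          · exact h2
        rw [h1] at hmi
        simp at hmi
      · exact h0
    have hQ0 : 0 < Q := by
      rcases Nat.eq_zero_or_pos Q with h0 | h0
      · exfalso
        rw [h0] at hR
        have h1 : (P : ℝ) = 0 := by
          have : (1 + y * (ρ + 2) ^ 2) * Real.sin β * (P : ℝ) = 0 := by rw [← hR]; simp
          rcases mul_eq_zero.1 this with h2 | h2
          · exact absurd h2 hW.ne'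
          · exact h2
        have h2 : (0 : ℝ) < P := by exact_mod_cast hP0
        linarith
      · exact h0
    have hPR : (1 : ℝ) ≤ P := by exact_mod_cast hP0
    have hQR : (1 : ℝ) ≤ Q := by exact_mod_cast hQ0
    -- bounds
    have hneg : π / 2 < α → x < 0 := by
      intro ha
      rw [← hx]
      exact Real.cos_neg_of_pi_div_two_lt_of_lt ha (by linarith)
    have hhalf : π / 3 < α → x < 1 / 2 := by
      intro ha
      have := Real.cos_lt_cos_of_nonneg_of_le_pi (by positivity) hα'.le ha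
      rw [Real.cos_pi_div_three, hx] at this
      exact this
    rcases Nat.lt_or_ge Q 5 with hQ5 | hQ5
    swap
    · have h5 : (5 : ℝ) ≤ Q := by exact_mod_cast hQ5
      nlinarith
    rcases (show Q = 1 ∨ Q = 2 ∨ Q = 3 ∨ Q = 4 by omega) with h1 | h1 | h1 | h1
    · subst h1
      push_cast at hR hmi
      rcases (show P = 1 ∨ P = 2 ∨ P = 3 ∨ 4 ≤ P by omega) with h2 | h2 | h2 | h2
      · subst h2
        push_cast at hmi
        linarith
      · subst h2
        push_cast at hmi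
        have hx0 := hneg (by linarith)
        have h3 : y = 2 * x ^ 2 - 1 := by
          rw [← hy, show β = 2 * π - 2 * α by linarith, Real.cos_two_pi_sub, Real.cos_two_mul, hx]
        have h4 := D.w_pos
        nlinarith
      · subst h2
        push_cast at hmi hR
        have h3 := D.R_x0 (hneg (by linarith))
        nlinarith [mul_pos hr0 hsa]
      · have h4 : (4 : ℝ) ≤ P := by exact_mod_cast h2
        have h5 : 0.866 < (1 + y * (ρ + 2) ^ 2) * Real.sin β := by
          have h6 := D.sb_big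
          have h7 : 0 < y * (ρ + 2) ^ 2 := by positivity
          nlinarith
        have h8 := D.r_small
        have h9 : 2 * ρ * Real.sin α ≤ 2 * ρ := by nlinarith [Real.sin_le_one α]
        nlinarith
    · subst h1
      push_cast at hR hmi
      rcases (show P = 1 ∨ P = 2 ∨ P = 3 ∨ 4 ≤ P by omega) with h2 | h2 | h2 | h2
      · subst h2
        push_cast at hmi
        linarith
      · subst h2
        push_cast at hmi
        have h3 : x = -y := by
          rw [← hx, ← hy, show α = π - β by linarith, Real.cos_pi_sub]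
        have h4 := D.w_pos
        nlinarith
      · subst h2
        push_cast at hmi hR
        have h3 := D.R_x1 (hhalf (by linarith))
        linarith
      · have h4 : (4 : ℝ) ≤ P := by exact_mod_cast h2
        nlinarith
    · subst h1
      push_cast at hR hmi
      rcases (show P = 1 ∨ P = 2 ∨ 3 ≤ P by omega) with h2 | h2 | h2
      · subst h2
        push_cast at hmi hR
        have h3 := D.R_x0 (hneg (by linarith))
        linarith
      · subst h2
        push_cast at hmi hR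
        exact D.no23 hmi (by linarith)
      · have h4 : (3 : ℝ) ≤ P := by exact_mod_cast h2
        nlinarith
    · subst h1
      push_cast at hR hmi
      rcases (show P = 1 ∨ 2 ≤ P by omega) with h2 | h2
      · subst h2
        push_cast at hmi hR
        exact D.no14 (by linarith) (by linarith)
      · have h4 : (2 : ℝ) ≤ P := by exact_mod_cast h2
        nlinarith

end Pool.Agent.TET
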