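import Pool.Agent.TET.Kron2

set_option autoImplicit false

namespace Pool.Agent.TET

open Real

/-- The half angles of a tetrahedron with two distinct dihedral angles. -/
theorem two_v_half {α β f g : ℝ} (hα : 0 < α) (hα' : α < π) (hβ : 0 < β) (hβ' : β < π)
    (hf : 0 < f) (hg : 0 < g)
    (e1 : f * (1 - cos β) = g * (cos α + cos β))
    (e2 : g * (1 - cos α) = f * (cos α + cos β))
    (hM : 0 < 1 - 2 * cos α ^ 2 - cos β ^ 2 - 2 * cos α ^ 2 * cos β) :
    ∃ F G : ℝ, 0 < F ∧ 0 < G ∧ sin (α / 2) = F ∧ sin (β / 2) = G ∧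
      cos α = 1 - 2 * F ^ 2 ∧ cos β = 1 - 2 * G ^ 2 ∧ F ^ 2 + F * G + G ^ 2 = 1 ∧
      f * G = g * F ∧ F ^ 2 - 3 * (F * G) + G ^ 2 < 0 := by
  have hF : 0 < sin (α / 2) := sin_pos_of_pos_of_lt_pi (by linarith) (by linarith)
  have hG : 0 < sin (β / 2) := sin_pos_of_pos_of_lt_pi (by linarith) (by linarith)
  have hcα : cos α = 1 - 2 * sin (α / 2) ^ 2 := by
    have h1 := cos_two_mul (α / 2)
    rw [mul_div_cancel₀ _ (two_ne_zero' ℝ)] at h1
    nlinarith [sin_sq_add_cos_sq (α / 2)]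
  have hcβ : cos β = 1 - 2 * sin (β / 2) ^ 2 := by
    have h1 := cos_two_mul (β / 2)
    rw [mul_div_cancel₀ _ (two_ne_zero' ℝ)] at h1
    nlinarith [sin_sq_add_cos_sq (β / 2)]
  refine ⟨sin (α / 2), sin (β / 2), hF, hG, rfl, rfl, hcα, hcβ, ?_⟩
  generalize sin (α / 2) = F at *
  generalize sin (β / 2) = G at *
  rw [hcα, hcβ] at e1 e2 hM
  have hs : 0 < 1 - 2 * F ^ 2 + (1 - 2 * G ^ 2) := by
    have h1 : 0 < f * (1 - (1 - 2 * G ^ 2)) := mul_pos hf (by nlinarith)
    rw [e1] at h1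
    exact (pos_iff_pos_of_mul_pos h1).1 hg
  have hsq : (1 - 2 * F ^ 2 + (1 - 2 * G ^ 2)) ^ 2 = (2 * F * G) ^ 2 := by
    have h1 : f * g * ((1 - 2 * F ^ 2 + (1 - 2 * G ^ 2)) ^ 2 - (2 * F * G) ^ 2) = 0 := by
      linear_combination (-(f * (1 - 2 * F ^ 2 + (1 - 2 * G ^ 2)))) * e1 -
        (f * (1 - (1 - 2 * G ^ 2))) * e2
    rcases mul_eq_zero.1 h1 with h | h
    · exact absurd h (mul_pos hf hg).ne'
    · linarith
  have hs2 : 1 - 2 * F ^ 2 + (1 - 2 * G ^ 2) = 2 * F * G :=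
    (sq_eq_sq₀ hs.le (by positivity)).1 hsq
  have h1 : F ^ 2 + F * G + G ^ 2 = 1 := by linarith
  refine ⟨h1, ?_, ?_⟩
  · rw [hs2] at e1
    have h2 : 2 * G * (f * G - g * F) = 0 := by linarith
    rcases mul_eq_zero.1 h2 with h | h
    · linarith
    · linarith
  · have h2 : 0 < 2 * (1 - G ^ 2) * (G ^ 2 - (1 - 2 * F ^ 2) ^ 2) := by nlinarith
    have hG1 : 0 < 1 - G ^ 2 := by nlinarith [mul_pos hF hG]
    have h3 : 0 < G ^ 2 - (1 - 2 * F ^ 2) ^ 2 := (pos_iff_pos_of_mul_pos h2).1 (by linarith)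
    have h4 : G ^ 2 - (1 - 2 * F ^ 2) ^ 2 =
        -(F * (F + G) * (F ^ 2 - 3 * (F * G) + G ^ 2)) := by
      have h5 : 1 - 2 * F ^ 2 = G ^ 2 + F * G - F ^ 2 := by linarith
      rw [h5]
      linear_combination (-(G ^ 2)) * h1
    rw [h4] at h3
    have h6 : 0 < F * (F + G) := by positivity
    by_contra hcon
    push Not at hcon
    nlinarith [mul_nonneg h6.le hcon]

/-- Commensurable angles. -/
theorem two_v_rat {α β F G : ℝ} (hα : 0 < α) (hα' : α < π) (hβ : 0 < β)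
    (sF : sin (α / 2) = F) (sG : sin (β / 2) = G)
    (h1 : F ^ 2 + F * G + G ^ 2 = 1) (hsum : α + β < π)
    (hlt : F ^ 2 - 3 * (F * G) + G ^ 2 < 0) {N r s : ℕ} (hN : 0 < N)
    (hr : α = 2 * π * r / N) (hs : β = 2 * π * s / N) : False := by
  have hNR : (0 : ℝ) < N := by exact_mod_cast hN
  have hsN : s ≤ N := by
    by_contra hcon
    push Not at hcon
    have h2 : (N : ℝ) < s := by exact_mod_cast hcon
    have h3 : β * N = 2 * π * s := by rw [hs]; field_simp
    nlinarith [Real.pi_pos]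
  set w1 : ℝ := 2 * cos ((α + β) / 2) with hw1
  set w2 : ℝ := 2 * cos ((α - β) / 2) with hw2
  have hw1p : 0 < w1 := by
    have := cos_pos_of_mem_Ioo (x := (α + β) / 2) ⟨by linarith, by linarith⟩
    linarith
  have hrel : w2 - w1 = 4 * (F * G) := by
    rw [hw1, hw2, add_div, sub_div, cos_add, cos_sub, sF, sG]
    ring
  have hprod : w1 * w2 = 4 * (F * G) := by
    have h3 : cos (α / 2) ^ 2 = 1 - F ^ 2 := by
      have := sin_sq_add_cos_sq (α / 2)
      rw [sF] at this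
      linarith
    have h4 : cos (β / 2) ^ 2 = 1 - G ^ 2 := by
      have := sin_sq_add_cos_sq (β / 2)
      rw [sG] at this
      linarith
    rw [hw1, hw2, add_div, sub_div, cos_add, cos_sub, sF, sG]
    linear_combination 4 * cos (β / 2) ^ 2 * h3 + 4 * (1 - F ^ 2) * h4 - 4 * h1
  have hw1lt : w1 < 2 := by
    have h3 : cos ((α + β) / 2) < cos 0 :=
      cos_lt_cos_of_nonneg_of_le_pi le_rfl (by linarith) (by linarith)
    rw [cos_zero] at h3
    linarith
  have key : ∀ t0 t1 : ℝ, -2 ≤ t0 → t0 ≤ 2 → -2 ≤ t1 → t1 ≤ 2 → t0 * t1 - t1 + t0 = 0 →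
      t0 - 2 ≠ 0 → t0 ≤ 2 / 3 := by
    intro t0 t1 a0 a1 b0 b1 hL hne
    have h3 : t1 * (1 - t0) = t0 := by linarith
    have h4 : t0 ^ 2 ≤ 4 * (1 - t0) ^ 2 := by
      have : t0 ^ 2 = t1 ^ 2 * (1 - t0) ^ 2 := by rw [← mul_pow, h3]
      rw [this]
      exact mul_le_mul_of_nonneg_right (by nlinarith) (sq_nonneg _)
    have h5 : t0 < 2 := lt_of_le_of_ne a1 fun h => hne (by linarith)
    nlinarith
  have hy : w2 = 2 * Real.cos (2 * π * ((r + 2 * N - s : ℕ) : ℝ) / ((2 * N : ℕ) : ℝ)) := by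
    rw [Nat.cast_sub (by omega), hw2]
    push_cast
    have : 2 * π * ((r : ℝ) + 2 * N - s) / (2 * N) = (α - β) / 2 + 2 * π := by
      rw [hr, hs]
      field_simp
      ring
    rw [this, cos_add_two_pi]
  have hx : w1 = 2 * Real.cos (2 * π * ((r + s : ℕ) : ℝ) / ((2 * N : ℕ) : ℝ)) := by
    rw [hw1]
    push_cast
    have : 2 * π * ((r : ℝ) + s) / (2 * N) = (α + β) / 2 := by
      rw [hr, hs]
      field_simp
    rw [this]
  have hw13 : w1 ≤ 2 / 3 := by
    have b0 : -2 ≤ w2 ∧ w2 ≤ 2 := by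
      rw [hw2]
      constructor
      · linarith [neg_one_le_cos ((α - β) / 2)]
      · linarith [cos_le_one ((α - β) / 2)]
    exact key w1 w2 (by linarith) hw1lt.le b0.1 b0.2 (by linarith) (by linarith)
  by_cases hne : w1 ^ 3 + 2 * w1 ^ 2 - 1 = 0
  · have h3 : (w1 + 1) * (w1 ^ 2 + w1 - 1) = 0 := by linear_combination hne
    rcases mul_eq_zero.1 h3 with h | h
    · linarith
    · have h4 : (1 - w1) * w2 = w1 := by linarith
      have h5 : w1 * (w1 * w2 - 1) = 0 := by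
        have : 1 - w1 = w1 ^ 2 := by linarith
        rw [this] at h4
        linear_combination h4
      rcases mul_eq_zero.1 h5 with h6 | h6
      · linarith
      · have : 4 * (F * G) = 1 := by linarith
        linarith
  · have hk := kron2 (N := 2 * N) (by omega) (r + s) (r + 2 * N - s) w1 w2 hx hy
      {MvPolynomial.X 0 * MvPolynomial.X 1 - MvPolynomial.X 1 + MvPolynomial.X 0}
      {MvPolynomial.X 0 - 2}
      (by
        intro L hL
        rw [Set.mem_singleton_iff] at hL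
        subst hL
        simp only [map_sub, map_add, map_mul, MvPolynomial.aeval_X, Matrix.cons_val_zero,
          Matrix.cons_val_one]
        linarith)
      (by
        intro M hM
        rw [Set.mem_singleton_iff] at hM
        subst hM
        simp only [map_sub, MvPolynomial.aeval_X, map_ofNat, Matrix.cons_val_zero]
        intro h
        linarith)
      1 one_pos
      (MvPolynomial.X 0 ^ 3 + 2 * MvPolynomial.X 0 ^ 2 - 1)
      ((MvPolynomial.X 0 ^ 3 + 2 * MvPolynomial.X 0 ^ 2 - 1) ^ 2)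
      (by simp only [map_pow, Nat.cast_one, one_pow, one_mul])
      (by
        intro t ht hL hM
        have hL := hL _ (Set.mem_singleton _)
        have hM := hM _ (Set.mem_singleton _)
        simp only [map_sub, map_add, map_mul, map_pow, map_one, MvPolynomial.aeval_X,
          map_ofNat] at hL hM ⊢
        have h3 := key (t 0) (t 1) (ht 0).1 (ht 0).2 (ht 1).1 (ht 1).2 hL hM
        have h4 := (ht 0).1
        rw [Nat.cast_one, abs_le]
        constructor
        · nlinarith [mul_nonneg (sq_nonneg (t 0)) (show 0 ≤ t 0 + 2 by linarith)]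
        · have h5 : t 0 ^ 2 * (t 0 + 2) ≤ 2 := by
            have h6 : (0 : ℝ) ≤ (t 0 + 2) * (2 / 3 - t 0) :=
              mul_nonneg (by linarith) (by linarith)
            nlinarith [mul_nonneg (show (0 : ℝ) ≤ 2 / 3 - t 0 by linarith)
              (sq_nonneg (t 0 + 4 / 3)), sq_nonneg (t 0)]
          nlinarith)
      (by
        simp only [map_sub, map_add, map_mul, map_pow, map_one, MvPolynomial.aeval_X,
          map_ofNat, Matrix.cons_val_zero]
        exact hne)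
    simp only [map_sub, map_add, map_mul, map_pow, map_one, MvPolynomial.aeval_X,
      map_ofNat, Matrix.cons_val_zero, Nat.cast_one] at hk
    have h3 : -1 < w1 ^ 3 + 2 * w1 ^ 2 - 1 := by nlinarith [pow_pos hw1p 3, pow_pos hw1p 2]
    have h4 : w1 ^ 3 + 2 * w1 ^ 2 - 1 < 1 := by
      have h5 : w1 ^ 2 ≤ (2 / 3) ^ 2 := pow_le_pow_left₀ hw1p.le hw13 2
      have h6 : w1 ^ 3 ≤ (2 / 3) ^ 3 := pow_le_pow_left₀ hw1p.le hw13 3
      norm_num at h5 h6
      linarith
    have h5 := abs_lt.2 ⟨h3, h4⟩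
    rw [hk] at h5
    exact lt_irrefl _ h5

/-- One relation. -/
theorem two_v_one {α β f g F G κ : ℝ} (hα : 0 < α) (hβ : 0 < β) (hf : 0 < f) (hκ : 0 < κ)
    (hF : 0 < F) (hG : 0 < G) (sF : sin (α / 2) = F) (sG : sin (β / 2) = G)
    (h1 : F ^ 2 + F * G + G ^ 2 = 1) (hsum : α + β < π) (hsum' : 2 * π < 3 * (α + β))
    (hρ : f * G = g * F)
    (hlt : F ^ 2 - 3 * (F * G) + G ^ 2 < 0) {P Q : ℕ} (hPQ : (P : ℝ) * α + Q * β = 2 * π)
    (h : κ * ((2 * f * g + g ^ 2) * sin α) * Q = κ * ((2 * f * g + f ^ 2) * sin β) * P) :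
    False := by
  have hcα : 0 < cos (α / 2) := cos_pos_of_mem_Ioo ⟨by linarith, by linarith⟩
  have hcβ : 0 < cos (β / 2) := cos_pos_of_mem_Ioo ⟨by linarith, by linarith⟩
  have hcα2 : cos (α / 2) ^ 2 = G * (F + G) := by
    have := sin_sq_add_cos_sq (α / 2)
    rw [sF] at this
    linarith
  have hcβ2 : cos (β / 2) ^ 2 = F * (F + G) := by
    have := sin_sq_add_cos_sq (β / 2)
    rw [sG] at this
    linarith
  have hsα : sin α = 2 * F * cos (α / 2) := by
    have := sin_two_mul (α / 2)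
    rw [mul_div_cancel₀ _ (two_ne_zero' ℝ), sF] at this
    exact this
  have hsβ : sin β = 2 * G * cos (β / 2) := by
    have := sin_two_mul (β / 2)
    rw [mul_div_cancel₀ _ (two_ne_zero' ℝ), sG] at this
    exact this
  -- scale
  obtain ⟨t, ht, hft, hgt⟩ : ∃ t : ℝ, 0 < t ∧ f = F * t ∧ g = G * t := by
    refine ⟨f / F, div_pos hf hF, ?_, ?_⟩
    · field_simp
    · field_simp
      linarith
  have h2 : G * (2 * F + G) * (F * cos (α / 2)) * Q = F * (2 * G + F) * (G * cos (β / 2)) * P := by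
    rw [hsα, hsβ, hft, hgt] at h
    have h3 : (2 * κ * t ^ 2) * (G * (2 * F + G) * (F * cos (α / 2)) * Q -
        F * (2 * G + F) * (G * cos (β / 2)) * P) = 0 := by linear_combination h
    rcases mul_eq_zero.1 h3 with h4 | h4
    · exact absurd h4 (by positivity)
    · linarith
  have h3 : (2 * F + G) * cos (α / 2) * Q = (2 * G + F) * cos (β / 2) * P := by
    have h4 : (F * G) * ((2 * F + G) * cos (α / 2) * Q - (2 * G + F) * cos (β / 2) * P) = 0 := by
      linear_combination h2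
    rcases mul_eq_zero.1 h4 with h5 | h5
    · exact absurd h5 (by positivity)
    · linarith
  have h4 : G * (2 * F + G) ^ 2 * (Q : ℝ) ^ 2 = F * (2 * G + F) ^ 2 * (P : ℝ) ^ 2 := by
    have h5 : ((2 * F + G) * cos (α / 2) * Q) ^ 2 = ((2 * G + F) * cos (β / 2) * P) ^ 2 := by
      rw [h3]
    have h6 : (F + G) * (G * (2 * F + G) ^ 2 * (Q : ℝ) ^ 2 - F * (2 * G + F) ^ 2 * (P : ℝ) ^ 2)
        = 0 := by
      linear_combination h5 - (2 * F + G) ^ 2 * (Q : ℝ) ^ 2 * hcα2 +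
        (2 * G + F) ^ 2 * (P : ℝ) ^ 2 * hcβ2
    rcases mul_eq_zero.1 h6 with h7 | h7
    · linarith
    · linarith
  have hPQ0 : 0 < P ∨ 0 < Q := by
    by_contra hcon
    push Not at hcon
    have hP : P = 0 := by omega
    have hQ : Q = 0 := by omega
    subst hP
    subst hQ
    simp at hPQ
  have hA : 0 < G * (2 * F + G) ^ 2 := by positivity
  have hB : 0 < F * (2 * G + F) ^ 2 := by positivity
  have hFF : F ^ 3 < 3 * (F ^ 2 * G) - F * G ^ 2 := by
    have := mul_neg_of_pos_of_neg hF hlt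
    linarith
  have hGG : G ^ 3 < 3 * (G ^ 2 * F) - G * F ^ 2 := by
    have := mul_neg_of_pos_of_neg hG hlt
    linarith
  have hFG2 : 0 < F ^ 2 * G := by positivity
  have hGF2 : 0 < F * G ^ 2 := by positivity
  have hc1 : 4 * (F * (2 * G + F) ^ 2) < 9 * (G * (2 * F + G) ^ 2) := by
    have : 0 < G ^ 3 := by positivity
    linarith
  have hc2 : 4 * (G * (2 * F + G) ^ 2) < 9 * (F * (2 * G + F) ^ 2) := by
    have : 0 < F ^ 3 := by positivity
    linarith
  have hP0 : 0 < P := by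
    rcases hPQ0 with h5 | h5
    · exact h5
    · by_contra hcon
      have hP : P = 0 := by omega
      subst hP
      have h6 : (0 : ℝ) < Q := by exact_mod_cast h5
      have h7 : 0 < G * (2 * F + G) ^ 2 * (Q : ℝ) ^ 2 := by positivity
      rw [h4] at h7
      simp at h7
  have hQ0 : 0 < Q := by
    by_contra hcon
    have hQ : Q = 0 := by omega
    subst hQ
    have h6 : (0 : ℝ) < P := by exact_mod_cast hP0
    have h7 : 0 < F * (2 * G + F) ^ 2 * (P : ℝ) ^ 2 := by positivity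
    rw [← h4] at h7
    simp at h7
  have hPR : (0 : ℝ) < P := by exact_mod_cast hP0
  have hQR : (0 : ℝ) < Q := by exact_mod_cast hQ0
  have hq : 2 * Q < 3 * P := by
    by_contra hcon
    push Not at hcon
    have h5 : 3 * (P : ℝ) ≤ 2 * Q := by exact_mod_cast hcon
    have h6 : 9 * (P : ℝ) ^ 2 ≤ 4 * (Q : ℝ) ^ 2 := by
      have := pow_le_pow_left₀ (by positivity) h5 2
      linarith
    have h7 : F * (2 * G + F) ^ 2 * (9 * (P : ℝ) ^ 2) ≤ F * (2 * G + F) ^ 2 * (4 * (Q : ℝ) ^ 2) :=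
      mul_le_mul_of_nonneg_left h6 hB.le
    have h8 : 4 * (F * (2 * G + F) ^ 2) * (Q : ℝ) ^ 2 < 9 * (G * (2 * F + G) ^ 2) * (Q : ℝ) ^ 2 :=
      mul_lt_mul_of_pos_right hc1 (by positivity)
    linarith
  have hp : 2 * P < 3 * Q := by
    by_contra hcon
    push Not at hcon
    have h5 : 3 * (Q : ℝ) ≤ 2 * P := by exact_mod_cast hcon
    have h6 : 9 * (Q : ℝ) ^ 2 ≤ 4 * (P : ℝ) ^ 2 := by
      have := pow_le_pow_left₀ (by positivity) h5 2
      linarith
    have h7 : G * (2 * F + G) ^ 2 * (9 * (Q : ℝ) ^ 2) ≤ G * (2 * F + G) ^ 2 * (4 * (P : ℝ) ^ 2) :=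
      mul_le_mul_of_nonneg_left h6 hA.le
    have h8 : 4 * (G * (2 * F + G) ^ 2) * (P : ℝ) ^ 2 < 9 * (F * (2 * G + F) ^ 2) * (P : ℝ) ^ 2 :=
      mul_lt_mul_of_pos_right hc2 (by positivity)
    linarith
  rcases (by omega : (3 ≤ P ∧ 3 ≤ Q) ∨ (P ≤ 2 ∧ Q ≤ 2)) with ⟨h5, h6⟩ | ⟨h5, h6⟩
  · have h5 : (3 : ℝ) ≤ P := by exact_mod_cast h5
    have h6 : (3 : ℝ) ≤ Q := by exact_mod_cast h6
    have h7 := mul_le_mul_of_nonneg_right h5 hα.le
    have h8 := mul_le_mul_of_nonneg_right h6 hβ.le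
    linarith
  · have h5 : (P : ℝ) ≤ 2 := by exact_mod_cast h5
    have h6 : (Q : ℝ) ≤ 2 := by exact_mod_cast h6
    have h7 := mul_le_mul_of_nonneg_right h5 hα.le
    have h8 := mul_le_mul_of_nonneg_right h6 hβ.le
    linarith

/-- No cone relation in the class of two distinct dihedral angles. -/
theorem two_v {α β f g κ : ℝ} (hα : 0 < α) (hα' : α < π) (hβ : 0 < β) (hβ' : β < π)
    (hf : 0 < f) (hg : 0 < g) (hκ : 0 < κ)
    (e1 : f * (1 - cos β) = g * (cos α + cos β))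
    (e2 : g * (1 - cos α) = f * (cos α + cos β))
    (hM : 0 < 1 - 2 * cos α ^ 2 - cos β ^ 2 - 2 * cos α ^ 2 * cos β)
    {k : ℕ} (m : Fin k → ℕ × ℕ) (c : Fin k → ℝ)
    (hm : ∀ i, ((m i).1 : ℝ) * α + ((m i).2 : ℝ) * β = 2 * π)
    (hA : ∑ i, c i * ((m i).1 : ℝ) = κ * ((2 * f * g + g ^ 2) * sin α))
    (hB : ∑ i, c i * ((m i).2 : ℝ) = κ * ((2 * f * g + f ^ 2) * sin β)) : False := by
  obtain ⟨F, G, hF, hG, sF, sG, cF, cG, h1, hρ, hlt⟩ :=
    two_v_half hα hα' hβ hβ' hf hg e1 e2 hM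
  have hxy : 0 < cos α + cos β := by
    rw [cF, cG]
    nlinarith [mul_pos hF hG]
  have hsum : α + β < π := by
    by_contra hcon
    push Not at hcon
    have h2 : cos α ≤ cos (π - β) :=
      cos_le_cos_of_nonneg_of_le_pi (by linarith) hα'.le (by linarith)
    rw [cos_pi_sub] at h2
    linarith
  have hsum' : 2 * π < 3 * (α + β) := by
    by_contra hcon
    push Not at hcon
    have h2 : cos (π / 3) ≤ cos (α / 2 + β / 2) :=
      cos_le_cos_of_nonneg_of_le_pi (by linarith) (by linarith [Real.pi_pos]) (by linarith)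
    rw [cos_pi_div_three] at h2
    have h3 : sin (α / 2 + β / 2) ^ 2 = F ^ 2 + G ^ 2 + 2 * (F * G) * cos (α / 2 + β / 2) := by
      have hc1 := sin_sq_add_cos_sq (α / 2)
      have hc2 := sin_sq_add_cos_sq (β / 2)
      rw [sF] at hc1
      rw [sG] at hc2
      rw [sin_add, cos_add, sF, sG]
      linear_combination F ^ 2 * hc2 + G ^ 2 * hc1
    have h4 := sin_sq_add_cos_sq (α / 2 + β / 2)
    nlinarith [mul_pos hF hG]
  have hApos : 0 < κ * ((2 * f * g + g ^ 2) * sin α) := by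
    have := sin_pos_of_pos_of_lt_pi hα hα'
    positivity
  rcases prop_or_two m c hApos hA hB with ⟨i, j, hij⟩ | ⟨i, hi⟩
  · obtain ⟨N, r, s, hN, hr, hs⟩ := rat_of_two hα hβ (hm i) (hm j) hij
    exact two_v_rat hα hα' hβ sF sG h1 hsum hlt hN hr hs
  · exact two_v_one hα hβ hf hκ hF hG sF sG h1 hsum hsum' hρ hlt (hm i) hi

end Pool.Agent.TET
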