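import Pool.Agent.TET.Shape4

set_option autoImplicit false

namespace Pool.Agent.TET

open InnerProductGeometry Real
open scoped RealInnerProductSpace

/-- One corner: from the Gram data to the angles. -/
theorem vertM_aux {ra rb rc rab rac rbc D A B C x y z : ℝ} (hA : 0 < A) (hB : 0 < B)
    (hC : 0 < C) (ha : A ^ 2 = ra) (hb : B ^ 2 = rb) (hc : C ^ 2 = rc)
    (hx : x = -rbc / (B * C)) (hy : y = -rac / (A * C)) (hz : z = -rab / (A * B)) (hD : 0 < D)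
    (h : ra * rb * rc - ra * rbc ^ 2 - rb * rac ^ 2 - rc * rab ^ 2 + 2 * rab * rac * rbc = D ^ 2) :
    0 < 1 - x ^ 2 - y ^ 2 - z ^ 2 - 2 * x * y * z := by
  have h1 : (1 - x ^ 2 - y ^ 2 - z ^ 2 - 2 * x * y * z) * (A ^ 2 * B ^ 2 * C ^ 2) = D ^ 2 := by
    rw [← h, hx, hy, hz, ← ha, ← hb, ← hc]
    field_simp
    ring
  have h2 : 0 < (1 - x ^ 2 - y ^ 2 - z ^ 2 - 2 * x * y * z) * (A ^ 2 * B ^ 2 * C ^ 2) := by
    rw [h1]; positivity
  exact (mul_pos_iff_of_pos_right (by positivity)).1 h2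

section
variable {V : Type*} [NormedAddCommGroup V] [InnerProductSpace ℝ V]

/-- The three dihedral angles at each corner are the angles of a spherical triangle. -/
theorem vertM (v : Fin 4 → V) (hv : AffineIndependent ℝ v) :
    (0 < 1 - Real.cos (edih v 0) ^ 2 - Real.cos (edih v 1) ^ 2 - Real.cos (edih v 2) ^ 2 -
      2 * Real.cos (edih v 0) * Real.cos (edih v 1) * Real.cos (edih v 2)) ∧
    (0 < 1 - Real.cos (edih v 0) ^ 2 - Real.cos (edih v 3) ^ 2 - Real.cos (edih v 4) ^ 2 -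
      2 * Real.cos (edih v 0) * Real.cos (edih v 3) * Real.cos (edih v 4)) ∧
    (0 < 1 - Real.cos (edih v 1) ^ 2 - Real.cos (edih v 3) ^ 2 - Real.cos (edih v 5) ^ 2 -
      2 * Real.cos (edih v 1) * Real.cos (edih v 3) * Real.cos (edih v 5)) ∧
    (0 < 1 - Real.cos (edih v 2) ^ 2 - Real.cos (edih v 4) ^ 2 - Real.cos (edih v 5) ^ 2 -
      2 * Real.cos (edih v 2) * Real.cos (edih v 4) * Real.cos (edih v 5)) := by
  have hD := D_pos v hv
  obtain ⟨n0, n1, n2, n3⟩ := r_nonneg v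
  obtain ⟨⟨p0, q0⟩, ⟨-, q1⟩, ⟨-, q2⟩, ⟨-, q3⟩, ⟨-, q4⟩, ⟨p5, q5⟩⟩ := edges v hv.injective
  have hl : ∀ e, 0 < elen v e := by
    intro e
    unfold elen
    refine dist_pos.2 (hv.injective.ne ?_)
    fin_cases e <;> decide
  have k1 := pos_of_prod (hl 0) hD n2 n3 p0
  have k2 := pos_of_prod (hl 5) hD n0 n1 p5
  set h := six v with hh
  have s0 : 0 < √h.r00 := Real.sqrt_pos.2 k2.1
  have s1 : 0 < √h.r11 := Real.sqrt_pos.2 k2.2
  have s2 : 0 < √h.r22 := Real.sqrt_pos.2 k1.1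
  have s3 : 0 < √h.r33 := Real.sqrt_pos.2 k1.2
  have t0 : √h.r00 ^ 2 = h.r00 := Real.sq_sqrt n0
  have t1 : √h.r11 ^ 2 = h.r11 := Real.sq_sqrt n1
  have t2 : √h.r22 ^ 2 = h.r22 := Real.sq_sqrt n2
  have t3 : √h.r33 ^ 2 = h.r33 := Real.sq_sqrt n3
  refine ⟨?_, ?_, ?_, ?_⟩
  · refine vertM_aux s1 s2 s3 t1 t2 t3 q0 q1 q2 hD ?_
    simp only [Six.r11, Six.r22, Six.r33, Six.r12, Six.r13, Six.r23, Six.D]; ring
  · refine vertM_aux s0 s2 s3 t0 t2 t3 q0 q3 q4 hD ?_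
    simp only [Six.r11, Six.r22, Six.r33, Six.r12, Six.r13, Six.r23,
      Six.r01, Six.r02, Six.r03, Six.r00, Six.D]; ring
  · refine vertM_aux s0 s1 s3 t0 t1 t3 q1 q3 q5 hD ?_
    simp only [Six.r11, Six.r22, Six.r33, Six.r12, Six.r13, Six.r23,
      Six.r01, Six.r02, Six.r03, Six.r00, Six.D]; ring
  · refine vertM_aux s0 s1 s2 t0 t1 t2 q2 q4 q5 hD ?_
    simp only [Six.r11, Six.r22, Six.r33, Six.r12, Six.r13, Six.r23,
      Six.r01, Six.r02, Six.r03, Six.r00, Six.D]; ring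

end

end Pool.Agent.TET
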