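import Pool.Agent.TET.Sym5
import Pool.Agent.TET.Vert
import Pool.Agent.TET.Relab
import Pool.Agent.TET.TwoI
import Pool.Agent.TET.TwoII
import Pool.Agent.TET.TwoV
import Pool.Agent.TetRel.AreasV
import Pool.Agent.TetRel.Main
import Pool.Agent.TetRel.Sommer

set_option autoImplicit false

namespace Pool.Agent.TET

open Real Pool.Agent.TetRel

theorem tiles_comp {v : Fin 4 → E3} (h : TetRel.Tiles v) (τ : Equiv.Perm (Fin 4)) :
    TetRel.Tiles (v ∘ τ) := by
  unfold TetRel.Tiles at h ⊢
  rw [EquivLike.range_comp]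
  exact h

theorem coneCond (v : Fin 4 → E3) (hv : AffineIndependent ℝ v) (h : TetRel.Tiles v) :
    ConeCond v := by
  obtain ⟨k, n, c, -, -, h2, h3, h4⟩ := cone v hv h
  exact ⟨k, n, c, h2, h3, h4⟩

theorem len_phi (v : Fin 4 → E3) (hv : AffineIndependent ℝ v) :
    ∃ s : ℝ, ∀ e, len v e = s * (Real.sin (TetRel.dih v e) *
      xfun (fun i => Real.cos (TetRel.dih v i)) e) := by
  obtain ⟨s, -, hs⟩ := len_eq v hv
  exact ⟨s, hs⟩

/-- Projection of the cone condition to two classes of edges. -/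
theorem proj (v : Fin 4 → E3) (hc : ConeCond v) {α β : ℝ} (ψ : Fin 6 → Bool)
    (hψ : ∀ e, TetRel.dih v e = if ψ e then α else β) :
    ∃ (k : ℕ) (m : Fin k → ℕ × ℕ) (c : Fin k → ℝ),
      (∀ i, ((m i).1 : ℝ) * α + ((m i).2 : ℝ) * β = 2 * π) ∧
      (∑ i, c i * ((m i).1 : ℝ) = ∑ e, if ψ e then len v e else 0) ∧
      (∑ i, c i * ((m i).2 : ℝ) = ∑ e, if ψ e then 0 else len v e) := by
  obtain ⟨k, n, c, hn, -, hl⟩ := hc
  refine ⟨k, fun i => (∑ e, if ψ e then n i e else 0, ∑ e, if ψ e then 0 else n i e), c,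
    fun i => ?_, ?_, ?_⟩
  · rw [← hn i]
    push_cast
    rw [Finset.sum_mul, Finset.sum_mul, ← Finset.sum_add_distrib]
    refine Finset.sum_congr rfl fun e _ => ?_
    rw [hψ e]
    by_cases h : ψ e = true
    · simp [h]
    · simp [h]
  · push_cast
    simp only [Finset.mul_sum]
    rw [Finset.sum_comm]
    refine Finset.sum_congr rfl fun e _ => ?_
    by_cases h : ψ e = true
    · simp only [h, if_true]
      exact (hl e).symm
    · simp [h]
  · push_cast
    simp only [Finset.mul_sum]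
    rw [Finset.sum_comm]
    refine Finset.sum_congr rfl fun e _ => ?_
    by_cases h : ψ e = true
    · simp [h]
    · simp only [h]
      simp only [Bool.false_eq_true, if_false]
      exact (hl e).symm

/-- Three edges at a corner against the other three (regular included). -/
theorem pat_star (v : Fin 4 → E3) (hv : AffineIndependent ℝ v) (hc : ConeCond v) {α β : ℝ}
    (h0 : TetRel.dih v 0 = β) (h1 : TetRel.dih v 1 = β) (h2 : TetRel.dih v 2 = β)
    (h3 : TetRel.dih v 3 = α) (h4 : TetRel.dih v 4 = α) (h5 : TetRel.dih v 5 = α) : False := by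
  obtain ⟨s, hs⟩ := len_phi v hv
  have e0 := hs 0
  have e1 := hs 1
  have e2 := hs 2
  have e3 := hs 3
  have e4 := hs 4
  have e5 := hs 5
  simp only [xfun, Matrix.cons_val, h0, h1, h2, h3, h4, h5] at e0 e1 e2 e3 e4 e5
  exact classB v hv hc (a := len v 3) (b := len v 0) rfl (e1.trans e0.symm) (e2.trans e0.symm)
    rfl (e4.trans e3.symm) (e5.trans e3.symm)

/-- Two opposite edges against the other four. -/
theorem pat_opp (v : Fin 4 → E3) (hv : AffineIndependent ℝ v) (hc : ConeCond v) {α β : ℝ}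
    (h0 : TetRel.dih v 0 = β) (h1 : TetRel.dih v 1 = α) (h2 : TetRel.dih v 2 = β)
    (h3 : TetRel.dih v 3 = β) (h4 : TetRel.dih v 4 = α) (h5 : TetRel.dih v 5 = β) :
    ∃ s : ℝ, Sommer.IsSomm s v := by
  obtain ⟨s, hs⟩ := len_phi v hv
  have e0 := hs 0
  have e1 := hs 1
  have e2 := hs 2
  have e3 := hs 3
  have e4 := hs 4
  have e5 := hs 5
  simp only [xfun, Matrix.cons_val, h0, h1, h2, h3, h4, h5] at e0 e1 e2 e3 e4 e5
  have f2 : len v 2 = len v 0 := by
    rw [e2, e0]; unfold xpoly; ring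
  have f3 : len v 3 = len v 0 := by
    rw [e3, e0]; unfold xpoly; ring
  have f5 : len v 5 = len v 0 := by
    rw [e5, e0]
  have f4 : len v 4 = len v 1 := by
    rw [e4, e1]
  have key := classA v hv hc (a := len v 1) (b := len v 0) rfl rfl f2 f3 f4 f5
  have ha0 : 0 < len v 1 := dist_pos.2 (hv.injective.ne (by decide))
  have hb0 : 0 < len v 0 := dist_pos.2 (hv.injective.ne (by decide))
  have hbv : len v 0 = √3 * (len v 1 / 2) := by
    have h1 : len v 0 ^ 2 = (√3 * (len v 1 / 2)) ^ 2 := by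
      rw [mul_pow, Real.sq_sqrt (by norm_num)]
      linarith
    exact (sq_eq_sq₀ hb0.le (by positivity)).1 h1
  refine ⟨len v 1 / 2, by positivity, ?_, ?_, ?_, ?_, ?_, ?_⟩
  all_goals first
    | (show len v 1 = 2 * (len v 1 / 2); ring)
    | (show len v 4 = 2 * (len v 1 / 2); rw [f4]; ring)
    | (show len v 0 = √3 * (len v 1 / 2); exact hbv)
    | (show len v 2 = √3 * (len v 1 / 2); exact f2.trans hbv)
    | (show len v 3 = √3 * (len v 1 / 2); exact f3.trans hbv)
    | (show len v 5 = √3 * (len v 1 / 2); exact f5.trans hbv)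

theorem one_add_cos {t : ℝ} (h0 : 0 < t) (h1 : t < π) : 0 < 1 + Real.cos t := by
  have := Real.cos_lt_cos_of_nonneg_of_le_pi h0.le le_rfl h1
  rw [Real.cos_pi] at this
  linarith

/-- One edge against the other five. -/
theorem pat_one (v : Fin 4 → E3) (hv : AffineIndependent ℝ v) (hc : ConeCond v) {α β : ℝ}
    (h0 : TetRel.dih v 0 = α) (h1 : TetRel.dih v 1 = β) (h2 : TetRel.dih v 2 = β)
    (h3 : TetRel.dih v 3 = β) (h4 : TetRel.dih v 4 = β) (h5 : TetRel.dih v 5 = β) : False := by
  obtain ⟨a, K, hK, ha, hl, q0, q1, q2, q3⟩ := areas v hv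
  obtain ⟨s0, s1, s2, s3⟩ := vertex_sum v hv
  have d0 := dih_mem v hv 0
  have d1 := dih_mem v hv 1
  rw [h0] at d0
  rw [h1] at d1
  obtain ⟨k, m, c, hm, hA, hB⟩ := proj v hc ![true, false, false, false, false, false]
    (α := α) (β := β) (by
      intro e
      fin_cases e
      · exact h0
      · exact h1
      · exact h2
      · exact h3
      · exact h4
      · exact h5)
  have l0 := hl 0
  have l1 := hl 1
  have l2 := hl 2
  have l3 := hl 3
  have l4 := hl 4
  have l5 := hl 5
  simp only [ec, ed, Matrix.cons_val, h0, h1, h2, h3, h4, h5] at l0 l1 l2 l3 l4 l5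
  rw [h1, h3, h5] at s2
  rw [h0, h1, h2] at s0
  simp only [h0, h1, h2, h3, h4, h5] at q0 q1 q2 q3
  have p1 := one_add_cos d1.1 d1.2
  have p0 := one_add_cos d0.1 d0.2
  have a01 : a 1 = a 0 := by
    have : (1 + Real.cos β) * (a 1 - a 0) = 0 := by linear_combination q1 - q0
    have := (mul_eq_zero.1 this).resolve_left p1.ne'
    linarith
  have a23 : a 3 = a 2 := by
    have : (1 + Real.cos α) * (a 3 - a 2) = 0 := by linear_combination q3 - q2
    have := (mul_eq_zero.1 this).resolve_left p0.ne'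
    linarith
  simp only [a01, a23] at q0 q2 l0 l1 l2 l3 l4 l5
  rw [Fin.sum_univ_six] at hA hB
  simp only [Matrix.cons_val, if_true, if_false, Bool.false_eq_true, l0, l1, l2, l3, l4,
    l5] at hA hB
  refine two_i (f := a 0) (g := a 2) (κ := K) d0.1 d0.2 d1.1 d1.2 (ha 0) (ha 2) hK ?_ ?_ ?_ ?_
    m c hm ?_ ?_
  · linear_combination q0
  · linear_combination q2
  · linarith
  · linarith
  · rw [hA]; ring
  · rw [hB]; ring

/-- Two adjacent edges against the other four. -/
theorem pat_adj (v : Fin 4 → E3) (hv : AffineIndependent ℝ v) (hc : ConeCond v) {α β : ℝ}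
    (h0 : TetRel.dih v 0 = α) (h1 : TetRel.dih v 1 = α) (h2 : TetRel.dih v 2 = β)
    (h3 : TetRel.dih v 3 = β) (h4 : TetRel.dih v 4 = β) (h5 : TetRel.dih v 5 = β) : False := by
  obtain ⟨a, K, hK, ha, hl, q0, q1, q2, q3⟩ := areas v hv
  obtain ⟨s0, s1, s2, s3⟩ := vertex_sum v hv
  have d0 := dih_mem v hv 0
  have d2 := dih_mem v hv 2
  rw [h0] at d0
  rw [h2] at d2
  obtain ⟨k, m, c, hm, hA, hB⟩ := proj v hc ![true, true, false, false, false, false]
    (α := α) (β := β) (by
      intro e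
      fin_cases e
      · exact h0
      · exact h1
      · exact h2
      · exact h3
      · exact h4
      · exact h5)
  have l0 := hl 0
  have l1 := hl 1
  have l2 := hl 2
  have l3 := hl 3
  have l4 := hl 4
  have l5 := hl 5
  simp only [ec, ed, Matrix.cons_val, h0, h1, h2, h3, h4, h5] at l0 l1 l2 l3 l4 l5
  simp only [h0, h1, h2, h3, h4, h5] at q0 q1 q2 q3 s0 s1 s2 s3
  have p1 := one_add_cos d2.1 d2.2
  have a12 : a 2 = a 1 := by
    have : (1 + Real.cos β) * (a 2 - a 1) = 0 := by linear_combination q2 - q1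
    have := (mul_eq_zero.1 this).resolve_left p1.ne'
    linarith
  simp only [a12] at q0 q1 q3 l0 l1 l2 l3 l4 l5
  rw [Fin.sum_univ_six] at hA hB
  simp only [Matrix.cons_val, if_true, if_false, Bool.false_eq_true, l0, l1, l2, l3, l4,
    l5] at hA hB
  refine two_ii (f := a 3) (g := a 1) (h := a 0) (κ := K) d0.1 d0.2 d2.1 d2.2 (ha 3) (ha 1)
    (ha 0) hK ?_ ?_ ?_ ?_ ?_ ?_ m c hm ?_ ?_
  · linear_combination q3
  · linear_combination q0
  · linear_combination q1
  · linarith
  · linarith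
  · linarith
  · rw [hA]; ring
  · rw [hB]; ring

/-- A path of three edges against the other three. -/
theorem pat_path (v : Fin 4 → E3) (hv : AffineIndependent ℝ v) (hc : ConeCond v) {α β : ℝ}
    (h0 : TetRel.dih v 0 = α) (h1 : TetRel.dih v 1 = β) (h2 : TetRel.dih v 2 = β)
    (h3 : TetRel.dih v 3 = α) (h4 : TetRel.dih v 4 = β) (h5 : TetRel.dih v 5 = α) : False := by
  obtain ⟨a, K, hK, ha, hl, q0, q1, q2, q3⟩ := areas v hv
  obtain ⟨-, hM, -, -⟩ := vertM v hv
  rw [← dih_eq_edih, ← dih_eq_edih, ← dih_eq_edih, h0, h3, h4] at hM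
  have d0 := dih_mem v hv 0
  have d1 := dih_mem v hv 1
  rw [h0] at d0
  rw [h1] at d1
  obtain ⟨k, m, c, hm, hA, hB⟩ := proj v hc ![true, false, false, true, false, true]
    (α := α) (β := β) (by
      intro e
      fin_cases e
      · exact h0
      · exact h1
      · exact h2
      · exact h3
      · exact h4
      · exact h5)
  obtain ⟨s, hs⟩ := len_phi v hv
  have e0 := hs 0
  have e1 := hs 1
  have e4 := hs 4
  have e5 := hs 5
  simp only [xfun, Matrix.cons_val, h0, h1, h2, h3, h4, h5] at e0 e1 e4 e5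
  have f05 : len v 5 = len v 0 := by
    rw [e5, e0]; unfold xpoly; ring
  have f14 : len v 4 = len v 1 := by
    rw [e4, e1]; unfold xpoly; ring
  have l0 := hl 0
  have l1 := hl 1
  have l2 := hl 2
  have l3 := hl 3
  have l4 := hl 4
  have l5 := hl 5
  simp only [ec, ed, Matrix.cons_val, h0, h1, h2, h3, h4, h5] at l0 l1 l2 l3 l4 l5
  simp only [h0, h1, h2, h3, h4, h5] at q0 q1 q2 q3
  have sα : 0 < Real.sin α := Real.sin_pos_of_pos_of_lt_pi d0.1 d0.2
  have sβ : 0 < Real.sin β := Real.sin_pos_of_pos_of_lt_pi d1.1 d1.2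
  have g1 : a 0 * a 1 = a 2 * a 3 := by
    have h6 : (K * Real.sin α) * (a 0 * a 1) = (K * Real.sin α) * (a 2 * a 3) := by
      rw [l5, l0] at f05
      linear_combination f05
    exact mul_left_cancel₀ (by positivity) h6
  have g2 : a 0 * a 2 = a 1 * a 3 := by
    have h6 : (K * Real.sin β) * (a 0 * a 2) = (K * Real.sin β) * (a 1 * a 3) := by
      rw [l4, l1] at f14
      linear_combination f14
    exact mul_left_cancel₀ (by positivity) h6
  have hp0 := ha 0
  have hp1 := ha 1
  have hp2 := ha 2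
  have hp3 := ha 3
  have a12 : a 2 = a 1 := by
    -- `(a 0 + a 3) (a 1 - a 2) = 0`
    have h6 : (a 0 + a 3) * (a 2 - a 1) = 0 := by linear_combination g2 - g1
    have := (mul_eq_zero.1 h6).resolve_left (by linarith)
    linarith
  have a03 : a 3 = a 0 := by
    rw [a12] at g1
    have h6 : a 1 * (a 3 - a 0) = 0 := by linear_combination -g1
    have := (mul_eq_zero.1 h6).resolve_left hp1.ne'
    linarith
  simp only [a12, a03] at q0 q1 l0 l1 l2 l3 l4 l5
  rw [Fin.sum_univ_six] at hA hB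
  simp only [Matrix.cons_val, if_true, if_false, Bool.false_eq_true, l0, l1, l2, l3, l4,
    l5] at hA hB
  refine two_v (f := a 1) (g := a 0) (κ := K) d0.1 d0.2 d1.1 d1.2 hp1 hp0 hK ?_ ?_ ?_
    m c hm ?_ ?_
  · linear_combination q1
  · linear_combination q0
  · nlinarith [hM]
  · rw [hA]; ring
  · rw [hB]; ring

/-- **Tetrahedra with at most two distinct dihedral angles that tile space.** -/
theorem two_shape (v : Fin 4 → E3) (hv : AffineIndependent ℝ v) (hT : TetRel.Tiles v)
    {α β : ℝ} (h2 : ∀ e, TetRel.dih v e = α ∨ TetRel.dih v e = β) :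
    ∃ (τ : Equiv.Perm (Fin 4)) (s : ℝ), Sommer.IsSomm s (v ∘ τ) := by
  classical
  obtain ⟨τ, b, hcol⟩ := col_cases (fun e => decide (TetRel.dih v e = α))
  have hw : AffineIndependent ℝ (v ∘ τ) := hv.comp_embedding τ.toEmbedding
  have hc := coneCond (v ∘ τ) hw (tiles_comp hT τ)
  -- the two angles after the exchange of colours
  obtain ⟨α', β', hψ⟩ : ∃ α' β' : ℝ, ∀ e, TetRel.dih (v ∘ τ) e =
      if xor b (decide (TetRel.dih v (em τ e) = α)) then α' else β' := by
    cases b
    · refine ⟨α, β, fun e => ?_⟩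
      rw [dih_comp]
      by_cases h : TetRel.dih v (em τ e) = α
      · simp [h]
      · simpa [h] using (h2 (em τ e)).resolve_left h
    · refine ⟨β, α, fun e => ?_⟩
      rw [dih_comp]
      by_cases h : TetRel.dih v (em τ e) = α
      · simp [h]
      · simpa [h] using (h2 (em τ e)).resolve_left h
  simp only at hcol
  have hval : ∀ (p : Fin 6 → Bool),
      (fun e => xor b (decide (TetRel.dih v (em τ e) = α))) = p →
      ∀ e, TetRel.dih (v ∘ τ) e = if p e then α' else β' := by
    intro p hp e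
    rw [hψ e, ← hp]
  refine ⟨τ, ?_⟩
  rcases hcol with h | h | h | h | h | h
  · have H := hval _ h
    exact (pat_star (v ∘ τ) hw hc (H 0) (H 1) (H 2) (H 3) (H 4) (H 5)).elim
  · have H := hval _ h
    exact (pat_one (v ∘ τ) hw hc (H 0) (H 1) (H 2) (H 3) (H 4) (H 5)).elim
  · have H := hval _ h
    exact (pat_adj (v ∘ τ) hw hc (H 0) (H 1) (H 2) (H 3) (H 4) (H 5)).elim
  · have H := hval _ h
    exact pat_opp (v ∘ τ) hw hc (H 0) (H 1) (H 2) (H 3) (H 4) (H 5)
  · have H := hval _ h
    exact (pat_star (v ∘ τ) hw hc (H 0) (H 1) (H 2) (H 3) (H 4) (H 5)).elim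
  · have H := hval _ h
    exact (pat_path (v ∘ τ) hw hc (H 0) (H 1) (H 2) (H 3) (H 4) (H 5)).elim

end Pool.Agent.TET
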